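import Pool.Agent.RPL.Eta

/-! # RPL-Bra: the bracket of a function with the invariant form -/

set_option linter.style.longLine false

open scoped Matrix ContDiff Topology
open Complex MeasureTheory Filter

namespace RPL

/-- `a_x η_y - a_y η_x` for `η = dx / y + du` -/
noncomputable def bra (u a : ℂ → ℝ) (z : ℂ) : ℝ :=
  fderiv ℝ a z 1 * eta u z I - fderiv ℝ a z I * eta u z 1

private theorem bra_dec (L : ℂ →L[ℝ] ℝ) (v : ℂ) : L v = v.re * L 1 + v.im * L I := by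
  have h : v = v.re • (1 : ℂ) + v.im • I := by
    apply Complex.ext
    · simp
    · simp
  conv_lhs => rw [h]
  rw [map_add, map_smul, map_smul, smul_eq_mul, smul_eq_mul]

private theorem bra_lin (u : ℂ → ℝ) (w : ℂ) : ∃ E : ℂ →L[ℝ] ℝ, ∀ v, eta u w v = E v := by
  refine ⟨(1 / w.im) • Complex.reCLM + fderiv ℝ u w, fun v => ?_⟩
  unfold eta
  simp
  ring

theorem bra_mob {u a : ℂ → ℝ} {A : SLR} {z : ℂ} (hz : z ∈ UH) (ha : DifferentiableAt ℝ a (mob A z))
    (hinv : ∀ v : ℂ, eta u (mob A z) ((den A z ^ 2)⁻¹ * v) = eta u z v) :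
    bra u (a ∘ mob A) z = ((normSq (den A z)) ^ 2)⁻¹ * bra u a (mob A z) := by
  obtain ⟨q, hq⟩ : ∃ q, q = (den A z ^ 2)⁻¹ := ⟨_, rfl⟩
  have h2 := ((mob_hasDeriv A hz).hasFDerivAt).restrictScalars ℝ
  have h3 := ha.hasFDerivAt.comp z h2
  have h4 : ∀ v : ℂ, fderiv ℝ (a ∘ mob A) z v = fderiv ℝ a (mob A z) (q * v) := by
    intro v
    rw [h3.fderiv, hq]
    simp [mul_comm v]
  obtain ⟨E, hE⟩ := bra_lin u (mob A z)
  have hn : q.re ^ 2 + q.im ^ 2 = ((normSq (den A z)) ^ 2)⁻¹ := by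
    have h5 : normSq q = ((normSq (den A z)) ^ 2)⁻¹ := by
      rw [hq, Complex.normSq_inv, map_pow]
    rw [← h5, Complex.normSq_apply]
    ring
  rw [← hq] at hinv
  unfold bra
  rw [h4, h4, ← hinv I, ← hinv 1, ← hn, hE, hE, hE, hE, bra_dec (fderiv ℝ a (mob A z)) (q * 1),
    bra_dec (fderiv ℝ a (mob A z)) (q * I), bra_dec E (q * 1), bra_dec E (q * I)]
  simp only [mul_one, Complex.mul_I_re, Complex.mul_I_im]
  ring

theorem bra_congr {u a b : ℂ → ℝ} {z : ℂ} (h : a =ᶠ[𝓝 z] b) : bra u a z = bra u b z := by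
  unfold bra
  rw [h.fderiv_eq]

theorem bra_sum {ι : Type} {u : ℂ → ℝ} (F : Finset ι) (a : ι → ℂ → ℝ) {z : ℂ}
    (ha : ∀ i ∈ F, DifferentiableAt ℝ (a i) z) :
    bra u (fun w => ∑ i ∈ F, a i w) z = ∑ i ∈ F, bra u (a i) z := by
  have h1 : fderiv ℝ (fun w => ∑ i ∈ F, a i w) z = ∑ i ∈ F, fderiv ℝ (a i) z :=
    (HasFDerivAt.fun_sum fun i hi => (ha i hi).hasFDerivAt).fderiv
  unfold bra
  rw [h1, sum_apply, sum_apply, Finset.sum_mul, Finset.sum_mul,
    ← Finset.sum_sub_distrib]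

theorem bra_const {u a : ℂ → ℝ} {c : ℝ} {z : ℂ} (h : a =ᶠ[𝓝 z] fun _ => c) : bra u a z = 0 := by
  rw [bra_congr h]
  unfold bra
  simp

theorem bra_cont {u a : ℂ → ℝ} (hu : ContDiffOn ℝ 1 u UH) (ha : ContDiffOn ℝ 1 a UH) :
    ContinuousOn (bra u a) UH := by
  have h1 : ContinuousOn (fderiv ℝ u) UH := hu.continuousOn_fderiv_of_isOpen isOpen_UH le_rfl
  have h2 : ContinuousOn (fderiv ℝ a) UH := ha.continuousOn_fderiv_of_isOpen isOpen_UH le_rfl
  have h3 : ∀ v : ℂ, ContinuousOn (fun z => fderiv ℝ a z v) UH := fun v => h2.clm_apply continuousOn_const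
  have h4 : ∀ v : ℂ, ContinuousOn (fun z => eta u z v) UH := fun v => by
    unfold eta
    exact (continuousOn_const.div Complex.continuous_im.continuousOn fun z hz => ne_of_gt hz).add
      (h1.clm_apply continuousOn_const)
  exact ((h3 1).mul (h4 I)).sub ((h3 I).mul (h4 1))

end RPL
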