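import Pool.Agent.RPL.Defs

/-! # RPL-Std: every plane can be moved to the standard plane -/

set_option linter.style.longLine false

open scoped Matrix ContDiff
open Complex

namespace RPL

open SXP

/-- the case of a vertical plane -/
private theorem std_vert {N : Matrix (Fin 2) (Fin 2) ℂ} (hN : IsNormal N) (h0 : N 0 0 = 0) :
    ∃ (h : SLC) (c : ℝ), 0 < c ∧ h.1ᴴ * N * h.1 = (c : ℂ) • N0 ∧ h.1 1 0 = 0 := by
  have e01 : N 0 1 = (starRingEnd ℂ) (N 1 0) := (congrFun (congrFun hN.1 0) 1).symm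
  have e11 : (starRingEnd ℂ) (N 1 1) = N 1 1 := congrFun (congrFun hN.1 1) 1
  obtain ⟨n, hn⟩ : ∃ n, n = N 1 0 := ⟨_, rfl⟩
  obtain ⟨r, hr⟩ : ∃ r, r = N 1 1 := ⟨_, rfl⟩
  rw [← hn] at e01
  rw [← hr] at e11
  have hn0 : n ≠ 0 := by
    intro h
    have h1 := hN.2
    rw [Matrix.det_fin_two, h0, e01, h, map_zero, zero_mul, zero_mul, sub_zero, Complex.zero_re] at h1
    exact lt_irrefl _ h1
  have hc : 0 < ‖n‖ := norm_pos_iff.2 hn0
  have hcC : ((‖n‖ : ℝ) : ℂ) ≠ 0 := by exact_mod_cast hc.ne'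
  have hnn : (starRingEnd ℂ) n * n = ((‖n‖ : ℝ) : ℂ) ^ 2 := by
    rw [mul_comm, Complex.mul_conj, Complex.normSq_eq_norm_sq]
    push_cast
    ring
  obtain ⟨a, ha⟩ := IsAlgClosed.exists_pow_nat_eq ((starRingEnd ℂ) n / (((‖n‖ : ℝ) : ℂ) * I)) (n := 2) (by norm_num)
  have hI : (I : ℂ) ≠ 0 := Complex.I_ne_zero
  -- `conj n = c i a^2`
  have F2 : (starRingEnd ℂ) n = ((‖n‖ : ℝ) : ℂ) * I * a ^ 2 := by
    rw [ha]
    field_simp
  have F1 : a * (starRingEnd ℂ) a = 1 := by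
    have h1 : ‖a‖ ^ 2 = 1 := by
      have h2 : ‖a ^ 2‖ = 1 := by
        rw [ha, norm_div, norm_mul, Complex.norm_I, mul_one, Complex.norm_conj, Complex.norm_real,
          norm_norm, div_self hc.ne']
      rw [norm_pow] at h2
      exact h2
    rw [Complex.mul_conj, Complex.normSq_eq_norm_sq, h1]
    norm_num
  have F2' : n = -(((‖n‖ : ℝ) : ℂ) * I) * (starRingEnd ℂ) a ^ 2 := by
    have h1 := congrArg (starRingEnd ℂ) F2
    rw [Complex.conj_conj, map_mul, map_mul, Complex.conj_ofReal, Complex.conj_I, map_pow] at h1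
    linear_combination h1
  obtain ⟨b, hb⟩ : ∃ b, b = -r * (starRingEnd ℂ) a / (2 * n) := ⟨_, rfl⟩
  have F3 : a * n * b = -r / 2 := by
    rw [hb]
    field_simp
    linear_combination (-r) * F1
  have F3' : (starRingEnd ℂ) a * (starRingEnd ℂ) n * (starRingEnd ℂ) b = -r / 2 := by
    have h1 := congrArg (starRingEnd ℂ) F3
    rw [map_mul, map_mul, map_div₀, map_neg, e11] at h1
    rw [h1, map_ofNat]
  refine ⟨⟨!![a, b; 0, (starRingEnd ℂ) a], by rw [Matrix.det_fin_two_of, F1]; ring⟩, ‖n‖, hc, ?_, rfl⟩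
  have hNm : N = !![0, (starRingEnd ℂ) n; n, r] := by
    ext i j
    fin_cases i <;> fin_cases j
    · exact h0
    · exact e01
    · exact hn.symm
    · exact hr.symm
  have hH : (!![a, b; 0, (starRingEnd ℂ) a] : Matrix (Fin 2) (Fin 2) ℂ)ᴴ =
      !![(starRingEnd ℂ) a, 0; (starRingEnd ℂ) b, a] := by
    ext i j
    fin_cases i <;> fin_cases j <;> simp [Matrix.conjTranspose_apply]
  show (!![a, b; 0, (starRingEnd ℂ) a] : Matrix (Fin 2) (Fin 2) ℂ)ᴴ * N * !![a, b; 0, (starRingEnd ℂ) a] = _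
  rw [hH, hNm, Matrix.mul_fin_two, Matrix.mul_fin_two]
  ext i j
  fin_cases i <;> fin_cases j
  · show ((starRingEnd ℂ) a * 0 + 0 * n) * a + ((starRingEnd ℂ) a * (starRingEnd ℂ) n + 0 * r) * 0 =
      ((‖n‖ : ℝ) : ℂ) * 0
    ring
  · show ((starRingEnd ℂ) a * 0 + 0 * n) * b + ((starRingEnd ℂ) a * (starRingEnd ℂ) n + 0 * r) * (starRingEnd ℂ) a =
      ((‖n‖ : ℝ) : ℂ) * I
    linear_combination (starRingEnd ℂ) a ^ 2 * F2 + ((‖n‖ : ℝ) : ℂ) * I * (a * (starRingEnd ℂ) a + 1) * F1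
  · show ((starRingEnd ℂ) b * 0 + a * n) * a + ((starRingEnd ℂ) b * (starRingEnd ℂ) n + a * r) * 0 =
      ((‖n‖ : ℝ) : ℂ) * -I
    linear_combination a ^ 2 * F2' - ((‖n‖ : ℝ) : ℂ) * I * (a * (starRingEnd ℂ) a + 1) * F1
  · show ((starRingEnd ℂ) b * 0 + a * n) * b + ((starRingEnd ℂ) b * (starRingEnd ℂ) n + a * r) * (starRingEnd ℂ) a =
      ((‖n‖ : ℝ) : ℂ) * 0
    linear_combination F3 + F3' + r * F1

theorem std_plane {N : Matrix (Fin 2) (Fin 2) ℂ} (hN : IsNormal N) : ∃ (k : SLC) (c : ℝ), 0 < c ∧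
    (k⁻¹).1ᴴ * N * (k⁻¹).1 = (c : ℂ) • N0 ∧ (N 0 0 = 0 → k.1 1 0 = 0) := by
  by_cases h0 : N 0 0 = 0
  · obtain ⟨h, c, hc, h1, h2⟩ := std_vert hN h0
    refine ⟨h⁻¹, c, hc, ?_, fun _ => ?_⟩
    · rw [inv_inv]
      exact h1
    · rw [Matrix.SpecialLinearGroup.coe_inv, Matrix.adjugate_fin_two]
      show -(h.1 1 0) = 0
      rw [h2, neg_zero]
  · have e01 : N 0 1 = (starRingEnd ℂ) (N 1 0) := (congrFun (congrFun hN.1 0) 1).symm
    have e11 : (starRingEnd ℂ) (N 1 1) = N 1 1 := congrFun (congrFun hN.1 1) 1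
    have e00 : (starRingEnd ℂ) (N 0 0) = N 0 0 := congrFun (congrFun hN.1 0) 0
    have hdet : (starRingEnd ℂ) N.det = N.det := by
      rw [Matrix.det_fin_two, map_sub, map_mul, map_mul, e00, e11, e01, Complex.conj_conj]
      ring
    have hdr : ((N.det.re : ℝ) : ℂ) = N.det := Complex.conj_eq_iff_real.1 hdet |>.elim fun r hr => by
      rw [hr, Complex.ofReal_re]
    let s : ℝ := Real.sqrt (-N.det.re)
    have hs : ((s : ℝ) : ℂ) ^ 2 = -N.det := by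
      have h1 : s ^ 2 = -N.det.re := Real.sq_sqrt (by linarith [hN.2])
      rw [← hdr, ← Complex.ofReal_pow, h1]
      push_cast
      rfl
    let x : ℂ := ((s : ℝ) - N 0 1) / N 0 0
    have hx : (starRingEnd ℂ) x = ((s : ℝ) - N 1 0) / N 0 0 := by
      show (starRingEnd ℂ) (((s : ℝ) - N 0 1) / N 0 0) = _
      rw [map_div₀, map_sub, Complex.conj_ofReal, e00, e01, Complex.conj_conj]
    let g : SLC := ⟨!![x, -1; 1, 0], by rw [Matrix.det_fin_two_of]; ring⟩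
    have hg : IsNormal (g.1ᴴ * N * g.1) := normal_act g hN
    have hg0 : (g.1ᴴ * N * g.1) 0 0 = 0 := by
      have h1 : (g.1ᴴ * N * g.1) 0 0 = ((starRingEnd ℂ) x * N 0 0 + N 1 0) * x +
          ((starRingEnd ℂ) x * N 0 1 + N 1 1) := by
        simp [g, Matrix.mul_apply, Fin.sum_univ_two, Matrix.conjTranspose_apply]
      rw [h1, hx]
      show ((((s : ℝ) : ℂ) - N 1 0) / N 0 0 * N 0 0 + N 1 0) * ((((s : ℝ) : ℂ) - N 0 1) / N 0 0) +
          ((((s : ℝ) : ℂ) - N 1 0) / N 0 0 * N 0 1 + N 1 1) = 0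
      have h2 := hs
      rw [Matrix.det_fin_two] at h2
      field_simp
      linear_combination h2
    obtain ⟨h, c, hc, h1, h2⟩ := std_vert hg hg0
    refine ⟨(g * h)⁻¹, c, hc, ?_, fun h3 => absurd h3 h0⟩
    rw [inv_inv, Matrix.SpecialLinearGroup.coe_mul, Matrix.conjTranspose_mul, ← h1]
    simp only [Matrix.mul_assoc]

end RPL
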