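import Pool.Agent.RPL.RealX
import Pool.Agent.RPL.Std

/-! # RPL-RealHom: the side preserving stabiliser of a plane is conjugate into the real group -/

set_option linter.style.longLine false

open scoped Matrix ContDiff
open Complex

namespace RPL

open SXP

private theorem conj_key {N : Matrix (Fin 2) (Fin 2) ℂ} {k : SLC} {c : ℝ} (hc : 0 < c)
    (hk : (k⁻¹).1ᴴ * N * (k⁻¹).1 = (c : ℂ) • N0) {X : SLC} {ε : ℂ} (h : X.1ᴴ * N * X.1 = ε • N) :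
    (k * X * k⁻¹).1ᴴ * N0 * (k * X * k⁻¹).1 = ε • N0 := by
  have h1 : (k⁻¹).1 * k.1 = 1 := by
    rw [← Matrix.SpecialLinearGroup.coe_mul, inv_mul_cancel, Matrix.SpecialLinearGroup.coe_one]
  have h2 : k.1ᴴ * (k⁻¹).1ᴴ = 1 := by
    rw [← Matrix.conjTranspose_mul, h1, Matrix.conjTranspose_one]
  have hY : (k * X * k⁻¹).1 = k.1 * X.1 * (k⁻¹).1 := by
    rw [Matrix.SpecialLinearGroup.coe_mul, Matrix.SpecialLinearGroup.coe_mul]
  have hc' : (c : ℂ) ≠ 0 := by exact_mod_cast hc.ne'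
  have h3 : (c : ℂ) • ((k * X * k⁻¹).1ᴴ * N0 * (k * X * k⁻¹).1) = (c : ℂ) • (ε • N0) := by
    calc (c : ℂ) • ((k * X * k⁻¹).1ᴴ * N0 * (k * X * k⁻¹).1)
        = (k * X * k⁻¹).1ᴴ * ((c : ℂ) • N0) * (k * X * k⁻¹).1 := by
          rw [Matrix.mul_smul, Matrix.smul_mul]
      _ = (k⁻¹).1ᴴ * X.1ᴴ * (k.1ᴴ * (k⁻¹).1ᴴ) * N * ((k⁻¹).1 * k.1) * X.1 * (k⁻¹).1 := by
          rw [← hk, hY, Matrix.conjTranspose_mul, Matrix.conjTranspose_mul]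
          simp only [Matrix.mul_assoc]
      _ = (k⁻¹).1ᴴ * (X.1ᴴ * N * X.1) * (k⁻¹).1 := by
          rw [h1, h2, Matrix.mul_one, Matrix.mul_one]
          simp only [Matrix.mul_assoc]
      _ = ε • ((k⁻¹).1ᴴ * N * (k⁻¹).1) := by
          rw [h, Matrix.mul_smul, Matrix.smul_mul]
      _ = (c : ℂ) • (ε • N0) := by
          rw [hk, smul_comm]
  exact smul_right_injective _ hc' h3

theorem conj_pres {N : Matrix (Fin 2) (Fin 2) ℂ} {k : SLC} {c : ℝ} (hc : 0 < c)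
    (hk : (k⁻¹).1ᴴ * N * (k⁻¹).1 = (c : ℂ) • N0) {X : SLC} (h : X.1ᴴ * N * X.1 = N) :
    (k * X * k⁻¹).1ᴴ * N0 * (k * X * k⁻¹).1 = N0 := by
  have h1 := conj_key hc hk (X := X) (ε := 1) (by rw [one_smul]; exact h)
  rwa [one_smul] at h1

theorem conj_flip {N : Matrix (Fin 2) (Fin 2) ℂ} {k : SLC} {c : ℝ} (hc : 0 < c)
    (hk : (k⁻¹).1ᴴ * N * (k⁻¹).1 = (c : ℂ) • N0) {X : SLC} (h : X.1ᴴ * N * X.1 = -N) :
    (k * X * k⁻¹).1ᴴ * N0 * (k * X * k⁻¹).1 = -N0 := by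
  have h1 := conj_key hc hk (X := X) (ε := -1) (by rw [neg_smul, one_smul]; exact h)
  rwa [neg_smul, one_smul] at h1

theorem realHom {G : Type} [Group G] (ρ : G →* SLC) {N : Matrix (Fin 2) (Fin 2) ℂ} {k : SLC} {c : ℝ}
    (hc : 0 < c) (hk : (k⁻¹).1ᴴ * N * (k⁻¹).1 = (c : ℂ) • N0) :
    ∃ B : DN ρ N →* SLR, ∀ d : DN ρ N, cx (B d) = k * ρ d * k⁻¹ := by
  have h1 : ∀ d : DN ρ N, ∃ A : SLR, cx A = k * ρ d * k⁻¹ := fun d =>
    real_of_pres (conj_pres hc hk d.2)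
  choose B hB using h1
  refine ⟨MonoidHom.mk' B fun a b => ?_, hB⟩
  apply cx_inj
  rw [map_mul, hB, hB, hB]
  have h2 : ρ ((a * b : DN ρ N) : G) = ρ a * ρ b := by
    rw [Subgroup.coe_mul, map_mul]
  rw [h2]
  group

end RPL
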