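import Pool.Agent.RPL.RealX
import Pool.Agent.RPL.RealHom

/-! # RPL-CuspA: the algebraic contradiction in the cusped case

The matrix `(cx R)⁻¹ k X k⁻¹` commutes with a parabolic matrix and has purely imaginary entries.
-/

set_option linter.style.longLine false

open scoped Matrix ContDiff
open Complex

namespace RPL

open SXP

theorem cusp_alg {N : Matrix (Fin 2) (Fin 2) ℂ} {k : SLC} {c : ℝ} (hc : 0 < c)
    (hk : (k⁻¹).1ᴴ * N * (k⁻¹).1 = (c : ℂ) • N0) (hk0 : k.1 1 0 = 0) {p X : SLC} {a : ℂ} (ha : a ≠ 0)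
    (hp : p.1 = !![1, a; 0, 1] ∨ p.1 = -!![1, a; 0, 1]) (hX : X.1ᴴ * N * X.1 = -N) {RA R : SLR}
    (h1 : cx RA = k * p * k⁻¹) (h2 : cx (R * RA * R⁻¹) = k * (X * p * X⁻¹) * k⁻¹) : False := by
  have hY : ∀ i j, ((k * X * k⁻¹).1 i j).re = 0 := imag_of_flip (conj_flip hc hk hX)
  -- the matrix which commutes with the parabolic
  have hZ : ((cx R)⁻¹ * (k * X * k⁻¹)) * (k * p * k⁻¹) = (k * p * k⁻¹) * ((cx R)⁻¹ * (k * X * k⁻¹)) := by
    have h3 : cx R * (k * p * k⁻¹) * (cx R)⁻¹ = (k * X * k⁻¹) * (k * p * k⁻¹) * (k * X * k⁻¹)⁻¹ := by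
      rw [← h1, ← map_mul, ← map_inv, ← map_mul, h2, h1]
      group
    have h4 : (cx R)⁻¹ * (cx R * (k * p * k⁻¹) * (cx R)⁻¹) * (k * X * k⁻¹) =
        (cx R)⁻¹ * ((k * X * k⁻¹) * (k * p * k⁻¹) * (k * X * k⁻¹)⁻¹) * (k * X * k⁻¹) := by
      rw [h3]
    calc ((cx R)⁻¹ * (k * X * k⁻¹)) * (k * p * k⁻¹)
        = (cx R)⁻¹ * ((k * X * k⁻¹) * (k * p * k⁻¹) * (k * X * k⁻¹)⁻¹) * (k * X * k⁻¹) := by group
      _ = (cx R)⁻¹ * (cx R * (k * p * k⁻¹) * (cx R)⁻¹) * (k * X * k⁻¹) := h4.symm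
      _ = (k * p * k⁻¹) * ((cx R)⁻¹ * (k * X * k⁻¹)) := by group
  have hZi : ∀ i j, (((cx R)⁻¹ * (k * X * k⁻¹)).1 i j).re = 0 := by
    intro i j
    rw [← map_inv, Matrix.SpecialLinearGroup.coe_mul, Matrix.mul_apply, Fin.sum_univ_two,
      cx_apply, cx_apply]
    simp only [Complex.add_re, Complex.re_ofReal_mul, hY, mul_zero, add_zero]
  -- the parabolic
  obtain ⟨ε, hε, hp'⟩ : ∃ ε : ℂ, ε ≠ 0 ∧ p.1 = ε • !![1, a; 0, 1] := by
    rcases hp with hp | hp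
    · exact ⟨1, one_ne_zero, by rw [one_smul]; exact hp⟩
    · exact ⟨-1, neg_ne_zero.2 one_ne_zero, by rw [neg_smul, one_smul]; exact hp⟩
  have hkd : k.1 0 0 * k.1 1 1 = 1 := by
    have h3 : k.1 0 0 * k.1 1 1 - k.1 0 1 * k.1 1 0 = 1 := by
      rw [← Matrix.det_fin_two]
      exact k.2
    rw [hk0, mul_zero, sub_zero] at h3
    exact h3
  have hk00 : k.1 0 0 ≠ 0 := fun h3 => by
    rw [h3, zero_mul] at hkd
    exact zero_ne_one hkd
  have hA : (k * p * k⁻¹).1 = k.1 * p.1 * k.1.adjugate := by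
    rw [Matrix.SpecialLinearGroup.coe_mul, Matrix.SpecialLinearGroup.coe_mul,
      Matrix.SpecialLinearGroup.coe_inv]
  have hA10 : (k * p * k⁻¹).1 1 0 = 0 := by
    rw [hA, hp', Matrix.adjugate_fin_two]
    simp [Matrix.mul_apply, Fin.sum_univ_two, hk0]
  have hA00 : (k * p * k⁻¹).1 0 0 = ε := by
    rw [hA, hp', Matrix.adjugate_fin_two]
    simp [Matrix.mul_apply, Fin.sum_univ_two, hk0]
    linear_combination ε * hkd
  have hA11 : (k * p * k⁻¹).1 1 1 = ε := by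
    rw [hA, hp', Matrix.adjugate_fin_two]
    simp [Matrix.mul_apply, Fin.sum_univ_two, hk0]
    linear_combination ε * hkd
  have hA01 : (k * p * k⁻¹).1 0 1 = ε * (k.1 0 0 ^ 2 * a) := by
    rw [hA, hp', Matrix.adjugate_fin_two]
    simp [Matrix.mul_apply, Fin.sum_univ_two, hk0]
    ring
  obtain ⟨Z, hZdef⟩ : ∃ Z : SLC, Z = (cx R)⁻¹ * (k * X * k⁻¹) := ⟨_, rfl⟩
  obtain ⟨A, hAdef⟩ : ∃ A : SLC, A = k * p * k⁻¹ := ⟨_, rfl⟩
  rw [← hZdef, ← hAdef] at hZ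
  rw [← hAdef] at hA10 hA00 hA11 hA01
  rw [← hZdef] at hZi
  have hm := congrArg (fun M : SLC => M.1) hZ
  have e00 := congrFun (congrFun hm 0) 0
  have e01 := congrFun (congrFun hm 0) 1
  simp only [Matrix.SpecialLinearGroup.coe_mul, Matrix.mul_apply, Fin.sum_univ_two, hA10, hA00,
    hA11, hA01] at e00 e01
  have hb : ε * (k.1 0 0 ^ 2 * a) ≠ 0 := mul_ne_zero hε (mul_ne_zero (pow_ne_zero 2 hk00) ha)
  have z10 : Z.1 1 0 = 0 := by
    refine (mul_eq_zero.1 (?_ : (ε * (k.1 0 0 ^ 2 * a)) * Z.1 1 0 = 0)).resolve_left hb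
    linear_combination -e00
  have z11 : Z.1 0 0 = Z.1 1 1 := by
    refine sub_eq_zero.1 ((mul_eq_zero.1
      (?_ : (ε * (k.1 0 0 ^ 2 * a)) * (Z.1 0 0 - Z.1 1 1) = 0)).resolve_left hb)
    linear_combination e01
  have hZd : Z.1 0 0 * Z.1 1 1 - Z.1 0 1 * Z.1 1 0 = 1 := by
    rw [← Matrix.det_fin_two]
    exact Z.2
  rw [z10, mul_zero, sub_zero, ← z11] at hZd
  have h5 := congrArg Complex.re hZd
  rw [Complex.mul_re, hZi, Complex.one_re] at h5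
  nlinarith [sq_nonneg (Z.1 0 0).im]

end RPL
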