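import Pool.Agent.RPL.Std
import Pool.Agent.SXP.HOv

/-! # RPL-PlEq: planes determine their normals; stabilisers of planes -/

set_option linter.style.longLine false

open scoped Matrix ContDiff
open Complex

namespace RPL

open SXP

private theorem pq_herm {N : Matrix (Fin 2) (Fin 2) ℂ} (hN : N.IsHermitian) :
    (N 0 0).im = 0 ∧ (N 1 1).im = 0 ∧ (N 0 1).re = (N 1 0).re ∧ (N 0 1).im = -(N 1 0).im := by
  have h00 := congrFun (congrFun hN 0) 0
  have h11 := congrFun (congrFun hN 1) 1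
  have h01 := congrFun (congrFun hN 0) 1
  rw [Matrix.conjTranspose_apply] at h00 h11 h01
  have a := congrArg Complex.im h00
  have b := congrArg Complex.im h11
  have c := congrArg Complex.re h01
  have d := congrArg Complex.im h01
  simp only [Complex.star_def, Complex.conj_im, Complex.conj_re] at a b c d
  exact ⟨by linarith, by linarith, by linarith, by linarith⟩

private theorem pq_pt (z : ℂ) (T : ℝ) (hT : 0 < T) :
    ∃ P : H3, ∀ N : Matrix (Fin 2) (Fin 2) ℂ, N.IsHermitian →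
      lin N P.1 * T = (N 0 0).re * (z.re ^ 2 + z.im ^ 2 + T ^ 2) +
        2 * (z.re * (N 1 0).re - z.im * (N 1 0).im) + (N 1 1).re := by
  have hT0 : T ≠ 0 := hT.ne'
  refine ⟨⟨!![⟨(z.re ^ 2 + z.im ^ 2 + T ^ 2) / T, 0⟩, ⟨z.re / T, z.im / T⟩;
    ⟨z.re / T, -(z.im / T)⟩, ⟨1 / T, 0⟩], ?_, ?_, ?_⟩, ?_⟩
  · ext i j
    fin_cases i <;> fin_cases j <;>
      simp [Matrix.conjTranspose_apply, Complex.ext_iff]
  · simp only [Matrix.of_apply, Matrix.cons_val_zero, Matrix.cons_val']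
    positivity
  · rw [Matrix.det_fin_two]
    apply Complex.ext
    · simp
      field_simp
      ring
    · simp
      ring
  · intro N hN
    obtain ⟨h00, h11, h01, h01'⟩ := pq_herm hN
    simp only [lin, Matrix.trace_fin_two, Matrix.mul_apply, Fin.sum_univ_two]
    simp
    rw [h01, h01']
    field_simp
    ring

private theorem pq_N0_herm : N0.IsHermitian := by
  ext i j
  fin_cases i <;> fin_cases j <;> simp [N0, Matrix.conjTranspose_apply]

private theorem pq_smul (c : ℝ) (hc : c ≠ 0) (N : Matrix (Fin 2) (Fin 2) ℂ) :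
    plane ((c : ℂ) • N) = plane N := by
  ext x
  change lin ((c : ℂ) • N) x.1 = 0 ↔ lin N x.1 = 0
  have : lin ((c : ℂ) • N) x.1 = c * lin N x.1 := by
    unfold lin
    rw [Matrix.mul_smul, Matrix.trace_smul, smul_eq_mul, Complex.re_ofReal_mul]
  rw [this, mul_eq_zero]
  simp [hc]

private theorem pq_back (g : SLC) (N : Matrix (Fin 2) (Fin 2) ℂ) :
    (g⁻¹).1ᴴ * (g.1ᴴ * N * g.1) * (g⁻¹).1 = N := by
  have h1 : g.1 * (g⁻¹).1 = 1 := by
    rw [← Matrix.SpecialLinearGroup.coe_mul, mul_inv_cancel, Matrix.SpecialLinearGroup.coe_one]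
  have h2 : (g⁻¹).1ᴴ * g.1ᴴ = 1 := by
    rw [← Matrix.conjTranspose_mul, h1, Matrix.conjTranspose_one]
  calc (g⁻¹).1ᴴ * (g.1ᴴ * N * g.1) * (g⁻¹).1 = ((g⁻¹).1ᴴ * g.1ᴴ) * N * (g.1 * (g⁻¹).1) := by
        simp only [Matrix.mul_assoc]
    _ = N := by rw [h1, h2, one_mul, mul_one]

private theorem pq_back' (g : SLC) (N : Matrix (Fin 2) (Fin 2) ℂ) :
    g.1ᴴ * ((g⁻¹).1ᴴ * N * (g⁻¹).1) * g.1 = N := by
  have := pq_back g⁻¹ N
  rwa [inv_inv] at this

private theorem pq_std {N' : Matrix (Fin 2) (Fin 2) ℂ} (hN' : IsNormal N')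
    (h : plane N0 = plane N') : ∃ c : ℝ, c ≠ 0 ∧ N' = (c : ℂ) • N0 := by
  obtain ⟨b00, b11, b01, b01'⟩ := pq_herm hN'.1
  have key : ∀ (x T : ℝ), 0 < T → (N' 0 0).re * (x ^ 2 + T ^ 2) + 2 * (x * (N' 1 0).re) + (N' 1 1).re = 0 := by
    intro x T hT
    obtain ⟨P, hP⟩ := pq_pt (x : ℂ) T hT
    have h1 := hP N0 pq_N0_herm
    have h2 : lin N0 P.1 * T = 0 := by
      rw [h1]
      simp [N0]
    have h3 : lin N0 P.1 = 0 := by
      rcases mul_eq_zero.1 h2 with h | h
      · exact h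
      · exact absurd h hT.ne'
    have h4 : P ∈ plane N' := by
      rw [← h]
      exact h3
    have h5 : lin N' P.1 = 0 := h4
    have h6 := hP N' hN'.1
    rw [h5, zero_mul] at h6
    simp at h6
    linarith
  have k1 := key 0 1 one_pos
  have k2 := key 0 2 two_pos
  have k3 := key 1 1 one_pos
  have c0 : (N' 0 0).re = 0 := by linarith
  have c1 : (N' 1 1).re = 0 := by linarith
  have c2 : (N' 1 0).re = 0 := by linarith
  have hE : N' = ((-(N' 1 0).im : ℝ) : ℂ) • N0 := by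
    ext i j
    fin_cases i <;> fin_cases j
    · apply Complex.ext
      · simp [N0, c0]
      · simp [N0, b00]
    · apply Complex.ext
      · simp [N0, b01, c2]
      · simp [N0, b01']
    · apply Complex.ext
      · simp [N0, c2]
      · simp [N0]
    · apply Complex.ext
      · simp [N0, c1]
      · simp [N0, b11]
  refine ⟨-(N' 1 0).im, ?_, hE⟩
  intro h0
  rw [h0] at hE
  have hd := hN'.2
  rw [hE] at hd
  simp at hd

theorem plane_eq {N N' : Matrix (Fin 2) (Fin 2) ℂ} (hN : IsNormal N) (hN' : IsNormal N')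
    (h : plane N = plane N') : ∃ c : ℝ, c ≠ 0 ∧ N' = (c : ℂ) • N := by
  obtain ⟨k, c, hc, hk, -⟩ := std_plane hN
  have h1 : act k '' plane N = act k '' plane N' := by rw [h]
  rw [act_image_plane, act_image_plane, hk, pq_smul c hc.ne'] at h1
  obtain ⟨c', hc', h2⟩ := pq_std (normal_act k⁻¹ hN') h1
  refine ⟨c' / c, div_ne_zero hc' hc.ne', ?_⟩
  have h3 := pq_back' k N'
  have h4 := pq_back' k N
  rw [h2] at h3
  rw [hk] at h4
  rw [← h3, ← h4]
  have hcc : (c : ℂ) ≠ 0 := by exact_mod_cast hc.ne'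
  rw [Matrix.mul_smul, Matrix.smul_mul, Matrix.mul_smul, Matrix.smul_mul, smul_smul]
  congr 1
  push_cast
  field_simp

theorem stab_cases {N : Matrix (Fin 2) (Fin 2) ℂ} (hN : IsNormal N) {g : SLC}
    (h : act g '' plane N = plane N) : g.1ᴴ * N * g.1 = N ∨ g.1ᴴ * N * g.1 = -N := by
  rw [act_image_plane] at h
  obtain ⟨c, hc, h1⟩ := plane_eq hN (normal_act g⁻¹ hN) h.symm
  have hdet : (((g⁻¹).1ᴴ * N * (g⁻¹).1).det) = N.det := by
    rw [Matrix.det_mul, Matrix.det_mul, Matrix.det_conjTranspose, (g⁻¹).2]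
    simp
  have h2 : ((c : ℂ) • N).det = (c : ℂ) ^ 2 * N.det := by
    rw [Matrix.det_smul]
    simp
  have hne : N.det ≠ 0 := by
    intro h0
    have := hN.2
    rw [h0] at this
    simp at this
  have h3 : (c : ℂ) ^ 2 = 1 := by
    have h4 : (c : ℂ) ^ 2 * N.det = 1 * N.det := by
      rw [← h2, ← h1, hdet, one_mul]
    exact mul_right_cancel₀ hne h4
  have h5 := pq_back' g N
  rw [h1, Matrix.mul_smul, Matrix.smul_mul] at h5
  have h3' : (c : ℂ) = 1 ∨ (c : ℂ) = -1 := by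
    have : ((c : ℂ) - 1) * ((c : ℂ) + 1) = 0 := by linear_combination h3
    rcases mul_eq_zero.1 this with h | h
    · left; linear_combination h
    · right; linear_combination h
  rcases h3' with h6 | h6
  · left
    rw [h6, one_smul] at h5
    exact h5
  · right
    rw [h6, neg_smul, one_smul] at h5
    rw [← h5, neg_neg]
    rw [h5]

theorem stab_of {N : Matrix (Fin 2) (Fin 2) ℂ} {g : SLC} (h : g.1ᴴ * N * g.1 = N) :
    act g '' plane N = plane N := by
  rw [act_image_plane]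
  have h1 := pq_back g N
  rw [h] at h1
  rw [h1]

theorem stab_of' {N : Matrix (Fin 2) (Fin 2) ℂ} {g : SLC} (h : g.1ᴴ * N * g.1 = -N) :
    act g '' plane N = plane N := by
  rw [act_image_plane]
  have h1 := pq_back g N
  rw [h, Matrix.mul_neg, Matrix.neg_mul] at h1
  have h2 : (g⁻¹).1ᴴ * N * (g⁻¹).1 = ((-1 : ℝ) : ℂ) • N := by
    rw [← neg_eq_iff_eq_neg.2 h1.symm]
    simp
  rw [h2, pq_smul (-1) (by norm_num)]

end RPL
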