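import Pool.Agent.RPL.Defs
import Pool.Agent.SXP.HOv

/-! # RPL-Pts: formulas for points, translations and vertical planes -/

set_option linter.style.longLine false

open scoped Matrix ContDiff
open Complex

namespace RPL

open SXP

private theorem herm {N : Matrix (Fin 2) (Fin 2) ℂ} (hN : N.IsHermitian) :
    (N 0 0).im = 0 ∧ (N 1 1).im = 0 ∧ (N 0 1).re = (N 1 0).re ∧ (N 0 1).im = -(N 1 0).im := by
  have h00 := congrFun (congrFun hN 0) 0
  have h11 := congrFun (congrFun hN 1) 1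
  have h01 := congrFun (congrFun hN 0) 1
  rw [Matrix.conjTranspose_apply] at h00 h11 h01
  have a := congrArg Complex.im h00
  have b := congrArg Complex.im h11
  have c := congrArg Complex.re h01
  have d := congrArg Complex.im h01
  simp only [Complex.star_def, Complex.conj_im, Complex.conj_re] at a b c d
  exact ⟨by linarith, by linarith, by linarith, by linarith⟩

private theorem e00 (z : ℂ) (t : ℝ) (ht : 0 < t) :
    (pt z t ht).1 0 0 = (((z.re ^ 2 + z.im ^ 2 + t ^ 2) / t : ℝ) : ℂ) := rfl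

private theorem e01 (z : ℂ) (t : ℝ) (ht : 0 < t) : (pt z t ht).1 0 1 = z / (t : ℂ) := rfl

private theorem e10 (z : ℂ) (t : ℝ) (ht : 0 < t) :
    (pt z t ht).1 1 0 = (starRingEnd ℂ) z / (t : ℂ) := rfl

private theorem e11 (z : ℂ) (t : ℝ) (ht : 0 < t) : (pt z t ht).1 1 1 = ((1 / t : ℝ) : ℂ) := rfl

private theorem ext2 {A B : Matrix (Fin 2) (Fin 2) ℂ} (h00 : A 0 0 = B 0 0) (h01 : A 0 1 = B 0 1)
    (h10 : A 1 0 = B 1 0) (h11 : A 1 1 = B 1 1) : A = B := by
  ext i j
  fin_cases i <;> fin_cases j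
  · exact h00
  · exact h01
  · exact h10
  · exact h11

theorem lin_pt {N : Matrix (Fin 2) (Fin 2) ℂ} (hN : N.IsHermitian) (z : ℂ) (t : ℝ) (ht : 0 < t) :
    lin N (pt z t ht).1 * t = (N 0 0).re * (z.re ^ 2 + z.im ^ 2 + t ^ 2) + 2 * (z * N 1 0).re + (N 1 1).re := by
  obtain ⟨h00, h11, h01, h01'⟩ := herm hN
  simp only [lin, Matrix.trace_fin_two, Matrix.mul_apply, Fin.sum_univ_two, e00, e01, e10, e11]
  simp only [Complex.add_re, Complex.mul_re, Complex.ofReal_re, Complex.ofReal_im, Complex.div_ofReal_re,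
    Complex.div_ofReal_im, Complex.conj_re, Complex.conj_im, h00, h11, h01, h01']
  field_simp
  ring

theorem pt_11 (z : ℂ) (t : ℝ) (ht : 0 < t) : ((pt z t ht).1 1 1).re = 1 / t := by
  rw [e11, Complex.ofReal_re]

theorem pt_surj (x : H3) : ∃ (z : ℂ) (t : ℝ) (ht : 0 < t), x = pt z t ht := by
  obtain ⟨P, hP, h0, hd⟩ := x
  obtain ⟨h00, h11, h01, h01'⟩ := herm hP
  have hdr := congrArg Complex.re hd
  rw [Matrix.det_fin_two] at hdr
  simp only [Complex.sub_re, Complex.mul_re, Complex.one_re, h00, h11, h01, h01'] at hdr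
  have hpos : 0 < (P 0 0).re * (P 1 1).re := by
    nlinarith [sq_nonneg (P 1 0).re, sq_nonneg (P 1 0).im]
  have h11p : 0 < (P 1 1).re := (pos_iff_pos_of_mul_pos hpos).mp h0
  have hne : (P 1 1).re ≠ 0 := h11p.ne'
  refine ⟨P 0 1 / ((P 1 1).re : ℂ), 1 / (P 1 1).re, by positivity, ?_⟩
  apply Subtype.ext
  apply ext2
  · rw [e00]
    apply Complex.ext
    · rw [Complex.ofReal_re, Complex.div_ofReal_re, Complex.div_ofReal_im, h01, h01']
      field_simp
      linear_combination hdr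
    · rw [Complex.ofReal_im]
      exact h00
  · rw [e01]
    apply Complex.ext
    · rw [Complex.div_ofReal_re, Complex.div_ofReal_re]
      field_simp
    · rw [Complex.div_ofReal_im, Complex.div_ofReal_im]
      field_simp
  · rw [e10]
    apply Complex.ext
    · rw [Complex.div_ofReal_re, Complex.conj_re, Complex.div_ofReal_re, h01]
      field_simp
    · rw [Complex.div_ofReal_im, Complex.conj_im, Complex.div_ofReal_im, h01']
      field_simp
  · rw [e11]
    apply Complex.ext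
    · rw [Complex.ofReal_re]
      field_simp
    · rw [Complex.ofReal_im]
      exact h11

theorem tr_act (w z : ℂ) (t : ℝ) (ht : 0 < t) : act (tr w) (pt z t ht) = pt (z + w) t ht := by
  apply Subtype.ext
  have hne : t ≠ 0 := ht.ne'
  have htr : (tr w).1 = !![1, w; 0, 1] := rfl
  show (tr w).1 * (pt z t ht).1 * (tr w).1ᴴ = (pt (z + w) t ht).1
  rw [htr]
  apply ext2 <;>
    simp only [Matrix.mul_apply, Fin.sum_univ_two, Matrix.conjTranspose_apply, Matrix.of_apply,
      Matrix.cons_val_zero, Matrix.cons_val_one, Matrix.cons_val', Matrix.cons_val_fin_one, Complex.star_def,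
      e00, e01, e10, e11, one_mul, zero_mul, mul_one, mul_zero, zero_add, map_one, map_zero] <;>
    apply Complex.ext <;>
    simp only [Complex.add_re, Complex.add_im, Complex.mul_re, Complex.mul_im, Complex.ofReal_re,
      Complex.ofReal_im, Complex.div_ofReal_re, Complex.div_ofReal_im, Complex.conj_re, Complex.conj_im] <;>
    field_simp <;> ring

theorem rho_act {g : SLC} {a : ℂ} (h : g.1 = !![1, a; 0, 1] ∨ g.1 = -!![1, a; 0, 1]) (x : H3) :
    act g x = act (tr a) x := by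
  apply Subtype.ext
  have htr : (tr a).1 = !![1, a; 0, 1] := rfl
  show g.1 * x.1 * g.1ᴴ = (tr a).1 * x.1 * (tr a).1ᴴ
  rw [htr]
  rcases h with h | h
  · rw [h]
  · rw [h, Matrix.conjTranspose_neg, Matrix.neg_mul, Matrix.neg_mul, Matrix.mul_neg, neg_neg]

theorem tr_inv (w : ℂ) : (tr w)⁻¹ = tr (-w) := by
  apply Subtype.ext
  have h1 : ((tr w)⁻¹).1 = Matrix.adjugate (tr w).1 := Matrix.SpecialLinearGroup.coe_inv (tr w)
  rw [h1, Matrix.adjugate_fin_two]
  have htr : (tr w).1 = !![1, w; 0, 1] := rfl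
  have htr' : (tr (-w)).1 = !![1, -w; 0, 1] := rfl
  rw [htr, htr']
  simp

/-- a translation of a vertical plane -/
theorem tr_N {N : Matrix (Fin 2) (Fin 2) ℂ} (hN : N.IsHermitian) (h0 : N 0 0 = 0) (w : ℂ) :
    (tr w).1ᴴ * N * (tr w).1 = !![0, N 0 1; N 1 0, ((2 * (w * N 1 0).re + (N 1 1).re : ℝ) : ℂ)] := by
  obtain ⟨h00, h11, h01, h01'⟩ := herm hN
  have htr : (tr w).1 = !![1, w; 0, 1] := rfl
  rw [htr]
  ext i j
  fin_cases i <;> fin_cases j <;>
    simp only [Fin.zero_eta, Fin.mk_one, Matrix.mul_apply, Fin.sum_univ_two, Matrix.conjTranspose_apply,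
      Matrix.of_apply, Matrix.cons_val_zero, Matrix.cons_val_one, Matrix.cons_val', Complex.star_def, h0] <;>
    apply Complex.ext <;>
    simp [h11, h01, h01'] <;> ring

theorem tr_pres {N : Matrix (Fin 2) (Fin 2) ℂ} (hN : N.IsHermitian) (h0 : N 0 0 = 0) {w : ℂ}
    (hw : (w * N 1 0).re = 0) : (tr w).1ᴴ * N * (tr w).1 = N := by
  obtain ⟨h00, h11, h01, h01'⟩ := herm hN
  rw [tr_N hN h0, hw]
  ext i j
  fin_cases i <;> fin_cases j
  · simp [h0]
  · simp
  · simp
  · apply Complex.ext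
    · simp
    · simp [h11]

theorem act_tr_plane {N : Matrix (Fin 2) (Fin 2) ℂ} (hN : N.IsHermitian) (h0 : N 0 0 = 0) (w : ℂ) :
    act (tr w) '' plane N = plane !![0, N 0 1; N 1 0, (((N 1 1).re - 2 * (w * N 1 0).re : ℝ) : ℂ)] := by
  rw [act_image_plane, tr_inv, tr_N hN h0]
  have h1 : 2 * (-w * N 1 0).re + (N 1 1).re = (N 1 1).re - 2 * (w * N 1 0).re := by
    rw [neg_mul, Complex.neg_re]
    ring
  rw [h1]

private theorem nrm_herm {N : Matrix (Fin 2) (Fin 2) ℂ} (hN : N.IsHermitian) (c : ℝ) :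
    (!![0, N 0 1; N 1 0, (c : ℂ)] : Matrix (Fin 2) (Fin 2) ℂ).IsHermitian := by
  obtain ⟨h00, h11, h01, h01'⟩ := herm hN
  ext i j
  fin_cases i <;> fin_cases j <;>
    apply Complex.ext <;>
    simp [Matrix.conjTranspose_apply, h01, h01']

private theorem lin_nrm {N : Matrix (Fin 2) (Fin 2) ℂ} (hN : N.IsHermitian) (c : ℝ) (z : ℂ) (t : ℝ)
    (ht : 0 < t) :
    lin (!![0, N 0 1; N 1 0, (c : ℂ)] : Matrix (Fin 2) (Fin 2) ℂ) (pt z t ht).1 * t =
      2 * (z * N 1 0).re + c := by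
  rw [lin_pt (nrm_herm hN c)]
  simp

/-- membership of a point in a translate of a vertical plane -/
theorem mem_tr_plane {N : Matrix (Fin 2) (Fin 2) ℂ} (hN : N.IsHermitian) (h0 : N 0 0 = 0) (w z : ℂ)
    (t : ℝ) (ht : 0 < t) :
    pt z t ht ∈ act (tr w) '' plane N ↔ 2 * (z * N 1 0).re + (N 1 1).re = 2 * (w * N 1 0).re := by
  rw [act_tr_plane hN h0]
  have h1 := lin_nrm hN ((N 1 1).re - 2 * (w * N 1 0).re) z t ht
  constructor
  · intro h
    have h2 : lin !![0, N 0 1; N 1 0, (((N 1 1).re - 2 * (w * N 1 0).re : ℝ) : ℂ)] (pt z t ht).1 = 0 := h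
    rw [h2, zero_mul] at h1
    linarith
  · intro h
    show lin !![0, N 0 1; N 1 0, (((N 1 1).re - 2 * (w * N 1 0).re : ℝ) : ℂ)] (pt z t ht).1 = 0
    have h3 : lin !![0, N 0 1; N 1 0, (((N 1 1).re - 2 * (w * N 1 0).re : ℝ) : ℂ)] (pt z t ht).1 * t = 0 := by
      rw [h1]
      linarith
    rcases mul_eq_zero.1 h3 with h4 | h4
    · exact h4
    · exact absurd h4 ht.ne'

private theorem nrm_normal {N : Matrix (Fin 2) (Fin 2) ℂ} (hN : IsNormal N) (h0 : N 0 0 = 0) (c : ℝ) :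
    IsNormal (!![0, N 0 1; N 1 0, (c : ℂ)] : Matrix (Fin 2) (Fin 2) ℂ) := by
  refine ⟨nrm_herm hN.1 c, ?_⟩
  have h := hN.2
  rw [Matrix.det_fin_two, h0] at h
  rw [Matrix.det_fin_two]
  simpa using h

/-- separation of two points by a translate of a vertical plane -/
theorem sep_tr_plane {N : Matrix (Fin 2) (Fin 2) ℂ} (hN : IsNormal N) (h0 : N 0 0 = 0) (w z z' : ℂ)
    (t t' : ℝ) (ht : 0 < t) (ht' : 0 < t') :
    Sep (act (tr w) '' plane N) (pt z t ht) (pt z' t' ht') ↔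
      (2 * (z * N 1 0).re + (N 1 1).re - 2 * (w * N 1 0).re) *
        (2 * (z' * N 1 0).re + (N 1 1).re - 2 * (w * N 1 0).re) < 0 := by
  rw [act_tr_plane hN.1 h0, sep_iff (nrm_normal hN h0 _)]
  have h1 := lin_nrm hN.1 ((N 1 1).re - 2 * (w * N 1 0).re) z t ht
  have h2 := lin_nrm hN.1 ((N 1 1).re - 2 * (w * N 1 0).re) z' t' ht'
  set L := lin !![0, N 0 1; N 1 0, (((N 1 1).re - 2 * (w * N 1 0).re : ℝ) : ℂ)] (pt z t ht).1 with hL
  set L' := lin !![0, N 0 1; N 1 0, (((N 1 1).re - 2 * (w * N 1 0).re : ℝ) : ℂ)] (pt z' t' ht').1 with hL'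
  have h3 : (2 * (z * N 1 0).re + (N 1 1).re - 2 * (w * N 1 0).re) *
      (2 * (z' * N 1 0).re + (N 1 1).re - 2 * (w * N 1 0).re) = L * L' * (t * t') := by
    have e1 : 2 * (z * N 1 0).re + (N 1 1).re - 2 * (w * N 1 0).re = L * t := by
      rw [h1]
      ring
    have e2 : 2 * (z' * N 1 0).re + (N 1 1).re - 2 * (w * N 1 0).re = L' * t' := by
      rw [h2]
      ring
    rw [e1, e2]
    ring
  rw [h3]
  have htt : 0 < t * t' := mul_pos ht ht'
  constructor
  · intro h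
    exact mul_neg_of_neg_of_pos h htt
  · intro h
    by_contra hc
    exact absurd h (not_lt.2 (mul_nonneg (not_lt.1 hc) htt.le))

end RPL
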