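import Pool.Agent.RPL.Crit
import Pool.Agent.RPL.PlEq
import Pool.Agent.RPL.Pts

/-! # RPL-CuspI: the parabolic element and its flipped conjugate form an irreducible pair -/

set_option linter.style.longLine false

open scoped Matrix ContDiff
open Complex

namespace RPL

open SXP

variable {G : Type} [Group G] {ρ : G →* SLC} {μ lam : G} {m l : ℂ}

private theorem ci_comm {A : SLC} {a w : ℂ} (hA : A.1 = !![1, a; 0, 1] ∨ A.1 = -!![1, a; 0, 1]) :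
    tr w * A = A * tr w := by
  apply Subtype.ext
  rw [Matrix.SpecialLinearGroup.coe_mul, Matrix.SpecialLinearGroup.coe_mul]
  show (tr w).1 * A.1 = A.1 * (tr w).1
  have h1 : (tr w).1 = !![1, w; 0, 1] := rfl
  rcases hA with h | h
  · rw [h, h1, Matrix.mul_fin_two, Matrix.mul_fin_two]
    simp [add_comm]
  · rw [h, h1, mul_neg, neg_mul, Matrix.mul_fin_two, Matrix.mul_fin_two]
    simp [add_comm]

theorem flip_conj {α g : G} {a w : ℂ} (hα : (ρ α).1 = !![1, a; 0, 1] ∨ (ρ α).1 = -!![1, a; 0, 1]) :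
    ρ (g * α * g⁻¹) = (ρ g * tr w) * ρ α * (ρ g * tr w)⁻¹ := by
  rw [map_mul, map_mul, map_inv, mul_inv_rev, mul_assoc (ρ g) (tr w) (ρ α), ci_comm hα]
  group

theorem par_mem {N : Matrix (Fin 2) (Fin 2) ℂ} (hN : IsNormal N) (h0 : N 0 0 = 0) {α : G} {a : ℂ}
    (hα : (ρ α).1 = !![1, a; 0, 1] ∨ (ρ α).1 = -!![1, a; 0, 1]) (ha : (a * N 1 0).re = 0) :
    α ∈ DN ρ N := by
  have h1 := tr_pres hN.1 h0 ha
  have h2 : (tr a).1 = !![1, a; 0, 1] := rfl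
  rw [h2] at h1
  show (ρ α).1ᴴ * N * (ρ α).1 = N
  rcases hα with h | h
  · rw [h]
    exact h1
  · rw [h, Matrix.conjTranspose_neg, neg_mul, neg_mul, mul_neg, neg_neg]
    exact h1

private theorem ci_inv (X : SLC) : X.1 * (X⁻¹).1 = 1 := by
  rw [← Matrix.SpecialLinearGroup.coe_mul, mul_inv_cancel, Matrix.SpecialLinearGroup.coe_one]

theorem par_conj_mem {N : Matrix (Fin 2) (Fin 2) ℂ} (hN : IsNormal N) (h0 : N 0 0 = 0) {α g : G} {a w : ℂ}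
    (hα : (ρ α).1 = !![1, a; 0, 1] ∨ (ρ α).1 = -!![1, a; 0, 1]) (ha : (a * N 1 0).re = 0)
    (hX : (ρ g * tr w).1ᴴ * N * (ρ g * tr w).1 = -N) : g * α * g⁻¹ ∈ DN ρ N := by
  have h1 : (ρ α).1ᴴ * N * (ρ α).1 = N := par_mem hN h0 hα ha
  have h2 := flip_conj (ρ := ρ) (g := g) (w := w) hα
  obtain ⟨X, hXd⟩ : ∃ X : SLC, X = ρ g * tr w := ⟨_, rfl⟩
  rw [← hXd] at h2 hX
  show (ρ (g * α * g⁻¹)).1ᴴ * N * (ρ (g * α * g⁻¹)).1 = N
  have h3 : (ρ (g * α * g⁻¹)).1 = X.1 * (ρ α).1 * (X⁻¹).1 := by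
    rw [h2, Matrix.SpecialLinearGroup.coe_mul, Matrix.SpecialLinearGroup.coe_mul]
  have h4 : (X⁻¹).1ᴴ * X.1ᴴ = 1 := by
    rw [← Matrix.conjTranspose_mul, ci_inv, Matrix.conjTranspose_one]
  rw [h3, Matrix.conjTranspose_mul, Matrix.conjTranspose_mul]
  calc (X⁻¹).1ᴴ * ((ρ α).1ᴴ * X.1ᴴ) * N * (X.1 * (ρ α).1 * (X⁻¹).1) =
      (X⁻¹).1ᴴ * ((ρ α).1ᴴ * (X.1ᴴ * N * X.1) * (ρ α).1) * (X⁻¹).1 := by
        simp only [Matrix.mul_assoc]
    _ = (X⁻¹).1ᴴ * (-((ρ α).1ᴴ * N * (ρ α).1)) * (X⁻¹).1 := by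
        rw [hX, mul_neg, neg_mul]
    _ = (X⁻¹).1ᴴ * (X.1ᴴ * N * X.1) * (X⁻¹).1 := by
        rw [h1, hX]
    _ = ((X⁻¹).1ᴴ * X.1ᴴ) * N * (X.1 * (X⁻¹).1) := by
        simp only [Matrix.mul_assoc]
    _ = N := by
        rw [h4, ci_inv, one_mul, mul_one]

private theorem ci_clos (hc : TorusCusp ρ μ lam m l) {g : G} (hg : g ∈ Subgroup.closure {μ, lam}) :
    ∃ b : ℂ, (ρ g).1 = !![1, b; 0, 1] ∨ (ρ g).1 = -!![1, b; 0, 1] := by
  induction hg using Subgroup.closure_induction with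
  | mem x hx =>
    rcases hx with rfl | hx
    · exact ⟨m, hc.hμ⟩
    · rw [Set.mem_singleton_iff] at hx
      rw [hx]
      exact ⟨l, hc.hlam⟩
  | one =>
    refine ⟨0, Or.inl ?_⟩
    rw [map_one, Matrix.SpecialLinearGroup.coe_one, Matrix.one_fin_two]
  | mul x y _ _ hx hy =>
    obtain ⟨b, hb⟩ := hx
    obtain ⟨c, hc'⟩ := hy
    have h1 : !![1, b; 0, 1] * !![1, c; 0, 1] = !![1, c + b; 0, 1] := by
      rw [Matrix.mul_fin_two]
      simp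
    refine ⟨c + b, ?_⟩
    rw [map_mul, Matrix.SpecialLinearGroup.coe_mul]
    rcases hb with hb | hb <;> rcases hc' with hc' | hc'
    · left
      rw [hb, hc', h1]
    · right
      rw [hb, hc', mul_neg, h1]
    · right
      rw [hb, hc', neg_mul, h1]
    · left
      rw [hb, hc', neg_mul, mul_neg, neg_neg, h1]
  | inv x _ hx =>
    obtain ⟨b, hb⟩ := hx
    refine ⟨-b, ?_⟩
    rw [map_inv, Matrix.SpecialLinearGroup.coe_inv, Matrix.adjugate_fin_two]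
    rcases hb with hb | hb
    · left
      rw [hb]
      simp
    · right
      rw [hb]
      simp

private theorem ci_ne (hc : TorusCusp ρ μ lam m l) {N : Matrix (Fin 2) (Fin 2) ℂ} (hN : IsNormal N)
    (h0 : N 0 0 = 0) {g : G} {w : ℂ} (hX : (ρ g * tr w).1ᴴ * N * (ρ g * tr w).1 = -N) :
    (ρ g).1 1 0 ≠ 0 := by
  intro h
  obtain ⟨b, hb⟩ := ci_clos hc (hc.stab g h)
  have h2 : (tr w).1 = !![1, w; 0, 1] := rfl
  have h1 : !![1, b; 0, 1] * (tr w).1 = !![1, w + b; 0, 1] := by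
    rw [h2, Matrix.mul_fin_two]
    simp
  have h3 : (!![1, w + b; 0, 1] : Matrix (Fin 2) (Fin 2) ℂ)ᴴ * N * !![1, w + b; 0, 1] = -N := by
    rw [Matrix.SpecialLinearGroup.coe_mul] at hX
    rcases hb with hb | hb
    · rw [hb, h1] at hX
      exact hX
    · rw [hb, neg_mul, h1, Matrix.conjTranspose_neg, neg_mul, neg_mul, mul_neg, neg_neg] at hX
      exact hX
  have h4 := congrFun (congrFun h3 1) 0
  have h5 : N 1 0 = -N 1 0 := by
    simpa [Matrix.mul_apply, Fin.sum_univ_two, Matrix.conjTranspose_apply, h0] using h4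
  have h6 : N 1 0 = 0 := by
    have h7 : (2 : ℂ) * N 1 0 = 0 := by linear_combination h5
    rcases mul_eq_zero.1 h7 with h8 | h8
    · norm_num at h8
    · exact h8
  have h9 := hN.2
  rw [Matrix.det_fin_two, h0, h6, zero_mul, mul_zero, sub_zero] at h9
  simp at h9

theorem cusp_irr (hc : TorusCusp ρ μ lam m l) {N : Matrix (Fin 2) (Fin 2) ℂ} (hN : IsNormal N)
    (h0 : N 0 0 = 0) {α g : G} {a w : ℂ} (ha0 : a ≠ 0)
    (hα : (ρ α).1 = !![1, a; 0, 1] ∨ (ρ α).1 = -!![1, a; 0, 1])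
    (hX : (ρ g * tr w).1ᴴ * N * (ρ g * tr w).1 = -N) :
    LinearIndependent ℂ ![(1 : Matrix (Fin 2) (Fin 2) ℂ), (ρ α).1, (ρ (g * α * g⁻¹)).1,
      (ρ α).1 * (ρ (g * α * g⁻¹)).1] := by
  have hr := ci_ne hc hN h0 hX
  rw [indep_iff]
  have hB : (ρ (g * α * g⁻¹)).1 = (ρ g).1 * (ρ α).1 * !![(ρ g).1 1 1, -(ρ g).1 0 1; -(ρ g).1 1 0, (ρ g).1 0 0] := by
    rw [map_mul, map_mul, map_inv, Matrix.SpecialLinearGroup.coe_mul, Matrix.SpecialLinearGroup.coe_mul,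
      Matrix.SpecialLinearGroup.coe_inv, Matrix.adjugate_fin_two]
  rw [hB]
  obtain ⟨Q, hQ⟩ : ∃ Q, Q = (ρ g).1 := ⟨_, rfl⟩
  rw [← hQ] at hr ⊢
  obtain ⟨p, hp⟩ : ∃ p, p = Q 0 0 := ⟨_, rfl⟩
  obtain ⟨q, hq⟩ : ∃ q, q = Q 0 1 := ⟨_, rfl⟩
  obtain ⟨r, hr'⟩ : ∃ r, r = Q 1 0 := ⟨_, rfl⟩
  obtain ⟨s, hs⟩ : ∃ s, s = Q 1 1 := ⟨_, rfl⟩
  have hQ2 : Q = !![p, q; r, s] := by
    rw [hp, hq, hr', hs]
    exact Matrix.eta_fin_two Q
  rw [← hp, ← hq, ← hr', ← hs]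
  rw [← hr'] at hr
  rw [hQ2]
  have key : (!![1, a; 0, 1] * (!![p, q; r, s] * !![1, a; 0, 1] * !![s, -q; -r, p]) -
      !![p, q; r, s] * !![1, a; 0, 1] * !![s, -q; -r, p] * !![1, a; 0, 1]).det = -(a ^ 4 * r ^ 4) := by
    simp only [Matrix.mul_fin_two, Matrix.det_fin_two, Matrix.sub_apply, Matrix.of_apply, Matrix.cons_val',
      Matrix.cons_val_zero, Matrix.cons_val_one, Matrix.cons_val_fin_one]
    ring
  have hne : -(a ^ 4 * r ^ 4) ≠ 0 := neg_ne_zero.2 (mul_ne_zero (pow_ne_zero 4 ha0) (pow_ne_zero 4 hr))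
  rcases hα with h | h
  · rw [h, key]
    exact hne
  · rw [h]
    simp only [mul_neg, neg_mul, neg_neg]
    rw [key]
    exact hne

end RPL
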