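import Pool.Agent.RPL.Vert
import Pool.Agent.SXP.HInf

/-! # RPL-Par: a parabolic element of the cusp group that preserves a vertical plane -/

set_option linter.style.longLine false

open scoped Matrix ContDiff
open Complex

namespace RPL

open SXP

variable {G : Type} [Group G] {ρ : G →* SLC} {μ lam : G} {m l : ℂ} {P : Set (Set H3)}

private theorem pr_mul {A B : SLC} {a b : ℂ}
    (hA : A.1 = !![1, a; 0, 1] ∨ A.1 = -!![1, a; 0, 1])
    (hB : B.1 = !![1, b; 0, 1] ∨ B.1 = -!![1, b; 0, 1]) :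
    (A * B).1 = !![1, a + b; 0, 1] ∨ (A * B).1 = -!![1, a + b; 0, 1] := by
  have key : (!![1, a; 0, 1] : Matrix (Fin 2) (Fin 2) ℂ) * !![1, b; 0, 1] = !![1, a + b; 0, 1] := by
    rw [Matrix.mul_fin_two]
    simp [add_comm]
  have hAB : (A * B).1 = A.1 * B.1 := Matrix.SpecialLinearGroup.coe_mul A B
  rcases hA with hA | hA <;> rcases hB with hB | hB
  · left
    rw [hAB, hA, hB, key]
  · right
    rw [hAB, hA, hB, Matrix.mul_neg, key]
  · right
    rw [hAB, hA, hB, Matrix.neg_mul, key]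
  · left
    rw [hAB, hA, hB, Matrix.neg_mul, Matrix.mul_neg, neg_neg, key]

private theorem pr_inv {A : SLC} {a : ℂ}
    (hA : A.1 = !![1, a; 0, 1] ∨ A.1 = -!![1, a; 0, 1]) :
    (A⁻¹).1 = !![1, -a; 0, 1] ∨ (A⁻¹).1 = -!![1, -a; 0, 1] := by
  have hinv : (A⁻¹).1 = Matrix.adjugate A.1 := Matrix.SpecialLinearGroup.coe_inv A
  rcases hA with hA | hA
  · left
    rw [hinv, hA, Matrix.adjugate_fin_two]
    simp
  · right
    rw [hinv, hA, Matrix.adjugate_fin_two]
    ext i j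
    fin_cases i <;> fin_cases j <;> simp

private theorem pr_ne {N : Matrix (Fin 2) (Fin 2) ℂ} (hN : IsNormal N) (h0 : N 0 0 = 0) : N 1 0 ≠ 0 := by
  intro h
  have h1 := hN.2
  rw [Matrix.det_fin_two, h0, h] at h1
  simp at h1

private theorem pr_alg (x d r : ℝ) (hd : d ≠ 0) : x + -r * d = d * (x / d - r) := by
  rw [mul_sub, mul_div_cancel₀ _ hd]
  ring

/-- equal translates of a vertical plane have equal displacements -/
private theorem pr_disp {N : Matrix (Fin 2) (Fin 2) ℂ} (hN : IsNormal N) (h0 : N 0 0 = 0) {w w' : ℂ}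
    (h : act (tr w) '' plane N = act (tr w') '' plane N) : (w * N 1 0).re = (w' * N 1 0).re := by
  have hn := pr_ne hN h0
  have h1 : ((w - (((N 1 1).re / 2 : ℝ) : ℂ) / N 1 0) * N 1 0).re = (w * N 1 0).re - (N 1 1).re / 2 := by
    rw [sub_mul, div_mul_cancel₀ _ hn, Complex.sub_re, Complex.ofReal_re]
  have h2 := (mem_tr_plane hN.1 h0 w (w - (((N 1 1).re / 2 : ℝ) : ℂ) / N 1 0) 1 one_pos).2 (by
    rw [h1]
    ring)
  rw [h] at h2
  have h3 := (mem_tr_plane hN.1 h0 w' _ 1 one_pos).1 h2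
  rw [h1] at h3
  linarith

theorem exists_par (hc : TorusCusp ρ μ lam m l) (hP : TGSurface ρ P) {N : Matrix (Fin 2) (Fin 2) ℂ}
    (hN : IsNormal N) (h0 : N 0 0 = 0) (hS : plane N ∈ P) :
    ∃ (α : G) (a : ℂ), a ≠ 0 ∧ ((ρ α).1 = !![1, a; 0, 1] ∨ (ρ α).1 = -!![1, a; 0, 1]) ∧
      (a * N 1 0).re = 0 := by
  by_cases hd : (l * N 1 0).re = 0
  · refine ⟨lam, l, ?_, hc.hlam, hd⟩
    have := hc.ind.ne_zero 1
    simpa using this
  · have hform : ∀ (j k : ℤ), (ρ (μ ^ j * lam ^ k)).1 = !![1, (j : ℂ) * m + (k : ℂ) * l; 0, 1] ∨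
        (ρ (μ ^ j * lam ^ k)).1 = -!![1, (j : ℂ) * m + (k : ℂ) * l; 0, 1] := by
      intro j k
      rw [map_mul]
      exact pr_mul (rho_zpow hc.hμ j) (rho_zpow hc.hlam k)
    let k : ℕ → ℤ := fun j => -round ((j : ℝ) * (m * N 1 0).re / (l * N 1 0).re)
    let w : ℕ → ℂ := fun j => ((j : ℤ) : ℂ) * m + ((k j : ℤ) : ℂ) * l
    have hw : ∀ j, (w j * N 1 0).re = (j : ℝ) * (m * N 1 0).re + (k j : ℝ) * (l * N 1 0).re := by
      intro j
      have h1 : w j * N 1 0 = (((j : ℝ)) : ℂ) * (m * N 1 0) + (((k j : ℝ)) : ℂ) * (l * N 1 0) := by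
        show (((j : ℤ) : ℂ) * m + ((k j : ℤ) : ℂ) * l) * N 1 0 = _
        push_cast
        ring
      rw [h1, Complex.add_re, Complex.re_ofReal_mul, Complex.re_ofReal_mul]
    have hb : ∀ j, |(w j * N 1 0).re| ≤ |(l * N 1 0).re| := by
      intro j
      have h1 : (w j * N 1 0).re = (l * N 1 0).re *
          ((j : ℝ) * (m * N 1 0).re / (l * N 1 0).re -
            round ((j : ℝ) * (m * N 1 0).re / (l * N 1 0).re)) := by
        rw [hw]
        show (j : ℝ) * (m * N 1 0).re +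
          ((-round ((j : ℝ) * (m * N 1 0).re / (l * N 1 0).re) : ℤ) : ℝ) * (l * N 1 0).re = _
        rw [Int.cast_neg]
        exact pr_alg _ _ _ hd
      rw [h1, abs_mul]
      have h2 := abs_sub_round ((j : ℝ) * (m * N 1 0).re / (l * N 1 0).re)
      exact mul_le_of_le_one_right (abs_nonneg _) (by linarith)
    have hmem : ∀ j : ℕ, act (tr (w j)) '' plane N ∈
        {S' | S' ∈ P ∧ ∃ w : ℂ, |(w * N 1 0).re| ≤ |(l * N 1 0).re| ∧ S' = act (tr w) '' plane N} := by
      intro j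
      refine ⟨?_, w j, hb j, rfl⟩
      have h1 := hP.inv (μ ^ (j : ℤ) * lam ^ (k j)) _ hS
      have h2 : act (ρ (μ ^ (j : ℤ) * lam ^ (k j))) '' plane N = act (tr (w j)) '' plane N :=
        Set.image_congr fun x _ => rho_act (hform j (k j)) x
      rw [h2] at h1
      exact h1
    obtain ⟨a, b, hab, he⟩ := (vert_fin hP hN h0 |(l * N 1 0).re|).exists_lt_map_eq_of_forall_mem hmem
    have hdisp := pr_disp hN h0 he
    refine ⟨(μ ^ (b : ℤ) * lam ^ (k b)) * (μ ^ (a : ℤ) * lam ^ (k a))⁻¹, w b + -w a, ?_, ?_, ?_⟩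
    · intro hz
      have h1 : ((b : ℝ) - a) • m + ((k b : ℝ) - k a) • l = 0 := by
        rw [← hz]
        show _ = (((b : ℤ) : ℂ) * m + ((k b : ℤ) : ℂ) * l) + -(((a : ℤ) : ℂ) * m + ((k a : ℤ) : ℂ) * l)
        rw [Complex.real_smul, Complex.real_smul]
        push_cast
        ring
      have h2 := (LinearIndependent.pair_iff.1 hc.ind _ _ h1).1
      have h3 : (a : ℝ) < b := by exact_mod_cast hab
      linarith
    · rw [map_mul, map_inv]
      exact pr_mul (hform b (k b)) (pr_inv (hform a (k a)))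
    · rw [add_mul, neg_mul, Complex.add_re, Complex.neg_re, hdisp]
      ring

end RPL
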