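import Pool.Agent.RPL.Defs

/-! # RPL-RealX: real matrices preserve the standard plane and its sides; matrices that exchange the sides are purely imaginary -/

set_option linter.style.longLine false

open scoped Matrix ContDiff
open Complex

namespace RPL

open SXP

theorem cx_apply (A : SLR) (i j : Fin 2) : (cx A).1 i j = (A.1 i j : ℂ) := by
  rfl

theorem cx_inj : Function.Injective cx := by
  intro A B h
  apply Subtype.ext
  ext i j
  have h1 := congrArg (fun X : SLC => X.1 i j) h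
  have h2 : ((A.1 i j : ℝ) : ℂ) = ((B.1 i j : ℝ) : ℂ) := h1
  exact_mod_cast h2

private theorem rx_key {X : SLC} {ε : ℂ} (h : X.1ᴴ * N0 * X.1 = ε • N0) :
    ∀ i j, (starRingEnd ℂ) (X.1 i j) = ε * X.1 i j := by
  have hd : X.1 0 0 * X.1 1 1 - X.1 0 1 * X.1 1 0 = 1 := by
    rw [← Matrix.det_fin_two]
    exact X.2
  have e00 := congrFun (congrFun h 0) 0
  have e01 := congrFun (congrFun h 0) 1
  have e10 := congrFun (congrFun h 1) 0
  have e11 := congrFun (congrFun h 1) 1
  simp [Matrix.mul_apply, Fin.sum_univ_two, N0, Matrix.conjTranspose_apply] at e00 e01 e10 e11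
  have k1 : (starRingEnd ℂ) (X.1 0 0) * X.1 1 0 - (starRingEnd ℂ) (X.1 1 0) * X.1 0 0 = 0 :=
    mul_left_cancel₀ I_ne_zero (by linear_combination e00)
  have k2 : (starRingEnd ℂ) (X.1 0 0) * X.1 1 1 - (starRingEnd ℂ) (X.1 1 0) * X.1 0 1 = ε :=
    mul_left_cancel₀ I_ne_zero (by linear_combination e01)
  have k3 : (starRingEnd ℂ) (X.1 0 1) * X.1 1 0 - (starRingEnd ℂ) (X.1 1 1) * X.1 0 0 = -ε :=
    mul_left_cancel₀ I_ne_zero (by linear_combination e10)
  have k4 : (starRingEnd ℂ) (X.1 0 1) * X.1 1 1 - (starRingEnd ℂ) (X.1 1 1) * X.1 0 1 = 0 :=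
    mul_left_cancel₀ I_ne_zero (by linear_combination e11)
  have r00 : (starRingEnd ℂ) (X.1 0 0) = ε * X.1 0 0 := by
    linear_combination X.1 0 0 * k2 - X.1 0 1 * k1 - (starRingEnd ℂ) (X.1 0 0) * hd
  have r10 : (starRingEnd ℂ) (X.1 1 0) = ε * X.1 1 0 := by
    linear_combination X.1 1 0 * k2 - X.1 1 1 * k1 - (starRingEnd ℂ) (X.1 1 0) * hd
  have r01 : (starRingEnd ℂ) (X.1 0 1) = ε * X.1 0 1 := by
    linear_combination X.1 0 0 * k4 - X.1 0 1 * k3 - (starRingEnd ℂ) (X.1 0 1) * hd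
  have r11 : (starRingEnd ℂ) (X.1 1 1) = ε * X.1 1 1 := by
    linear_combination X.1 1 0 * k4 - X.1 1 1 * k3 - (starRingEnd ℂ) (X.1 1 1) * hd
  intro i j
  fin_cases i <;> fin_cases j
  · exact r00
  · exact r01
  · exact r10
  · exact r11

theorem real_of_pres {X : SLC} (h : X.1ᴴ * N0 * X.1 = N0) : ∃ A : SLR, cx A = X := by
  have h1 := rx_key (ε := 1) (by rw [one_smul]; exact h)
  have h2 : ∀ i j, ((X.1 i j).re : ℂ) = X.1 i j := by
    intro i j
    have h3 := h1 i j
    rw [one_mul] at h3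
    exact Complex.conj_eq_iff_re.1 h3
  have hd : X.1 0 0 * X.1 1 1 - X.1 0 1 * X.1 1 0 = 1 := by
    rw [← Matrix.det_fin_two]
    exact X.2
  refine ⟨⟨Matrix.of fun i j => (X.1 i j).re, ?_⟩, ?_⟩
  · rw [Matrix.det_fin_two]
    have h3 : (((X.1 0 0).re * (X.1 1 1).re - (X.1 0 1).re * (X.1 1 0).re : ℝ) : ℂ) = 1 := by
      push_cast
      rw [h2, h2, h2, h2]
      exact hd
    exact_mod_cast h3
  · apply Subtype.ext
    ext i j
    exact h2 i j

theorem imag_of_flip {X : SLC} (h : X.1ᴴ * N0 * X.1 = -N0) : ∀ i j, (X.1 i j).re = 0 := by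
  have h1 := rx_key (ε := -1) (by rw [neg_smul, one_smul]; exact h)
  intro i j
  have h2 := congrArg Complex.re (h1 i j)
  rw [Complex.conj_re, neg_one_mul, Complex.neg_re] at h2
  linarith

theorem pres_of_real (A : SLR) : (cx A).1ᴴ * N0 * (cx A).1 = N0 := by
  have hd : (A.1 0 0 : ℂ) * A.1 1 1 - A.1 0 1 * A.1 1 0 = 1 := by
    have h1 : A.1 0 0 * A.1 1 1 - A.1 0 1 * A.1 1 0 = 1 := by
      rw [← Matrix.det_fin_two]
      exact A.2
    exact_mod_cast h1
  have h00 := cx_apply A 0 0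
  have h01 := cx_apply A 0 1
  have h10 := cx_apply A 1 0
  have h11 := cx_apply A 1 1
  ext i j
  fin_cases i <;> fin_cases j
  · simp [Matrix.mul_apply, Fin.sum_univ_two, N0, Matrix.conjTranspose_apply, h00, h01, h10, h11]
    ring
  · simp [Matrix.mul_apply, Fin.sum_univ_two, N0, Matrix.conjTranspose_apply, h00, h01, h10, h11]
    linear_combination I * hd
  · simp [Matrix.mul_apply, Fin.sum_univ_two, N0, Matrix.conjTranspose_apply, h00, h01, h10, h11]
    linear_combination -I * hd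
  · simp [Matrix.mul_apply, Fin.sum_univ_two, N0, Matrix.conjTranspose_apply, h00, h01, h10, h11]
    ring

end RPL
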