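import Pool.Agent.RPL.Coords
import Pool.Agent.RPL.RealX

/-! # RPL-Ret: the retraction of `G` onto its Fuchsian subgroup given by a real embedding of the trace field -/

set_option linter.style.longLine false

open scoped Matrix ContDiff
open Complex

namespace RPL

open SXP

private theorem ret_tr1 {𝕜 : Type} [Field 𝕜] (a : Fin 4 → 𝕜) (f : Fin 4 → Matrix (Fin 2) (Fin 2) 𝕜)
    (Y : Matrix (Fin 2) (Fin 2) 𝕜) :
    ((∑ i, a i • f i) * Y).trace = ∑ i, a i * (f i * Y).trace := by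
  rw [Finset.sum_mul, Matrix.trace_sum]
  refine Finset.sum_congr rfl fun i _ => ?_
  rw [Matrix.smul_mul, Matrix.trace_smul, smul_eq_mul]

private theorem ret_tr2 {𝕜 : Type} [Field 𝕜] (a b : Fin 4 → 𝕜) (f : Fin 4 → Matrix (Fin 2) (Fin 2) 𝕜)
    (Y : Matrix (Fin 2) (Fin 2) 𝕜) :
    ((∑ i, a i • f i) * (∑ l, b l • f l) * Y).trace =
      ∑ i, ∑ l, a i * (b l * (f i * f l * Y).trace) := by
  rw [Matrix.mul_assoc, ret_tr1]
  refine Finset.sum_congr rfl fun i _ => ?_
  rw [← Finset.mul_sum]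
  congr 1
  rw [← Matrix.mul_assoc, Finset.mul_sum, Finset.sum_mul, Matrix.trace_sum]
  refine Finset.sum_congr rfl fun l _ => ?_
  rw [Matrix.mul_smul, Matrix.smul_mul, Matrix.trace_smul, smul_eq_mul]

private theorem ret_det {𝕜 : Type} [Field 𝕜] (X : Matrix (Fin 2) (Fin 2) 𝕜) :
    X.trace ^ 2 - (X * X).trace = 2 * X.det := by
  rw [Matrix.det_fin_two, Matrix.trace_fin_two, Matrix.trace_fin_two, Matrix.mul_apply,
    Matrix.mul_apply, Fin.sum_univ_two, Fin.sum_univ_two]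
  ring

private theorem ret_cx (A : SLR) : (cx A).1 = A.1.map Complex.ofReal := by
  ext i j
  rw [cx_apply, Matrix.map_apply]

private theorem ret_cxtr (A : SLR) : ((A.1.trace : ℝ) : ℂ) = (cx A).1.trace := by
  rw [Matrix.trace_fin_two, Matrix.trace_fin_two, cx_apply, cx_apply, Complex.ofReal_add]

private theorem ret_conj (k X : SLC) : (k * X * k⁻¹).1.trace = X.1.trace := by
  rw [Matrix.SpecialLinearGroup.coe_mul, Matrix.trace_mul_comm, ← Matrix.SpecialLinearGroup.coe_mul,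
    inv_mul_cancel_left]

private theorem ret_ind (k : SLC) {v : Fin 4 → SLC}
    (hv : LinearIndependent ℂ fun i => (v i).1) :
    LinearIndependent ℂ fun i => (k * v i * k⁻¹).1 := by
  rw [Fintype.linearIndependent_iff] at hv ⊢
  intro g hg
  apply hv g
  have h1 : (k⁻¹).1 * (∑ i, g i • (k * v i * k⁻¹).1) * k.1 = ∑ i, g i • (v i).1 := by
    rw [Finset.mul_sum, Finset.sum_mul]
    refine Finset.sum_congr rfl fun i _ => ?_
    rw [Matrix.mul_smul, Matrix.smul_mul, ← Matrix.SpecialLinearGroup.coe_mul,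
      ← Matrix.SpecialLinearGroup.coe_mul]
    congr 2
    group
  rw [← h1, hg, Matrix.mul_zero, Matrix.zero_mul]

private theorem ret_indR {A : Fin 4 → SLR} (h : LinearIndependent ℂ fun i => (cx (A i)).1) :
    LinearIndependent ℝ fun i => (A i).1 := by
  rw [Fintype.linearIndependent_iff] at h ⊢
  intro g hg i
  have h1 : ∑ i, (g i : ℂ) • (cx (A i)).1 = 0 := by
    ext a b
    have h2 : (∑ i, g i • (A i).1) a b = 0 := by
      rw [hg]
      rfl
    rw [Matrix.sum_apply] at h2 ⊢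
    have h3 : ((∑ i, (g i • (A i).1) a b : ℝ) : ℂ) = 0 := by
      rw [h2, Complex.ofReal_zero]
    rw [Complex.ofReal_sum] at h3
    rw [Matrix.zero_apply, ← h3]
    refine Finset.sum_congr rfl fun i _ => ?_
    rw [Matrix.smul_apply, Matrix.smul_apply, cx_apply, smul_eq_mul, smul_eq_mul, Complex.ofReal_mul]
  have h4 := h _ h1 i
  exact_mod_cast h4

theorem retract {G : Type} [Group G] (ρ : G →* SLC) (k : SLC) (D : Subgroup G)
    (hD : ∀ d ∈ D, ∃ A : SLR, cx A = k * ρ d * k⁻¹) {d1 d2 : G} (h1 : d1 ∈ D) (h2 : d2 ∈ D)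
    (hirr : LinearIndependent ℂ ![(1 : Matrix (Fin 2) (Fin 2) ℂ), (ρ d1).1, (ρ d2).1, (ρ d1).1 * (ρ d2).1])
    (σ : trField ρ →+* ℝ)
    (hσ : ∀ d ∈ D, ((σ ⟨(ρ d).1.trace, tr_mem ρ d⟩ : ℝ) : ℂ) = (ρ d).1.trace) :
    ∃ r : G →* SLR, ∀ d ∈ D, cx (r d) = k * ρ d * k⁻¹ := by
  obtain ⟨ρ', hρ'⟩ : ∃ ρ' : G →* SLC, ∀ g, ρ' g = k * ρ g * k⁻¹ :=
    ⟨(MulAut.conj k).toMonoidHom.comp ρ, fun g => rfl⟩
  obtain ⟨c, hc⟩ : ∃ c : Fin 4 → G, c = ![1, d1, d2, d1 * d2] := ⟨_, rfl⟩
  have hcD : ∀ i, c i ∈ D := by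
    intro i
    rw [hc]
    fin_cases i
    · exact D.one_mem
    · exact h1
    · exact h2
    · exact D.mul_mem h1 h2
  have htr : ∀ g, (ρ' g).1.trace = (ρ g).1.trace := by
    intro g
    rw [hρ']
    exact ret_conj k (ρ g)
  have hD' : ∀ d ∈ D, ∃ A : SLR, cx A = ρ' d := by
    intro d hd
    rw [hρ']
    exact hD d hd
  choose A hA using fun i => hD' (c i) (hcD i)
  obtain ⟨τ, hτ⟩ : ∃ τ : G → trField ρ, ∀ g, ((τ g : trField ρ) : ℂ) = (ρ g).1.trace :=
    ⟨fun g => ⟨(ρ g).1.trace, tr_mem ρ g⟩, fun g => rfl⟩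
  have hστ : ∀ d ∈ D, ((σ (τ d) : ℝ) : ℂ) = (ρ d).1.trace := by
    intro d hd
    have h3 : τ d = ⟨(ρ d).1.trace, tr_mem ρ d⟩ := Subtype.ext (hτ d)
    rw [h3]
    exact hσ d hd
  -- independence
  have he : LinearIndependent ℂ fun i => (ρ' (c i)).1 := by
    have h3 : LinearIndependent ℂ fun i => (ρ (c i)).1 := by
      have h4 : (fun i => (ρ (c i)).1) =
          ![(1 : Matrix (Fin 2) (Fin 2) ℂ), (ρ d1).1, (ρ d2).1, (ρ d1).1 * (ρ d2).1] := by
        rw [hc]
        funext i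
        fin_cases i
        · show (ρ 1).1 = 1
          rw [map_one]
          rfl
        · rfl
        · rfl
        · show (ρ (d1 * d2)).1 = (ρ d1).1 * (ρ d2).1
          rw [map_mul]
          rfl
      rw [h4]
      exact hirr
    have h5 := ret_ind k h3
    have h6 : (fun i => (ρ' (c i)).1) = fun i => (k * ρ (c i) * k⁻¹).1 := by
      funext i
      rw [hρ']
    rw [h6]
    exact h5
  have hf : LinearIndependent ℝ fun i => (A i).1 := by
    apply ret_indR
    have h6 : (fun i => (cx (A i)).1) = fun i => (ρ' (c i)).1 := by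
      funext i
      rw [hA]
    rw [h6]
    exact he
  -- coordinates
  have hco : ∀ g : G, ∃ x : Fin 4 → trField ρ, (ρ' g).1 = ∑ i, (x i : ℂ) • (ρ' (c i)).1 := by
    intro g
    refine coords (trField ρ) he (fun i j => ?_) (fun j => ?_)
    · rw [← Matrix.SpecialLinearGroup.coe_mul, ← map_mul, htr]
      exact tr_mem ρ _
    · rw [← Matrix.SpecialLinearGroup.coe_mul, ← map_mul, htr]
      exact tr_mem ρ _
  choose x hx using hco
  obtain ⟨R, hR⟩ : ∃ R : G → Matrix (Fin 2) (Fin 2) ℝ, ∀ g, R g = ∑ i, σ (x g i) • (A i).1 :=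
    ⟨_, fun g => rfl⟩
  -- traces of the real matrices of elements of `D`
  have hB : ∀ (B : SLR) (d : G), d ∈ D → cx B = ρ' d → B.1.trace = σ (τ d) := by
    intro B d hd hBd
    have h3 : ((B.1.trace : ℝ) : ℂ) = ((σ (τ d) : ℝ) : ℂ) := by
      rw [ret_cxtr, hBd, htr, hστ d hd]
    exact_mod_cast h3
  have hf2 : ∀ i j, ((A i).1 * (A j).1).trace = σ (τ (c i * c j)) := by
    intro i j
    rw [← Matrix.SpecialLinearGroup.coe_mul]
    refine hB _ _ (D.mul_mem (hcD i) (hcD j)) ?_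
    rw [map_mul, map_mul, hA, hA]
  have hf3 : ∀ i l j, ((A i).1 * (A l).1 * (A j).1).trace = σ (τ (c i * c l * c j)) := by
    intro i l j
    rw [← Matrix.SpecialLinearGroup.coe_mul, ← Matrix.SpecialLinearGroup.coe_mul]
    refine hB _ _ (D.mul_mem (D.mul_mem (hcD i) (hcD l)) (hcD j)) ?_
    rw [map_mul, map_mul, map_mul, map_mul, hA, hA, hA]
  -- (i)
  have hi : ∀ g j, (R g * (A j).1).trace = σ (τ (g * c j)) := by
    intro g j
    have h3 : ∑ i, x g i * τ (c i * c j) = τ (g * c j) := by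
      apply Subtype.ext
      have h4 : (((∑ i, x g i * τ (c i * c j) : trField ρ)) : ℂ) =
          ∑ i, (x g i : ℂ) * (τ (c i * c j) : ℂ) := by
        push_cast
        rfl
      rw [h4, hτ, ← htr, map_mul, Matrix.SpecialLinearGroup.coe_mul, hx g, ret_tr1]
      refine Finset.sum_congr rfl fun i _ => ?_
      rw [hτ, ← htr, map_mul, Matrix.SpecialLinearGroup.coe_mul]
    rw [← h3, map_sum, hR, ret_tr1]
    refine Finset.sum_congr rfl fun i _ => ?_
    rw [map_mul, hf2]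
  -- (ii)
  have hii : ∀ g h j, (R g * R h * (A j).1).trace = σ (τ (g * h * c j)) := by
    intro g h j
    have h3 : ∑ i, ∑ l, x g i * (x h l * τ (c i * c l * c j)) = τ (g * h * c j) := by
      apply Subtype.ext
      have h4 : (((∑ i, ∑ l, x g i * (x h l * τ (c i * c l * c j)) : trField ρ)) : ℂ) =
          ∑ i, ∑ l, (x g i : ℂ) * ((x h l : ℂ) * (τ (c i * c l * c j) : ℂ)) := by
        push_cast
        rfl
      rw [h4, hτ, ← htr, map_mul, map_mul, Matrix.SpecialLinearGroup.coe_mul,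
        Matrix.SpecialLinearGroup.coe_mul, hx g, hx h, ret_tr2]
      refine Finset.sum_congr rfl fun i _ => Finset.sum_congr rfl fun l _ => ?_
      rw [hτ, ← htr, map_mul, map_mul, Matrix.SpecialLinearGroup.coe_mul,
        Matrix.SpecialLinearGroup.coe_mul]
    rw [← h3, map_sum, hR g, hR h, ret_tr2]
    refine Finset.sum_congr rfl fun i _ => ?_
    rw [map_sum]
    refine Finset.sum_congr rfl fun l _ => ?_
    rw [map_mul, map_mul, hf3]
  have hmul : ∀ g h, R (g * h) = R g * R h := by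
    intro g h
    refine trace_ext hf fun j => ?_
    show (R (g * h) * (A j).1).trace = (R g * R h * (A j).1).trace
    rw [hi, hii]
  -- (iii)
  have hiii : ∀ (B : SLR) (d : G), d ∈ D → cx B = ρ' d → R d = B.1 := by
    intro B d hd hBd
    refine trace_ext hf fun j => ?_
    show (R d * (A j).1).trace = (B.1 * (A j).1).trace
    rw [hi, ← Matrix.SpecialLinearGroup.coe_mul]
    refine (hB _ _ (D.mul_mem hd (hcD j)) ?_).symm
    rw [map_mul, map_mul, hA, hBd]
  have hone : R 1 = 1 := hiii 1 1 D.one_mem (by rw [map_one, map_one])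
  have hc0 : c 0 = 1 := by
    rw [hc]
    rfl
  have hA0 : (A 0).1 = 1 := by
    rw [← hone, ← hc0]
    exact (hiii (A 0) (c 0) (hcD 0) (hA 0)).symm
  have htR : ∀ g, (R g).trace = σ (τ g) := by
    intro g
    have h3 := hi g 0
    rw [hA0, hc0, mul_one, mul_one] at h3
    exact h3
  -- (iv)
  have hdet : ∀ g, (R g).det = 1 := by
    intro g
    have h3 := ret_det (R g)
    rw [← hmul, htR, htR] at h3
    have h4 : τ g ^ 2 - τ (g * g) = 2 := by
      apply Subtype.ext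
      have h5 : ((τ g ^ 2 - τ (g * g) : trField ρ) : ℂ) = (τ g : ℂ) ^ 2 - (τ (g * g) : ℂ) := by
        push_cast
        rfl
      have h6 := ret_det (ρ g).1
      rw [(ρ g).2, mul_one] at h6
      rw [h5, hτ, hτ, map_mul, Matrix.SpecialLinearGroup.coe_mul, h6]
      rfl
    have h5 : σ (τ g) ^ 2 - σ (τ (g * g)) = 2 := by
      rw [← map_pow, ← map_sub, h4, map_ofNat]
    linarith
  refine ⟨MonoidHom.mk' (fun g => (⟨R g, hdet g⟩ : SLR)) fun g h => Subtype.ext (hmul g h),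
    fun d hd => ?_⟩
  obtain ⟨B, hBd⟩ := hD' d hd
  have h3 : (⟨R d, hdet d⟩ : SLR) = B := Subtype.ext (hiii B d hd hBd)
  show cx (⟨R d, hdet d⟩ : SLR) = _
  rw [h3, hBd, hρ']

end RPL
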