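import Pool.Agent.RPL.Flip
import Pool.Agent.RPL.Par
import Pool.Agent.RPL.CuspI
import Pool.Agent.RPL.CuspA
import Pool.Agent.RPL.Ret
import Pool.Agent.RPL.RealHom
import Pool.Agent.SXP.GAct

/-! # RPL-CuspM: the cusped case

Assembled (architect).
-/

set_option linter.style.longLine false

open scoped Matrix ContDiff
open Complex

namespace RPL

open SXP

variable {G : Type} [Group G] {ρ : G →* SLC} {μ lam : G} {m l : ℂ} {P : Set (Set H3)}

/-- real traces of the elements of `DN` -/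
theorem dn_real {N : Matrix (Fin 2) (Fin 2) ℂ} (hN : IsNormal N) {g : G} (hg : g ∈ DN ρ N) :
    (ρ g).1.trace.im = 0 := by
  obtain ⟨k, c, hc, hk, -⟩ := std_plane hN
  obtain ⟨A, hA⟩ := real_of_pres (conj_pres hc hk hg)
  have h1 : (ρ g).1.trace = (cx A).1.trace := by
    rw [hA, Matrix.SpecialLinearGroup.coe_mul, Matrix.SpecialLinearGroup.coe_mul,
      Matrix.trace_mul_cycle, ← Matrix.SpecialLinearGroup.coe_mul, inv_mul_cancel,
      Matrix.SpecialLinearGroup.coe_one, one_mul]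
  rw [h1, Matrix.trace_fin_two, cx_apply, cx_apply, ← Complex.ofReal_add, Complex.ofReal_im]

theorem cusp_false (hc : TorusCusp ρ μ lam m l) (hP : TGSurface ρ P) (hS : Separating ρ P)
    {N : Matrix (Fin 2) (Fin 2) ℂ} (hN : IsNormal N) (h0 : N 0 0 = 0) (hmem : plane N ∈ P)
    (σ : trField ρ →+* ℝ)
    (hσ : ∀ g : G, act (ρ g) '' plane N = plane N → (ρ g).1.trace.im = 0 →
      ((σ ⟨(ρ g).1.trace, tr_mem ρ g⟩ : ℝ) : ℂ) = (ρ g).1.trace) : False := by
  obtain ⟨k, c, hc0, hk, hk0⟩ := std_plane hN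
  obtain ⟨g, w, hX⟩ := exists_flip hc hP hS hN h0 hmem
  obtain ⟨α, a, ha0, hα, ha⟩ := exists_par hc hP hN h0 hmem
  have hirr := cusp_irr hc hN h0 ha0 hα hX
  have m1 := par_mem (ρ := ρ) hN h0 hα ha
  have m2 := par_conj_mem (ρ := ρ) hN h0 hα ha hX
  obtain ⟨r, hr⟩ := retract ρ k (DN ρ N) (fun d hd => real_of_pres (conj_pres hc0 hk hd)) m1 m2 hirr σ
    (fun d hd => hσ d (stab_of hd) (dn_real hN hd))
  refine cusp_alg (R := r g) hc0 hk (hk0 h0) ha0 hα hX (hr α m1) ?_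
  rw [← map_mul, ← map_inv, ← map_mul, hr _ m2, flip_conj (w := w) hα]

end RPL
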