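import Pool.Agent.RPL.Defs

/-! # RPL-IrrA: a cocompact group has no fixed point in the upper half-plane

`normSq (z - w) / (z.im * w.im)` is invariant, bounded on compact sets and unbounded on the half-plane. -/

set_option linter.style.longLine false

open scoped Matrix ContDiff
open Complex

namespace RPL

open SXP

private theorem ia_det (A : SLR) : A.1 0 0 * A.1 1 1 - A.1 0 1 * A.1 1 0 = 1 := by
  have h := A.2
  rwa [Matrix.det_fin_two] at h

private theorem ia_den {A : SLR} {z : ℂ} (hz : z ∈ UH) : den A z ≠ 0 := by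
  intro h
  have hz' : 0 < z.im := hz
  have h1 : (A.1 1 0) * z.im = 0 := by
    have h0 := congrArg Complex.im h
    simpa [den] using h0
  have hc : A.1 1 0 = 0 := by
    rcases mul_eq_zero.1 h1 with h2 | h2
    · exact h2
    · exact absurd h2 hz'.ne'
  have h2 : A.1 1 1 = 0 := by
    have h0 := congrArg Complex.re h
    simpa [den, hc] using h0
  have h3 := ia_det A
  rw [hc, h2] at h3
  norm_num at h3

private theorem ia_sub {A : SLR} {z w : ℂ} (hz : z ∈ UH) (hw : w ∈ UH) :
    mob A z - mob A w = (z - w) / (den A z * den A w) := by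
  have h1 := ia_den (A := A) hz
  have h2 := ia_den (A := A) hw
  have h3 : (A.1 0 0 : ℂ) * (A.1 1 1 : ℂ) - (A.1 0 1 : ℂ) * (A.1 1 0 : ℂ) = 1 := by
    have h := congrArg (fun x : ℝ => (x : ℂ)) (ia_det A)
    push_cast at h
    exact h
  unfold mob
  rw [div_sub_div _ _ h1 h2]
  congr 1
  unfold den
  linear_combination (z - w) * h3

private theorem ia_im (A : SLR) (z : ℂ) : (mob A z).im = z.im / normSq (den A z) := by
  have h3 := ia_det A
  unfold mob
  rw [Complex.div_im, ← sub_div]
  congr 1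
  unfold den
  simp only [Complex.add_im, Complex.add_re, Complex.mul_im, Complex.mul_re, Complex.ofReal_im,
    Complex.ofReal_re]
  linear_combination z.im * h3

private noncomputable def qq (z w : ℂ) : ℝ := normSq (z - w) / (z.im * w.im)

private theorem qq_mob (A : SLR) {z w : ℂ} (hz : z ∈ UH) (hw : w ∈ UH) :
    qq (mob A z) (mob A w) = qq z w := by
  have h1 : normSq (den A z) ≠ 0 := (normSq_pos.2 (ia_den hz)).ne'
  have h2 : normSq (den A w) ≠ 0 := (normSq_pos.2 (ia_den hw)).ne'
  have h3 : z.im ≠ 0 := (show 0 < z.im from hz).ne'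
  have h4 : w.im ≠ 0 := (show 0 < w.im from hw).ne'
  unfold qq
  rw [ia_sub hz hw, ia_im, ia_im, normSq_div, normSq_mul]
  field_simp

theorem irrA {D : Type} [Group D] (B : D →* SLR)
    (hcc : ∃ K ⊆ UH, IsCompact K ∧ ∀ z ∈ UH, ∃ d : D, mob (B d) z ∈ K) :
    ¬ ∃ z ∈ UH, ∀ d : D, mob (B d) z = z := by
  rintro ⟨z0, hz0, hfix⟩
  obtain ⟨K, hK, hKc, hall⟩ := hcc
  have hy : 0 < z0.im := hz0
  have hcont : ContinuousOn (fun z => qq z z0) K := by
    unfold qq
    refine ContinuousOn.div ?_ ?_ fun z hz => ?_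
    · exact (continuous_normSq.comp (continuous_id.sub continuous_const)).continuousOn
    · exact (continuous_im.mul continuous_const).continuousOn
    · have h1 : 0 < z.im := hK hz
      exact (mul_pos h1 hy).ne'
  obtain ⟨C, hC⟩ := hKc.exists_bound_of_continuousOn hcont
  have hbd : ∀ z ∈ UH, qq z z0 ≤ C := by
    intro z hz
    obtain ⟨d, hd⟩ := hall z hz
    have h1 := hC _ hd
    have h2 := qq_mob (B d) hz hz0
    rw [hfix d] at h2
    rw [← h2]
    exact (le_abs_self _).trans h1
  obtain ⟨T, hT⟩ : ∃ T : ℝ, T = z0.im * (1 + 2 * |C|) := ⟨_, rfl⟩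
  have hc0 : 0 ≤ |C| := abs_nonneg C
  have hT0 : 0 < T := by rw [hT]; positivity
  have him : (z0 + (T : ℂ) * I).im = z0.im + T := by simp
  have hmem : z0 + (T : ℂ) * I ∈ UH := by
    show 0 < (z0 + (T : ℂ) * I).im
    rw [him]
    linarith
  have h1 := hbd _ hmem
  have h2 : qq (z0 + (T : ℂ) * I) z0 = T ^ 2 / ((z0.im + T) * z0.im) := by
    unfold qq
    rw [him, add_sub_cancel_left, normSq_mul, normSq_ofReal, normSq_I]
    ring
  rw [h2, div_le_iff₀ (mul_pos (by linarith) hy)] at h1
  have h3 : T ^ 2 ≤ |C| * ((z0.im + T) * z0.im) :=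
    h1.trans (mul_le_mul_of_nonneg_right (le_abs_self C) (mul_pos (by linarith) hy).le)
  rw [hT] at h3
  have h4 : z0.im ^ 2 * ((1 + 2 * |C|) ^ 2 - |C| * (2 + 2 * |C|)) ≤ 0 := by linarith
  have h5 : 0 < z0.im ^ 2 * ((1 + 2 * |C|) ^ 2 - |C| * (2 + 2 * |C|)) := by
    refine mul_pos (by positivity) ?_
    nlinarith
  linarith

end RPL
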