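import Pool.Agent.RPL.Defs

/-! # RPL-IrrB: a proper cocompact group has no fixed point on the boundary -/

set_option linter.style.longLine false

open scoped Matrix ContDiff
open Complex

namespace RPL

open SXP

private abbrev HH : Type := UpperHalfPlane

private theorem ib_coe (A : SLR) (z : HH) : ((A • z : HH) : ℂ) = mob A z := by
  rw [UpperHalfPlane.coe_specialLinearGroup_apply]
  rfl

/-- proper and cocompact -/
private def Pr {D : Type} [Group D] (B : D →* SLR) : Prop :=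
  (∀ K : Set HH, IsCompact K → {d : D | ∃ z ∈ K, B d • z ∈ K}.Finite) ∧
    ∃ K : Set HH, IsCompact K ∧ ∀ z : HH, ∃ d : D, B d • z ∈ K

private theorem ib_pr {D : Type} [Group D] (B : D →* SLR)
    (hp : ∀ K ⊆ UH, IsCompact K → {d : D | (mob (B d) '' K ∩ K).Nonempty}.Finite)
    (hcc : ∃ K ⊆ UH, IsCompact K ∧ ∀ z ∈ UH, ∃ d : D, mob (B d) z ∈ K) : Pr B := by
  constructor
  · intro K hK
    have h1 : ((↑) : HH → ℂ) '' K ⊆ UH := by
      rintro _ ⟨z, -, rfl⟩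
      exact z.im_pos
    refine (hp _ h1 (hK.image UpperHalfPlane.continuous_coe)).subset ?_
    rintro d ⟨z, hz, hd⟩
    refine ⟨mob (B d) z, ⟨z, ⟨z, hz, rfl⟩, rfl⟩, ⟨B d • z, hd, ib_coe _ _⟩⟩
  · obtain ⟨K, hKU, hK, h⟩ := hcc
    refine ⟨((↑) : HH → ℂ) ⁻¹' K, ?_, fun z => ?_⟩
    · rw [UpperHalfPlane.isEmbedding_coe.isInducing.isCompact_preimage_iff]
      · exact hK
      · intro z hz
        exact ⟨⟨z, hKU hz⟩, rfl⟩
    · obtain ⟨d, hd⟩ := h z z.im_pos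
      refine ⟨d, ?_⟩
      show ((B d • z : HH) : ℂ) ∈ K
      rw [ib_coe]
      exact hd

/-- conjugation -/
private theorem ib_conj {D : Type} [Group D] {B : D →* SLR} (h : Pr B) (P : SLR) :
    Pr ((MulAut.conj P⁻¹).toMonoidHom.comp B) := by
  have hP : ∀ (d : D) (z : HH), ((MulAut.conj P⁻¹).toMonoidHom.comp B) d • z = P⁻¹ • B d • P • z := by
    intro d z
    show (P⁻¹ * B d * P⁻¹⁻¹) • z = _
    rw [inv_inv, mul_smul, mul_smul]
  constructor
  · intro K hK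
    have h1 : IsCompact ((fun z : HH => P • z) '' K) := hK.image (continuous_const_smul P)
    refine (h.1 _ h1).subset ?_
    rintro d ⟨z, hz, hd⟩
    rw [hP] at hd
    refine ⟨P • z, ⟨z, hz, rfl⟩, ⟨_, hd, ?_⟩⟩
    show P • P⁻¹ • B d • P • z = B d • P • z
    rw [smul_inv_smul]
  · obtain ⟨K, hK, h2⟩ := h.2
    refine ⟨(fun z : HH => P⁻¹ • z) '' K, hK.image (continuous_const_smul P⁻¹), fun z => ?_⟩
    obtain ⟨d, hd⟩ := h2 (P • z)
    refine ⟨d, ?_⟩
    rw [hP]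
    exact ⟨_, hd, rfl⟩

/-- the affine action -/
private theorem ib_aff (A : SLR) (h : A.1 1 0 = 0) (z : HH) :
    ((A • z : HH) : ℂ) = ((A.1 0 0 ^ 2 : ℝ) : ℂ) * z + ((A.1 0 0 * A.1 0 1 : ℝ) : ℂ) := by
  have hdet := A.2
  rw [Matrix.det_fin_two, h, mul_zero, sub_zero] at hdet
  rw [ib_coe]
  unfold mob den
  rw [h]
  have h1 : A.1 1 1 ≠ 0 := by
    intro h0
    rw [h0, mul_zero] at hdet
    exact zero_ne_one hdet
  have h1' : ((A.1 1 1 : ℝ) : ℂ) ≠ 0 := by exact_mod_cast h1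
  have hdet' : ((A.1 0 0 : ℝ) : ℂ) * ((A.1 1 1 : ℝ) : ℂ) = 1 := by exact_mod_cast hdet
  rw [Complex.ofReal_zero, zero_mul, zero_add, div_eq_iff h1']
  push_cast
  linear_combination (-((A.1 0 0 : ℝ) : ℂ) * z - ((A.1 0 1 : ℝ) : ℂ)) * hdet'

private theorem ib_main2 {D : Type} [Group D] {B : D →* SLR} (h : Pr B) (hB : ∀ d, (B d).1 1 0 = 0)
    {d0 : D} (h0 : (B d0).1 0 0 ^ 2 < 1) (h01 : (B d0).1 0 1 = 0) : False := by
  have hne : ∀ d, (B d).1 0 0 ≠ 0 := by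
    intro d h1
    have hdet := (B d).2
    rw [Matrix.det_fin_two, hB, h1, zero_mul, mul_zero, sub_zero] at hdet
    exact zero_ne_one hdet
  set q := (B d0).1 0 0 ^ 2 with hq
  have hq0 : 0 < q := by
    have := hne d0
    positivity
  -- entries of products
  have m00 : ∀ d e, (B (d * e)).1 0 0 = (B d).1 0 0 * (B e).1 0 0 := by
    intro d e
    rw [map_mul, Matrix.SpecialLinearGroup.coe_mul, Matrix.mul_apply, Fin.sum_univ_two, hB e, mul_zero, add_zero]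
  have m01 : ∀ d e, (B (d * e)).1 0 0 * (B (d * e)).1 0 1 =
      (B d).1 0 0 ^ 2 * ((B e).1 0 0 * (B e).1 0 1) + (B d).1 0 0 * (B d).1 0 1 := by
    intro d e
    have h1 : (B (d * e)).1 0 1 = (B d).1 0 0 * (B e).1 0 1 + (B d).1 0 1 * (B e).1 1 1 := by
      rw [map_mul, Matrix.SpecialLinearGroup.coe_mul, Matrix.mul_apply, Fin.sum_univ_two]
    have hdet := (B e).2
    rw [Matrix.det_fin_two, hB, mul_zero, sub_zero] at hdet
    rw [m00, h1]
    linear_combination ((B d).1 0 0 * (B d).1 0 1) * hdet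
  have hpow : ∀ n : ℕ, (B (d0 ^ n)).1 0 0 ^ 2 = q ^ n ∧ (B (d0 ^ n)).1 0 0 * (B (d0 ^ n)).1 0 1 = 0 := by
    intro n
    induction n with
    | zero =>
      rw [pow_zero, map_one, pow_zero]
      simp
    | succ n ih =>
      rw [pow_succ' d0 n, m01, m00, mul_pow, ih.1, ih.2, h01, ← hq]
      refine ⟨?_, by ring⟩
      ring
  -- all translations vanish
  have hS : ∀ e, (B e).1 0 0 * (B e).1 0 1 = 0 := by
    intro e
    by_contra hS
    set S := (B e).1 0 0 * (B e).1 0 1 with hSdef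
    let f : ℕ → D := fun n => d0 ^ n * e * (d0 ^ n)⁻¹
    have hinv : ∀ d, (B d⁻¹).1 0 0 * (B d).1 0 0 = 1 := by
      intro d
      rw [← m00, inv_mul_cancel, map_one]
      rfl
    have hf00 : ∀ n, (B (f n)).1 0 0 = (B e).1 0 0 := by
      intro n
      show (B (d0 ^ n * e * (d0 ^ n)⁻¹)).1 0 0 = _
      rw [m00, m00]
      linear_combination (B e).1 0 0 * hinv (d0 ^ n)
    have hf01 : ∀ n, (B (f n)).1 0 0 * (B (f n)).1 0 1 = q ^ n * S := by
      intro n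
      have h1 : f n * d0 ^ n = d0 ^ n * e := by
        show d0 ^ n * e * (d0 ^ n)⁻¹ * d0 ^ n = _
        rw [inv_mul_cancel_right]
      have h2 := m01 (f n) (d0 ^ n)
      rw [h1, m01, (hpow n).1, (hpow n).2, mul_zero, zero_add, add_zero] at h2
      exact h2.symm
    -- the compact set
    let pt' : ℝ × ℝ → HH := fun p => ⟨((p.2 : ℝ) : ℂ) + ((max p.1 (min 1 ((B e).1 0 0 ^ 2)) : ℝ) : ℂ) * I, by
      have h3 : 0 < (B e).1 0 0 ^ 2 := by
        have := hne e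
        positivity
      have h4 : 0 < max p.1 (min 1 ((B e).1 0 0 ^ 2)) := lt_max_of_lt_right (lt_min zero_lt_one h3)
      simpa using h4⟩
    have hcont : Continuous pt' := by
      refine Continuous.upperHalfPlaneMk ?_ _
      fun_prop
    let K1 : Set HH := pt' '' (Set.Icc (min 1 ((B e).1 0 0 ^ 2)) (max 1 ((B e).1 0 0 ^ 2)) ×ˢ Set.Icc (-|S|) |S|)
    have hK1 : IsCompact K1 := (isCompact_Icc.prod isCompact_Icc).image hcont
    have hmem : ∀ t s : ℝ, min 1 ((B e).1 0 0 ^ 2) ≤ t → t ≤ max 1 ((B e).1 0 0 ^ 2) → |s| ≤ |S| → ∀ z : HH,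
        (z : ℂ) = (t : ℂ) * I + (s : ℂ) → z ∈ K1 := by
      intro t s ht1 ht2 hs z hz
      refine ⟨(t, s), ⟨⟨ht1, ht2⟩, abs_le.1 hs⟩, ?_⟩
      apply UpperHalfPlane.ext
      rw [hz]
      show ((s : ℝ) : ℂ) + ((max t (min 1 ((B e).1 0 0 ^ 2)) : ℝ) : ℂ) * I = _
      rw [max_eq_left ht1]
      ring
    have hIK : UpperHalfPlane.I ∈ K1 := by
      refine hmem 1 0 (min_le_left _ _) (le_max_left _ _) (by simp) _ ?_
      simp
    have hfin := h.1 K1 hK1
    have hall : ∀ n, f n ∈ {d : D | ∃ z ∈ K1, B d • z ∈ K1} := by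
      intro n
      refine ⟨UpperHalfPlane.I, hIK, ?_⟩
      refine hmem ((B e).1 0 0 ^ 2) (q ^ n * S) (min_le_right _ _) (le_max_right _ _) ?_ _ ?_
      · rw [abs_mul, abs_of_pos (pow_pos hq0 n)]
        exact mul_le_of_le_one_left (abs_nonneg _) (pow_le_one₀ hq0.le h0.le)
      · rw [ib_aff _ (hB _), hf01, hf00]
        rfl
    have hninj : ¬ Function.Injective f := by
      intro hinj
      exact Set.infinite_range_of_injective hinj (hfin.subset (by
        rintro _ ⟨n, rfl⟩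
        exact hall n))
    apply hninj
    intro n m hnm
    have h1 := hf01 n
    have h2 := hf01 m
    rw [hnm, h2] at h1
    have h3 : q ^ m = q ^ n := mul_right_cancel₀ hS h1
    exact (pow_right_injective₀ hq0 h0.ne h3).symm
  -- conclusion
  obtain ⟨K, hK, hcov⟩ := h.2
  have hcont : Continuous fun z : HH => z.re / z.im :=
    UpperHalfPlane.continuous_re.div₀ UpperHalfPlane.continuous_im fun z => z.im_ne_zero
  obtain ⟨C, hC⟩ := (hK.image hcont).bddAbove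
  obtain ⟨d, hd⟩ := hcov ⟨((C + 1 : ℝ) : ℂ) + I, by simp⟩
  have h1 := hC ⟨_, hd, rfl⟩
  set z : HH := ⟨((C + 1 : ℝ) : ℂ) + I, by simp⟩ with hz
  have h2 : ((B d • z : HH) : ℂ) = (((B d).1 0 0 ^ 2 : ℝ) : ℂ) * z := by
    rw [ib_aff _ (hB _), hS, Complex.ofReal_zero, add_zero]
  have hzc : (z : ℂ) = ((C + 1 : ℝ) : ℂ) + I := rfl
  have h3 : (B d • z : HH).re = (B d).1 0 0 ^ 2 * (C + 1) := by
    rw [← UpperHalfPlane.coe_re, h2, hzc, Complex.re_ofReal_mul]
    simp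
  have h4 : (B d • z : HH).im = (B d).1 0 0 ^ 2 := by
    rw [← UpperHalfPlane.coe_im, h2, hzc, Complex.im_ofReal_mul]
    simp
  have h5 : (B d).1 0 0 ^ 2 ≠ 0 := pow_ne_zero 2 (hne d)
  have h6 : (B d • z : HH).re / (B d • z : HH).im ≤ C := h1
  rw [h3, h4, mul_div_cancel_left₀ _ h5] at h6
  linarith

private theorem ib_main {D : Type} [Group D] {B : D →* SLR} (h : Pr B) (hB : ∀ d, (B d).1 1 0 = 0) : False := by
  -- a contraction
  obtain ⟨K, hK, hcov⟩ := h.2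
  obtain ⟨M, hM⟩ := (hK.image UpperHalfPlane.continuous_im).bddAbove
  have hMp : 0 < |M| + 1 := by positivity
  obtain ⟨d0, hd0⟩ := hcov ⟨((|M| + 1 : ℝ) : ℂ) * I, by simpa using hMp⟩
  set z : HH := ⟨((|M| + 1 : ℝ) : ℂ) * I, by simpa using hMp⟩ with hz
  have h1 : (B d0 • z : HH).im ≤ M := hM ⟨_, hd0, rfl⟩
  have hzc : (z : ℂ) = ((|M| + 1 : ℝ) : ℂ) * I := rfl
  have h4 : (B d0 • z : HH).im = (B d0).1 0 0 ^ 2 * (|M| + 1) := by
    rw [← UpperHalfPlane.coe_im, ib_aff _ (hB _), Complex.add_im, Complex.im_ofReal_mul, hzc, Complex.im_ofReal_mul]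
    simp
  rw [h4] at h1
  have h0 : (B d0).1 0 0 ^ 2 < 1 := by
    by_contra hc
    push Not at hc
    have h5 : 1 * (|M| + 1) ≤ (B d0).1 0 0 ^ 2 * (|M| + 1) := mul_le_mul_of_nonneg_right hc hMp.le
    have := le_abs_self M
    linarith
  set a := (B d0).1 0 0 with ha
  set b := (B d0).1 0 1 with hb
  have hdet := (B d0).2
  rw [Matrix.det_fin_two, hB, mul_zero, sub_zero, ← ha] at hdet
  -- the fixed point
  set x0 := a * b / (1 - a ^ 2) with hx0
  have h1a : 1 - a ^ 2 ≠ 0 := by linarith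
  let P : SLR := ⟨!![1, x0; 0, 1], by simp [Matrix.det_fin_two]⟩
  have hP : P.1 = !![1, x0; 0, 1] := rfl
  have hPi : P⁻¹.1 = !![1, -x0; 0, 1] := by
    rw [Matrix.SpecialLinearGroup.coe_inv, hP, Matrix.adjugate_fin_two]
    simp
  have hcB : ∀ d, (((MulAut.conj P⁻¹).toMonoidHom.comp B) d).1 = !![1, -x0; 0, 1] * (B d).1 * !![1, x0; 0, 1] := by
    intro d
    show (P⁻¹ * B d * P⁻¹⁻¹).1 = _
    rw [inv_inv, Matrix.SpecialLinearGroup.coe_mul, Matrix.SpecialLinearGroup.coe_mul, hPi, hP]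
  refine ib_main2 (ib_conj h P) (d0 := d0) (fun d => ?_) ?_ ?_
  · rw [hcB]
    simp [Matrix.mul_apply, Matrix.vecMul, dotProduct, Fin.sum_univ_two, hB]
  · rw [hcB]
    have : (!![1, -x0; 0, 1] * (B d0).1 * !![1, x0; 0, 1] : Matrix (Fin 2) (Fin 2) ℝ) 0 0 = a := by
      simp [Matrix.mul_apply, Matrix.vecMul, dotProduct, Fin.sum_univ_two, hB, ha]
    rw [this]
    exact h0
  · rw [hcB]
    have : (!![1, -x0; 0, 1] * (B d0).1 * !![1, x0; 0, 1] : Matrix (Fin 2) (Fin 2) ℝ) 0 1 =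
        a * x0 + b - x0 * (B d0).1 1 1 := by
      simp [Matrix.mul_apply, Matrix.vecMul, dotProduct, Fin.sum_univ_two, hB, ha, hb]
      ring
    rw [this]
    have ha0 : a ≠ 0 := by
      intro h5
      rw [h5, zero_mul] at hdet
      exact zero_ne_one hdet
    have h11 : (B d0).1 1 1 = 1 / a := by
      rw [eq_div_iff ha0, mul_comm]
      exact hdet
    rw [h11, hx0]
    field_simp
    ring

theorem irrB {D : Type} [Group D] (B : D →* SLR)
    (hp : ∀ K ⊆ UH, IsCompact K → {d : D | (mob (B d) '' K ∩ K).Nonempty}.Finite)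
    (hcc : ∃ K ⊆ UH, IsCompact K ∧ ∀ z ∈ UH, ∃ d : D, mob (B d) z ∈ K) :
    ¬ ∃ v : Fin 2 → ℝ, v ≠ 0 ∧ ∀ d : D, ∃ c : ℝ, (B d).1.mulVec v = c • v := by
  rintro ⟨v, hv, hev⟩
  have hPr := ib_pr B hp hcc
  set N := v 0 ^ 2 + v 1 ^ 2 with hN
  have hN0 : 0 < N := by
    by_contra hc
    apply hv
    have h0 : v 0 = 0 := by nlinarith [sq_nonneg (v 0), sq_nonneg (v 1)]
    have h1 : v 1 = 0 := by nlinarith [sq_nonneg (v 0), sq_nonneg (v 1)]
    ext i
    fin_cases i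
    · exact h0
    · exact h1
  let P : SLR := ⟨!![v 0, -v 1 / N; v 1, v 0 / N], by
    rw [Matrix.det_fin_two]
    simp only [Matrix.of_apply, Matrix.cons_val_zero, Matrix.cons_val_one, Matrix.cons_val']
    field_simp
    rw [hN]
    ring⟩
  have hP : P.1 = !![v 0, -v 1 / N; v 1, v 0 / N] := rfl
  have hPi : P⁻¹.1 = !![v 0 / N, v 1 / N; -v 1, v 0] := by
    rw [Matrix.SpecialLinearGroup.coe_inv, hP, Matrix.adjugate_fin_two]
    simp
    ring
  refine ib_main (ib_conj hPr P) fun d => ?_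
  have hcB : (((MulAut.conj P⁻¹).toMonoidHom.comp B) d).1 = !![v 0 / N, v 1 / N; -v 1, v 0] * (B d).1 * !![v 0, -v 1 / N; v 1, v 0 / N] := by
    show (P⁻¹ * B d * P⁻¹⁻¹).1 = _
    rw [inv_inv, Matrix.SpecialLinearGroup.coe_mul, Matrix.SpecialLinearGroup.coe_mul, hPi, hP]
  rw [hcB]
  obtain ⟨c, hc⟩ := hev d
  have e0 := congrFun hc 0
  have e1 := congrFun hc 1
  simp only [Matrix.mulVec, dotProduct, Fin.sum_univ_two, Pi.smul_apply, smul_eq_mul] at e0 e1
  have : (!![v 0 / N, v 1 / N; -v 1, v 0] * (B d).1 * !![v 0, -v 1 / N; v 1, v 0 / N] : Matrix (Fin 2) (Fin 2) ℝ) 1 0 =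
      (-v 1 * (B d).1 0 0 + v 0 * (B d).1 1 0) * v 0 + (-v 1 * (B d).1 0 1 + v 0 * (B d).1 1 1) * v 1 := by
    simp [Matrix.mul_apply, Matrix.vecMul, dotProduct, Fin.sum_univ_two]
  rw [this]
  linear_combination (-v 1) * e0 + v 0 * e1

end RPL
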