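import Pool.Agent.RPL.IrrC
import Pool.Agent.RPL.IrrA
import Pool.Agent.RPL.IrrB
import Pool.Agent.RPL.RealX

/-! # RPL-Irr: a proper cocompact Fuchsian group contains an irreducible pair -/

set_option linter.style.longLine false

open scoped Matrix ContDiff
open Complex

namespace RPL

open SXP

private theorem ip_det (k a b : SLC) (A B : SLR) (hA : cx A = k * a * k⁻¹) (hB : cx B = k * b * k⁻¹) :
    (a.1 * b.1 - b.1 * a.1).det = (((A.1 * B.1 - B.1 * A.1).det : ℝ) : ℂ) := by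
  have h1 : (cx (A * B)).1 = k.1 * (a.1 * b.1) * (k⁻¹).1 := by
    have h2 : cx (A * B) = k * (a * b) * k⁻¹ := by
      rw [map_mul, hA, hB]
      group
    rw [h2]
    rfl
  have h3 : (cx (B * A)).1 = k.1 * (b.1 * a.1) * (k⁻¹).1 := by
    have h2 : cx (B * A) = k * (b * a) * k⁻¹ := by
      rw [map_mul, hA, hB]
      group
    rw [h2]
    rfl
  have h4 : Complex.ofRealHom.mapMatrix (A.1 * B.1 - B.1 * A.1) = k.1 * (a.1 * b.1 - b.1 * a.1) * (k⁻¹).1 := by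
    have h5 : Complex.ofRealHom.mapMatrix (A.1 * B.1 - B.1 * A.1) = (cx (A * B)).1 - (cx (B * A)).1 := by
      rw [map_sub]
      rfl
    rw [h5, h1, h3, mul_sub, sub_mul]
  have h6 := congrArg Matrix.det h4
  rw [← RingHom.map_det, Matrix.det_mul, Matrix.det_mul, k.2, (k⁻¹).2, one_mul, mul_one] at h6
  exact h6.symm

theorem irr_pair {G : Type} [Group G] (ρ : G →* SLC) (k : SLC) (D : Subgroup G) (B : D →* SLR)
    (hB : ∀ d : D, cx (B d) = k * ρ d * k⁻¹)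
    (hp : ∀ K ⊆ UH, IsCompact K → {d : D | (mob (B d) '' K ∩ K).Nonempty}.Finite)
    (hcc : ∃ K ⊆ UH, IsCompact K ∧ ∀ z ∈ UH, ∃ d : D, mob (B d) z ∈ K) :
    ∃ d1 ∈ D, ∃ d2 ∈ D, LinearIndependent ℂ
      ![(1 : Matrix (Fin 2) (Fin 2) ℂ), (ρ d1).1, (ρ d2).1, (ρ d1).1 * (ρ d2).1] := by
  by_contra hcon
  have h1 : ∀ d1 d2 : D, ¬ LinearIndependent ℝ
      ![(1 : Matrix (Fin 2) (Fin 2) ℝ), (B d1).1, (B d2).1, (B d1).1 * (B d2).1] := by
    intro d1 d2 hli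
    apply hcon
    refine ⟨d1, d1.2, d2, d2.2, (indep_iff _ _).2 ?_⟩
    rw [ip_det k (ρ d1) (ρ d2) (B d1) (B d2) (hB d1) (hB d2)]
    exact_mod_cast (indep_iff _ _).1 hli
  rcases irr_cases B h1 with h2 | h2
  · exact irrA B hcc h2
  · exact irrB B hp hcc h2

end RPL
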