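import Pool.Agent.RPL.CovD

/-! # RPL-CovS: the projection is surjective with central kernel -/

set_option linter.style.longLine false

open scoped Matrix ContDiff Topology
open Complex MeasureTheory Filter

namespace RPL

private theorem cs_ext {a b : Cov} (hA : a.A = b.A) (h : ∀ z ∈ UH, a.θ z = b.θ z) : a = b := by
  refine Cov.ext hA (funext fun z => ?_)
  by_cases hz : z ∈ UH
  · exact h z hz
  · rw [a.out z hz, b.out z hz]

private theorem cs_log (A : SLR) (hc : A.1 1 0 ≠ 0) {z : ℂ} (hz : z ∈ UH) :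
    HasFDerivAt (fun w => (Complex.log (den A w)).im) (dth A z) z := by
  have him : (den A z).im ≠ 0 := by
    have h1 : (den A z).im = A.1 1 0 * z.im := by
      simp [den]
    have h2 : 0 < z.im := hz
    rw [h1]
    exact mul_ne_zero hc h2.ne'
  have hs : den A z ∈ slitPlane := Or.inr him
  have h1 : HasDerivAt (den A) (A.1 1 0 : ℂ) z := by
    have h := ((hasDerivAt_id z).const_mul (A.1 1 0 : ℂ)).add_const (A.1 1 1 : ℂ)
    rw [mul_one] at h
    exact h
  have h2 : HasDerivAt (fun w => Complex.log (den A w)) ((A.1 1 0 : ℂ) / den A z) z := h1.clog hs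
  have h3 := h2.hasFDerivAt.restrictScalars ℝ
  have h4 := (Complex.imCLM.hasFDerivAt (x := Complex.log (den A z))).comp z h3
  refine h4.congr_fderiv ?_
  refine ContinuousLinearMap.ext fun v => ?_
  rw [dth_apply]
  show (v • ((A.1 1 0 : ℂ) / den A z)).im = _
  rw [smul_eq_mul, mul_comm]

theorem pr_surj : Function.Surjective Cov.pr := by
  classical
  intro A
  by_cases hc : A.1 1 0 = 0
  · refine ⟨⟨A, fun _ => 0, fun _ _ => rfl, fun z _ => ?_⟩, rfl⟩
    have h1 : dth A z = 0 := by
      refine ContinuousLinearMap.ext fun v => ?_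
      rw [dth_apply, hc]
      simp
    rw [h1]
    exact hasFDerivAt_const 0 z
  · refine ⟨⟨A, fun z => if z ∈ UH then (Complex.log (den A z)).im else 0, fun _ hz => if_neg hz,
      fun z hz => ?_⟩, rfl⟩
    refine (cs_log A hc hz).congr_of_eventuallyEq ?_
    filter_upwards [isOpen_UH.mem_nhds hz] with w hw
    exact if_pos hw

private theorem cs_convex : Convex ℝ UH := by
  intro x hx y hy a b ha hb hab
  have h1 : 0 < x.im := hx
  have h2 : 0 < y.im := hy
  show 0 < (a • x + b • y).im
  have h3 : (a • x + b • y).im = a * x.im + b * y.im := by simp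
  rw [h3]
  rcases lt_or_eq_of_le ha with h | h
  · have := mul_pos h h1
    have := mul_nonneg hb h2.le
    linarith
  · have h4 : b = 1 := by linarith
    rw [← h, h4]
    linarith

theorem pr_central (z : Cov) (hz : Cov.pr z = 1) (e : Cov) : z * e = e * z := by
  have hA : z.A = 1 := hz
  have hder : ∀ w ∈ UH, HasFDerivWithinAt z.θ (0 : ℂ →L[ℝ] ℝ) UH w := by
    intro w hw
    have h := z.der w hw
    rw [hA, dth_one] at h
    exact h.hasFDerivWithinAt
  have hconst : ∀ x ∈ UH, ∀ y ∈ UH, z.θ x = z.θ y := by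
    intro x hx y hy
    refine cs_convex.is_const_of_fderivWithin_eq_zero (𝕜 := ℝ) (fun w hw => (hder w hw).differentiableWithinAt)
      (fun w hw => (hder w hw).fderivWithin (isOpen_UH.uniqueDiffWithinAt hw)) hx hy
  refine cs_ext ?_ fun w hw => ?_
  · rw [Cov.mul_A, Cov.mul_A, hA, one_mul, mul_one]
  · rw [Cov.mul_θ _ _ hw, Cov.mul_θ _ _ hw, hA, mob_one, hconst _ (mob_mem e.A hw) _ hw, add_comm]

end RPL
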