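import Pool.Agent.RPL.Defs

/-! # RPL-Wir: a Wirtinger group lifts through central extensions

Lift the generators one after the other; the relators stay in the kernel because the extension is central.
-/

set_option linter.style.longLine false

open scoped Matrix ContDiff Topology
open Complex MeasureTheory Filter

namespace RPL

theorem wirtinger_lift {G E H : Type} [Group G] [Group E] [Group H] (hw : Wirtinger G) (p : E →* H)
    (hp : Function.Surjective p) (hcen : ∀ z : E, p z = 1 → ∀ e : E, z * e = e * z) (r : G →* H) :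
    ∃ f : G →* E, ∀ g, p (f g) = r g := by
  obtain ⟨n, x, w, hs, hk⟩ := hw
  obtain ⟨X0, hX0⟩ := hp (r (x 0))
  choose W hW using fun i : Fin n => hp (r (FreeGroup.lift x (w i)))
  obtain ⟨X, hX, hXs⟩ : ∃ X : Fin (n + 1) → E, X 0 = X0 ∧
      ∀ i : Fin n, X i.succ = W i * X i.castSucc * (W i)⁻¹ := by
    refine ⟨fun i => Fin.induction (motive := fun _ => E) X0 (fun i e => W i * e * (W i)⁻¹) i, ?_, ?_⟩
    · rfl
    · intro i
      exact Fin.induction_succ (motive := fun _ => E) X0 (fun i e => W i * e * (W i)⁻¹) i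
  have hrel : ∀ i : Fin n, FreeGroup.lift x (w i) * x i.castSucc * (FreeGroup.lift x (w i))⁻¹ = x i.succ := by
    intro i
    have h1 : w i * FreeGroup.of i.castSucc * (w i)⁻¹ * (FreeGroup.of i.succ)⁻¹ ∈ (FreeGroup.lift x).ker := by
      rw [hk]
      exact Subgroup.subset_normalClosure ⟨i, rfl⟩
    rw [MonoidHom.mem_ker, map_mul, map_mul, map_mul, map_inv, map_inv, FreeGroup.lift_apply_of,
      FreeGroup.lift_apply_of, mul_inv_eq_one] at h1
    exact h1
  have hpX : ∀ i, p (X i) = r (x i) := by
    intro i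
    induction i using Fin.induction with
    | zero => rw [hX, hX0]
    | succ i ih => rw [hXs, map_mul, map_mul, map_inv, hW, ih, ← hrel i, map_mul, map_mul, map_inv]
  have hpl : ∀ v, p (FreeGroup.lift X v) = r (FreeGroup.lift x v) := by
    intro v
    have h1 : p.comp (FreeGroup.lift X) = r.comp (FreeGroup.lift x) := by
      refine FreeGroup.ext_hom _ _ fun i => ?_
      rw [MonoidHom.comp_apply, MonoidHom.comp_apply, FreeGroup.lift_apply_of, FreeGroup.lift_apply_of, hpX]
    exact DFunLike.congr_fun h1 v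
  have hker : (FreeGroup.lift x).ker ≤ (FreeGroup.lift X).ker := by
    rw [hk]
    refine Subgroup.normalClosure_le_normal ?_
    rintro _ ⟨i, rfl⟩
    show w i * FreeGroup.of i.castSucc * (w i)⁻¹ * (FreeGroup.of i.succ)⁻¹ ∈ (FreeGroup.lift X).ker
    rw [MonoidHom.mem_ker, map_mul, map_mul, map_mul, map_inv, map_inv, FreeGroup.lift_apply_of,
      FreeGroup.lift_apply_of, mul_inv_eq_one, hXs]
    obtain ⟨z, hz⟩ : ∃ z, z = (W i)⁻¹ * FreeGroup.lift X (w i) := ⟨_, rfl⟩
    have hz1 : p z = 1 := by
      rw [hz, map_mul, map_inv, hW, hpl, inv_mul_cancel]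
    have hz2 : FreeGroup.lift X (w i) = W i * z := by
      rw [hz, mul_inv_cancel_left]
    rw [hz2, mul_inv_rev, mul_assoc (W i) z, hcen z hz1]
    group
  have heq : ∀ u v, FreeGroup.lift x u = FreeGroup.lift x v → FreeGroup.lift X u = FreeGroup.lift X v := by
    intro u v huv
    have h1 : u * v⁻¹ ∈ (FreeGroup.lift X).ker := by
      refine hker ?_
      rw [MonoidHom.mem_ker, map_mul, map_inv, huv, mul_inv_cancel]
    rw [MonoidHom.mem_ker, map_mul, map_inv, mul_inv_eq_one] at h1
    exact h1
  choose v hv using hs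
  refine ⟨MonoidHom.mk' (fun g => FreeGroup.lift X (v g)) fun a b => ?_, fun g => ?_⟩
  · rw [← map_mul]
    refine heq _ _ ?_
    rw [map_mul, hv, hv, hv]
  · show p (FreeGroup.lift X (v g)) = r g
    rw [hpl, hv]

end RPL
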