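import Pool.Agent.RPL.NoL
import Pool.Agent.RPL.CovS
import Pool.Agent.RPL.Wir

/-! # RPL-NoExt: no homomorphism of a Wirtinger group to `SL(2, ℝ)` is proper and cocompact on a subgroup

Assembled (architect).
-/

set_option linter.style.longLine false

open scoped Matrix ContDiff Topology
open Complex MeasureTheory Filter

namespace RPL

theorem no_ext {G : Type} [Group G] (hw : Wirtinger G) (r : G →* SLR) (D : Subgroup G)
    (hp : ∀ K ⊆ UH, IsCompact K → {d : D | (mob (r d) '' K ∩ K).Nonempty}.Finite)
    (hcc : ∃ K ⊆ UH, IsCompact K ∧ ∀ z ∈ UH, ∃ d : D, mob (r d) z ∈ K) : False := by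
  obtain ⟨f, hf⟩ := wirtinger_lift hw Cov.pr pr_surj pr_central r
  have hA : ∀ g : G, (f g).A = r g := hf
  refine no_lift (r.comp D.subtype) hp hcc (fun d => (f d).θ) ?_ ?_
  · intro d e z hz
    have h := Cov.mul_θ (f d) (f e) hz
    rw [hA e, ← map_mul] at h
    exact h
  · intro d z hz
    have h := (f d).der z hz
    rw [hA d] at h
    exact h

end RPL
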