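import Pool.Agent.RPL.ToUB
import Pool.Agent.RPL.Irr
import Pool.Agent.RPL.Ret
import Pool.Agent.RPL.NoExt
import Pool.Agent.RPL.CuspM

/-! # RPL-ClosM: the closed case

Assembled (architect).
-/

set_option linter.style.longLine false

open scoped Matrix ContDiff
open Complex

namespace RPL

open SXP

variable {G : Type} [Group G] {ρ : G →* SLC}

theorem closed_false (hw : Wirtinger G)
    (hpd : ∀ C : Set H3, IsCompact C → {g : G | (act (ρ g) '' C ∩ C).Nonempty}.Finite)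
    {N : Matrix (Fin 2) (Fin 2) ℂ} (hN : IsNormal N) (hcl : ClosedTG ρ (plane N)) (σ : trField ρ →+* ℝ)
    (hσ : ∀ g : G, act (ρ g) '' plane N = plane N → (ρ g).1.trace.im = 0 →
      ((σ ⟨(ρ g).1.trace, tr_mem ρ g⟩ : ℝ) : ℂ) = (ρ g).1.trace) : False := by
  obtain ⟨k, c, hc0, hk, -⟩ := std_plane hN
  obtain ⟨B, hB⟩ := realHom ρ hc0 hk
  obtain ⟨hp, hcc⟩ := toUH hN hc0 hk B hB hpd hcl
  obtain ⟨d1, m1, d2, m2, hirr⟩ := irr_pair ρ k (DN ρ N) B hB hp hcc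
  obtain ⟨r, hr⟩ := retract ρ k (DN ρ N) (fun d hd => ⟨B ⟨d, hd⟩, hB ⟨d, hd⟩⟩) m1 m2 hirr σ
    (fun d hd => hσ d (stab_of hd) (dn_real hN hd))
  have hrB : ∀ d : DN ρ N, r d = B d := fun d => cx_inj ((hr d d.2).trans (hB d).symm)
  refine no_ext hw r (DN ρ N) (fun K hK hKc => ?_) ?_
  · simpa only [hrB] using hp K hK hKc
  · simpa only [hrB] using hcc

end RPL
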