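import Pool.Agent.RPL.Mob

/-! # RPL-CoV: change of variables by a Moebius transformation -/

set_option linter.style.longLine false

open scoped Matrix ContDiff Topology
open Complex MeasureTheory Filter

namespace RPL

private theorem cv_det (q : ℂ) : (ContinuousLinearMap.mul ℝ ℂ q).det = normSq q := by
  rw [← Algebra.norm_complex_apply, Algebra.norm_apply]
  rfl

private theorem cv_deriv (A : SLR) {z : ℂ} (hz : z ∈ UH) :
    HasFDerivAt (mob A) (ContinuousLinearMap.mul ℝ ℂ ((den A z ^ 2)⁻¹)) z := by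
  have h2 := ((mob_hasDeriv A hz).hasFDerivAt).restrictScalars ℝ
  have h3 : ContinuousLinearMap.mul ℝ ℂ ((den A z ^ 2)⁻¹) =
      (ContinuousLinearMap.restrictScalars ℝ (ContinuousLinearMap.toSpanSingleton ℂ (den A z ^ 2)⁻¹) : ℂ →L[ℝ] ℂ) := by
    ext v
    simp [mul_comm]
  rw [h3]
  exact h2

private theorem cv_inj (A : SLR) : Set.InjOn (mob A) UH := by
  intro z hz w hw h
  have h1 := congrArg (mob A⁻¹) h
  rw [mob_inv A hz, mob_inv A hw] at h1
  exact h1

private theorem cv_image (A : SLR) : mob A '' UH = UH := by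
  ext z
  constructor
  · rintro ⟨w, hw, rfl⟩
    exact mob_mem A hw
  · intro hz
    exact ⟨mob A⁻¹ z, mob_mem _ hz, mob_inv' A hz⟩

theorem cov_mob (A : SLR) (F : ℂ → ℝ) :
    ∫ z in UH, ((normSq (den A z)) ^ 2)⁻¹ * F (mob A z) = ∫ z in UH, F z := by
  have h := integral_image_eq_integral_abs_det_fderiv_smul (volume : Measure ℂ) isOpen_UH.measurableSet
    (fun z hz => (cv_deriv A hz).hasFDerivWithinAt) (cv_inj A) F
  rw [cv_image] at h
  rw [h]
  apply setIntegral_congr_fun isOpen_UH.measurableSet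
  intro z hz
  show ((normSq (den A z)) ^ 2)⁻¹ * F (mob A z) =
    |(ContinuousLinearMap.mul ℝ ℂ ((den A z ^ 2)⁻¹)).det| • F (mob A z)
  rw [cv_det, abs_of_nonneg (normSq_nonneg _), smul_eq_mul, map_inv₀, map_pow]

end RPL
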