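import Pool.Agent.RPL.Defs
import Pool.Agent.SXP.MainSep

/-! # RPL-Colr: the two sides of a separating surface

From the parity lemma `ws_parity`, `col_reg` and `nest_planes`.
-/

set_option linter.style.longLine false

open scoped Matrix ContDiff
open Complex

namespace RPL

open SXP

variable {G : Type} [Group G] {ρ : G →* SLC} {P : Set (Set H3)}

private theorem cl_inv (ρ : G →* SLC) (g : G) (x : H3) : act (ρ g⁻¹) (act (ρ g) x) = x := by
  rw [← act_mul, ← map_mul, inv_mul_cancel, map_one, act_one]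

private theorem cl_inv' (ρ : G →* SLC) (g : G) (x : H3) : act (ρ g) (act (ρ g⁻¹) x) = x := by
  rw [← act_mul, ← map_mul, mul_inv_cancel, map_one, act_one]

theorem exists_col (hP : TGSurface ρ P) (hS : Separating ρ P) : ∃ U : Set H3, Col ρ P U := by
  obtain ⟨htr, U, V, hU, hV, hUn, hVn, hd, hUV, hUg, hVg⟩ := hS
  have hoff : ∀ x, x ∈ U ∪ V ↔ x ∉ ⋃₀ P := by
    intro x
    rw [hUV]
    exact Iff.rfl
  have hinv : ∀ (g : G) (x : H3), act (ρ g) x ∈ U ↔ x ∈ U := by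
    intro g x
    constructor
    · intro h
      have h1 := hUg g⁻¹ _ h
      rwa [cl_inv] at h1
    · intro h
      exact hUg g _ h
  refine ⟨U, ⟨fun x y hx hy h => col_reg hP hU hV hd hUV hx hy h, fun g x _ => hinv g x, ?_⟩⟩
  rintro S hS x y ⟨hx, hy, h⟩
  let _ := ptsAct hP
  let _ := planeAct hP
  have key := ws_parity (ws hP) (psep_smul hP)
    (fun w w' => by
      obtain ⟨g, hg⟩ := htr w w.2 w' w'.2
      exact ⟨g, Subtype.ext hg⟩)
    (fun x => x.1 ∈ U)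
    (fun x y h => col_reg hP hU hV hd hUV x.2 y.2 (fun S hS => h ⟨S, hS⟩))
    (fun g x => hinv g x.1)
    (by
      obtain ⟨x, hx⟩ := hUn
      exact ⟨⟨x, (hoff x).mp (Or.inl hx)⟩, hx⟩)
    (by
      obtain ⟨x, hx⟩ := hVn
      exact ⟨⟨x, (hoff x).mp (Or.inr hx)⟩, fun h => Set.disjoint_left.mp hd h hx⟩)
    (⟨x, hx⟩ : Pts P) ⟨y, hy⟩
  have h1 : ds (psep P) (⟨x, hx⟩ : Pts P) ⟨y, hy⟩ = 1 := by
    rw [ds_eq]
    have h2 : {S' | S' ∈ P ∧ Sep S' x y} = {S} := by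
      ext S'
      constructor
      · rintro ⟨h3, h4⟩
        exact (h S' h3).1 h4
      · intro h3
        rw [Set.mem_singleton_iff] at h3
        subst h3
        exact ⟨hS, (h S' hS).2 rfl⟩
    show {S' | S' ∈ P ∧ Sep S' x y}.ncard = 1
    rw [h2, Set.ncard_singleton]
  rw [h1] at key
  have h2 : ¬ (x ∈ U ↔ y ∈ U) := fun h3 => absurd (key.1 h3) (by decide)
  tauto

theorem same_side (hP : TGSurface ρ P) {U : Set H3} (hU : Col ρ P U) {S : Set H3} (hS : S ∈ P)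
    {x y u v : H3} (h1 : OneSep P S x y) (h2 : OneSep P S u v) (h3 : ¬ Sep S x u) : x ∈ U ↔ u ∈ U := by
  refine hU.same x u h1.1 h2.1 fun S' hS' hsep => ?_
  have off : ∀ {z : H3} {T : Set H3}, z ∉ ⋃₀ P → T ∈ P → z ∉ T := fun hz hT h => hz ⟨_, hT, h⟩
  have hne : S' ≠ S := by
    rintro rfl
    exact h3 hsep
  have h4 : ¬ Sep S' x y := fun h => hne ((h1.2.2 S' hS').1 h)
  have h5 : ¬ Sep S' u v := fun h => hne ((h2.2.2 S' hS').1 h)
  have h6 : Sep S x y := (h1.2.2 S hS).2 rfl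
  have h7 : Sep S u v := (h2.2.2 S hS).2 rfl
  have h8 : Sep S' x v := (sep_xor (hP.planes S' hS') (off h1.1 hS') (off h2.1 hS') (off h2.2.1 hS')).2
    ⟨fun _ => h5, fun _ => hsep⟩
  have h9 : Sep S x v := (sep_xor (hP.planes S hS) (off h1.1 hS) (off h2.1 hS) (off h2.2.1 hS)).2
    ⟨fun h => absurd h h3, fun h => absurd h7 h⟩
  exact nest_planes (hP.planes S hS) (hP.planes S' hS') (hP.disj S hS S' hS' (Ne.symm hne))
    ⟨off h1.1 hS, off h1.1 hS'⟩ ⟨off h1.2.1 hS, off h1.2.1 hS'⟩ ⟨off h2.1 hS, off h2.1 hS'⟩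
    ⟨off h2.2.1 hS, off h2.2.1 hS'⟩ h6 h4 h3 hsep h9 h8

theorem oneSep_act (hP : TGSurface ρ P) {S : Set H3} {x y : H3} (h : OneSep P S x y) (g : G) :
    OneSep P (act (ρ g) '' S) (act (ρ g) x) (act (ρ g) y) := by
  refine ⟨act_off hP g h.1, act_off hP g h.2.1, fun S' hS' => ?_⟩
  have h1 : act (ρ g) '' (act (ρ g⁻¹) '' S') = S' := by
    rw [Set.image_image]
    have h2 : (fun z => act (ρ g) (act (ρ g⁻¹) z)) = id := funext fun z => cl_inv' ρ g z
    rw [h2, Set.image_id]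
  have h2 : act (ρ g⁻¹) '' (act (ρ g) '' S) = S := by
    rw [Set.image_image]
    have h2 : (fun z => act (ρ g⁻¹) (act (ρ g) z)) = id := funext fun z => cl_inv ρ g z
    rw [h2, Set.image_id]
  have h3 : Sep S' (act (ρ g) x) (act (ρ g) y) ↔ Sep (act (ρ g⁻¹) '' S') x y := by
    conv_lhs => rw [← h1]
    exact sep_act (ρ g)
  rw [h3, h.2.2 _ (hP.inv g⁻¹ S' hS')]
  constructor
  · intro h4
    rw [← h4, h1]
  · intro h4
    rw [h4, h2]

theorem ne_empty (hP : TGSurface ρ P) (hS : Separating ρ P) : P.Nonempty := by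
  obtain ⟨htr, U, V, hU, hV, ⟨x, hx⟩, ⟨y, hy⟩, hd, hUV, hUg, hVg⟩ := hS
  by_contra hcon
  have h0 : P = ∅ := Set.not_nonempty_iff_eq_empty.1 hcon
  have hoff : ∀ z : H3, z ∉ ⋃₀ P := by
    rintro z ⟨S, hS, _⟩
    rw [h0] at hS
    exact hS
  have h1 := (col_reg hP hU hV hd hUV (hoff x) (hoff y) (fun S hS => by
    rw [h0] at hS
    exact absurd hS (Set.notMem_empty S))).1 hx
  exact Set.disjoint_left.1 hd h1 hy

end RPL
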