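import Pool.Agent.RPL.Defs

/-! # RPL-Coords: coordinates of a matrix in a basis with traces in a field

The trace form is nondegenerate, and Cramer's rule over the field.
-/

set_option linter.style.longLine false

open scoped Matrix ContDiff
open Complex

namespace RPL

open SXP

private theorem crd_tr {𝕜 : Type} [Field 𝕜] (e : Fin 4 → Matrix (Fin 2) (Fin 2) 𝕜) (c : Fin 4 → 𝕜)
    (M : Matrix (Fin 2) (Fin 2) 𝕜) :
    ((∑ i, c i • e i) * M).trace = ∑ i, c i * (e i * M).trace := by
  rw [Finset.sum_mul, Matrix.trace_sum]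
  refine Finset.sum_congr rfl fun i _ => ?_
  rw [Matrix.smul_mul, Matrix.trace_smul, smul_eq_mul]

theorem trace_ext {𝕜 : Type} [Field 𝕜] {e : Fin 4 → Matrix (Fin 2) (Fin 2) 𝕜} (he : LinearIndependent 𝕜 e)
    {X Y : Matrix (Fin 2) (Fin 2) 𝕜} (h : ∀ j, (X * e j).trace = (Y * e j).trace) : X = Y := by
  have hsp : Submodule.span 𝕜 (Set.range e) = ⊤ := by
    apply he.span_eq_top_of_card_eq_finrank
    rw [Module.finrank_matrix]
    simp
  have h0 : ∀ j, ((X - Y) * e j).trace = 0 := by
    intro j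
    rw [Matrix.sub_mul, Matrix.trace_sub, h j, sub_self]
  have h1 : ∀ W : Matrix (Fin 2) (Fin 2) 𝕜, ((X - Y) * W).trace = 0 := by
    intro W
    have hW : W ∈ Submodule.span 𝕜 (Set.range e) := by rw [hsp]; exact Submodule.mem_top
    induction hW using Submodule.span_induction with
    | mem W hW =>
      obtain ⟨j, rfl⟩ := hW
      exact h0 j
    | zero => rw [Matrix.mul_zero, Matrix.trace_zero]
    | add A B _ _ hA hB => rw [Matrix.mul_add, Matrix.trace_add, hA, hB, add_zero]
    | smul c A _ hA => rw [Matrix.mul_smul, Matrix.trace_smul, hA, smul_zero]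
  have h2 : X - Y = 0 := by
    ext i j
    have h3 := h1 (Matrix.single j i 1)
    rw [Matrix.trace_fin_two, Matrix.mul_apply, Matrix.mul_apply, Fin.sum_univ_two, Fin.sum_univ_two] at h3
    simp only [Matrix.single_apply] at h3
    fin_cases i <;> fin_cases j <;> simpa using h3
  exact sub_eq_zero.1 h2

theorem coords (F : IntermediateField ℚ ℂ) {e : Fin 4 → Matrix (Fin 2) (Fin 2) ℂ}
    (he : LinearIndependent ℂ e) (hF : ∀ i j, (e i * e j).trace ∈ F) {X : Matrix (Fin 2) (Fin 2) ℂ}
    (hX : ∀ j, (X * e j).trace ∈ F) : ∃ x : Fin 4 → F, X = ∑ i, (x i : ℂ) • e i := by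
  let T : Matrix (Fin 4) (Fin 4) F := fun i j => ⟨(e i * e j).trace, hF i j⟩
  have hdet : T.det ≠ 0 := by
    intro h0
    have h1 : ((algebraMap F ℂ).mapMatrix T).det = 0 := by
      rw [← RingHom.map_det, h0, map_zero]
    obtain ⟨x, hx, hx0⟩ := Matrix.exists_vecMul_eq_zero_iff.2 h1
    apply hx
    have h2 : ∑ i, x i • e i = 0 := by
      apply trace_ext he
      intro j
      rw [crd_tr, Matrix.zero_mul, Matrix.trace_zero]
      exact congrFun hx0 j
    exact funext (Fintype.linearIndependent_iff.1 he x h2)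
  let y : Fin 4 → F := fun j => ⟨(X * e j).trace, hX j⟩
  let x : Fin 4 → F := y ᵥ* T⁻¹
  have hxT : x ᵥ* T = y := by
    show (y ᵥ* T⁻¹) ᵥ* T = y
    rw [Matrix.vecMul_vecMul, Matrix.nonsing_inv_mul _ (isUnit_iff_ne_zero.2 hdet), Matrix.vecMul_one]
  refine ⟨x, trace_ext he fun j => ?_⟩
  rw [crd_tr]
  have h1 := congrArg (algebraMap F ℂ) (congrFun hxT j)
  have h2 : (x ᵥ* T) j = ∑ i, x i * T i j := rfl
  rw [h2, map_sum] at h1
  have h3 : ∀ i, algebraMap F ℂ (x i * T i j) = (x i : ℂ) * (e i * e j).trace := by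
    intro i
    rw [map_mul]
    rfl
  simp only [h3] at h1
  exact h1.symm

end RPL
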