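import Pool.Agent.RPL.Mob

/-! # RPL-CovD: the covering group of SL(2, ℝ) with a real kernel (definitions)
-/

set_option linter.style.longLine false

open scoped Matrix ContDiff Topology
open Complex MeasureTheory Filter

namespace RPL

private noncomputable def mobL (B : SLR) (z : ℂ) : ℂ →L[ℝ] ℂ :=
  ContinuousLinearMap.mul ℝ ℂ ((den B z ^ 2)⁻¹)

private theorem mob_fderiv (B : SLR) {z : ℂ} (hz : z ∈ UH) : HasFDerivAt (mob B) (mobL B z) z := by
  have h := (mob_hasDeriv B hz).hasFDerivAt.restrictScalars ℝ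
  refine h.congr_fderiv ?_
  ext v
  simp [mobL, mul_comm]

private theorem der_mul (A B : SLR) (f g : ℂ → ℝ) {z : ℂ} (hz : z ∈ UH)
    (hf : HasFDerivAt f (dth A (mob B z)) (mob B z)) (hg : HasFDerivAt g (dth B z) z) :
    HasFDerivAt (fun w => f (mob B w) + g w) (dth (A * B) z) z := by
  have h := (hf.comp z (mob_fderiv B hz)).add hg
  refine h.congr_fderiv ?_
  refine ContinuousLinearMap.ext fun v => ?_
  rw [dth_mul A B hz v]
  rfl

private theorem der_inv (A : SLR) (f : ℂ → ℝ) {z : ℂ} (hz : z ∈ UH)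
    (hf : HasFDerivAt f (dth A (mob A⁻¹ z)) (mob A⁻¹ z)) :
    HasFDerivAt (fun w => - f (mob A⁻¹ w)) (dth A⁻¹ z) z := by
  have h := (hf.comp z (mob_fderiv A⁻¹ hz)).neg
  refine h.congr_fderiv ?_
  refine ContinuousLinearMap.ext fun v => ?_
  have h1 := dth_mul A A⁻¹ hz v
  rw [mul_inv_cancel, dth_one] at h1
  have h2 : (0 : ℝ) = dth A (mob A⁻¹ z) ((den A⁻¹ z ^ 2)⁻¹ * v) + dth A⁻¹ z v := h1
  show - dth A (mob A⁻¹ z) ((den A⁻¹ z ^ 2)⁻¹ * v) = dth A⁻¹ z v
  linarith

open Classical in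
private theorem der_ite (f : ℂ → ℝ) (f' : ℂ →L[ℝ] ℝ) {z : ℂ} (hz : z ∈ UH)
    (hf : HasFDerivAt f f' z) : HasFDerivAt (fun w => if w ∈ UH then f w else 0) f' z := by
  refine hf.congr_of_eventuallyEq ?_
  filter_upwards [isOpen_UH.mem_nhds hz] with w hw
  exact if_pos hw

/-- a matrix with an additive logarithm of the argument of its automorphy factor -/
@[ext]
structure Cov where
  A : SLR
  θ : ℂ → ℝ
  out : ∀ z, z ∉ UH → θ z = 0
  der : ∀ z ∈ UH, HasFDerivAt θ (dth A z) z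

open Classical in
noncomputable instance : Mul Cov := ⟨fun a b =>
  { A := a.A * b.A
    θ := fun z => if z ∈ UH then a.θ (mob b.A z) + b.θ z else 0
    out := fun _ hz => if_neg hz
    der := fun z hz => der_ite _ _ hz
      (der_mul a.A b.A a.θ b.θ hz (a.der _ (mob_mem b.A hz)) (b.der z hz)) }⟩

noncomputable instance : One Cov := ⟨
  { A := 1
    θ := fun _ => 0
    out := fun _ _ => rfl
    der := fun z _ => by
      rw [dth_one]
      exact hasFDerivAt_const 0 z }⟩

open Classical in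
noncomputable instance : Inv Cov := ⟨fun a =>
  { A := a.A⁻¹
    θ := fun z => if z ∈ UH then - a.θ (mob a.A⁻¹ z) else 0
    out := fun _ hz => if_neg hz
    der := fun z hz => der_ite _ _ hz
      (der_inv a.A a.θ hz (a.der _ (mob_mem a.A⁻¹ hz))) }⟩

theorem Cov.mul_A (a b : Cov) : (a * b).A = a.A * b.A := rfl

theorem Cov.mul_θ (a b : Cov) {z : ℂ} (hz : z ∈ UH) : (a * b).θ z = a.θ (mob b.A z) + b.θ z := by
  classical
  exact if_pos hz

private theorem cov_one_A : (1 : Cov).A = 1 := rfl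

private theorem cov_one_θ (z : ℂ) : (1 : Cov).θ z = 0 := rfl

private theorem cov_inv_A (a : Cov) : (a⁻¹).A = a.A⁻¹ := rfl

private theorem cov_inv_θ (a : Cov) {z : ℂ} (hz : z ∈ UH) : (a⁻¹).θ z = - a.θ (mob a.A⁻¹ z) := by
  classical
  exact if_pos hz

private theorem cov_ext {a b : Cov} (hA : a.A = b.A) (h : ∀ z ∈ UH, a.θ z = b.θ z) : a = b := by
  refine Cov.ext hA (funext fun z => ?_)
  by_cases hz : z ∈ UH
  · exact h z hz
  · rw [a.out z hz, b.out z hz]

noncomputable instance : Group Cov where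
  mul_assoc := fun a b c => cov_ext (mul_assoc a.A b.A c.A) fun z hz => by
    rw [Cov.mul_θ _ _ hz, Cov.mul_θ _ _ (mob_mem c.A hz), Cov.mul_θ _ _ hz, Cov.mul_θ _ _ hz,
      Cov.mul_A, mob_mul b.A c.A hz, add_assoc]
  one_mul := fun a => cov_ext (one_mul a.A) fun z hz => by
    rw [Cov.mul_θ _ _ hz, cov_one_θ, zero_add]
  mul_one := fun a => cov_ext (mul_one a.A) fun z hz => by
    rw [Cov.mul_θ _ _ hz, cov_one_θ, cov_one_A, mob_one, add_zero]
  inv_mul_cancel := fun a => cov_ext (inv_mul_cancel a.A) fun z hz => by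
    rw [Cov.mul_θ _ _ hz, cov_inv_θ a (mob_mem a.A hz), mob_inv a.A hz, cov_one_θ, neg_add_cancel]

/-- the projection -/
noncomputable def Cov.pr : Cov →* SLR where
  toFun := fun a => a.A
  map_one' := rfl
  map_mul' := fun _ _ => rfl

end RPL
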