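import Pool.Agent.RPL.Rad
import Pool.Agent.RPL.Pts

/-! # RPL-CptA: a closed surface: its lifts are moved into a compact set

The heights of the lifts are bounded (`rad`), and the cusp group moves the points near the cusp into a compact set. -/

set_option linter.style.longLine false

open scoped Matrix ContDiff
open Complex

namespace RPL

open SXP

variable {G : Type} [Group G] {ρ : G →* SLC} {μ lam : G} {m l : ℂ} {P : Set (Set H3)}

private theorem ca_cont {X : Type} [TopologicalSpace X] {z : X → ℂ} {t : X → ℝ}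
    (hz : Continuous z) (ht : Continuous t) (h0 : ∀ x, 0 < t x) :
    Continuous fun x => pt (z x) (t x) (h0 x) := by
  have h1 : Continuous fun x => (z x).re := continuous_re.comp hz
  have h2 : Continuous fun x => (z x).im := continuous_im.comp hz
  have h3 : Continuous fun x => ((t x : ℝ) : ℂ) := continuous_ofReal.comp ht
  have h4 : ∀ x, ((t x : ℝ) : ℂ) ≠ 0 := fun x => by exact_mod_cast (h0 x).ne'
  refine Continuous.subtype_mk (continuous_matrix fun i j => ?_) _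
  fin_cases i <;> fin_cases j
  · show Continuous fun x => ((((z x).re ^ 2 + (z x).im ^ 2 + (t x) ^ 2) / (t x) : ℝ) : ℂ)
    exact continuous_ofReal.comp ((((h1.pow 2).add (h2.pow 2)).add (ht.pow 2)).div ht
      fun x => (h0 x).ne')
  · show Continuous fun x => z x / ((t x : ℝ) : ℂ)
    exact hz.div h3 h4
  · show Continuous fun x => (starRingEnd ℂ) (z x) / ((t x : ℝ) : ℂ)
    exact (continuous_conj.comp hz).div h3 h4
  · show Continuous fun x => ((1 / t x : ℝ) : ℂ)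
    exact continuous_ofReal.comp (continuous_const.div ht fun x => (h0 x).ne')

private theorem ca_pt {z z' : ℂ} {t t' : ℝ} (ht : 0 < t) (ht' : 0 < t') (h1 : z = z')
    (h2 : t = t') : pt z t ht = pt z' t' ht' := by
  subst h1
  subst h2
  rfl

private theorem ca_coord (h : LinearIndependent ℝ ![m, l]) (z : ℂ) :
    ∃ a b : ℝ, z = (a : ℂ) * m + (b : ℂ) * l := by
  have hspan : Submodule.span ℝ (Set.range ![m, l]) = ⊤ :=
    h.span_eq_top_of_card_eq_finrank' (by simp [Complex.finrank_real_complex])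
  have hz : z ∈ Submodule.span ℝ (Set.range ![m, l]) := by
    rw [hspan]
    exact Submodule.mem_top
  obtain ⟨c, hc⟩ := (Submodule.mem_span_range_iff_exists_fun ℝ).1 hz
  rw [Fin.sum_univ_two] at hc
  refine ⟨c 0, c 1, ?_⟩
  rw [← hc]
  simp

theorem planes_cpt (hc : TorusCusp ρ μ lam m l) (h1 : OneCusped ρ) (hP : TGSurface ρ P)
    (hno : ∀ S ∈ P, ¬ AtInf S) :
    ∃ C : Set H3, IsCompact C ∧ ∀ S ∈ P, ∀ x ∈ S, ∃ g : G, act (ρ g) x ∈ C := by
  obtain ⟨C0, hC0, s, hs⟩ := h1.fin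
  have hm : m ≠ 0 := by
    have h := hc.ind.ne_zero 0
    simpa using h
  have hm0 : 0 < ‖m‖ := norm_pos_iff.2 hm
  obtain ⟨lo, hlo⟩ : ∃ lo : ℝ, lo = 2 / ‖m‖ := ⟨_, rfl⟩
  have hlo0 : 0 < lo := by
    rw [hlo]
    positivity
  have hT : ∀ p : ℝ × ℝ × ℝ, 0 < 1 / max p.2.2 lo := fun p =>
    one_div_pos.2 (lt_of_lt_of_le hlo0 (le_max_right _ _))
  have hTc : Continuous fun p : ℝ × ℝ × ℝ => 1 / max p.2.2 lo :=
    continuous_const.div ((continuous_snd.comp continuous_snd).max continuous_const)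
      fun p => (lt_of_lt_of_le hlo0 (le_max_right _ _)).ne'
  have hZc : Continuous fun p : ℝ × ℝ × ℝ => (p.1 : ℂ) * m + (p.2.1 : ℂ) * l :=
    ((continuous_ofReal.comp continuous_fst).mul continuous_const).add
      ((continuous_ofReal.comp (continuous_fst.comp continuous_snd)).mul continuous_const)
  have hF := ca_cont hZc hTc hT
  have hK : IsCompact (Set.Icc (0 : ℝ) 1 ×ˢ (Set.Icc (0 : ℝ) 1 ×ˢ Set.Icc lo s)) :=
    isCompact_Icc.prod (isCompact_Icc.prod isCompact_Icc)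
  refine ⟨C0 ∪ (fun p : ℝ × ℝ × ℝ => pt ((p.1 : ℂ) * m + (p.2.1 : ℂ) * l)
    (1 / max p.2.2 lo) (hT p)) '' (Set.Icc (0 : ℝ) 1 ×ˢ (Set.Icc (0 : ℝ) 1 ×ˢ Set.Icc lo s)),
    hC0.union (hK.image hF), ?_⟩
  intro S hS x hx
  obtain ⟨g, hg⟩ := hs x
  rcases hg with hg | hg
  · exact ⟨g, Or.inl hg⟩
  · have hS' := hP.inv g S hS
    have hr := rad hc hP hS' (hno _ hS') (Set.mem_image_of_mem _ hx)
    have hge : lo ≤ ((act (ρ g) x).1 1 1).re := by
      rw [hlo, div_le_iff₀ hm0, mul_comm]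
      exact hr
    obtain ⟨z, t, ht, hy⟩ := pt_surj (act (ρ g) x)
    rw [hy, pt_11] at hge hg
    obtain ⟨a, b, hz⟩ := ca_coord hc.ind z
    refine ⟨μ ^ (-⌊a⌋) * (lam ^ (-⌊b⌋) * g), Or.inr ?_⟩
    refine ⟨(a - ⌊a⌋, (b - ⌊b⌋, 1 / t)), ⟨⟨?_, ?_⟩, ⟨?_, ?_⟩, ?_⟩, ?_⟩
    · exact sub_nonneg.2 (Int.floor_le a)
    · show a - ⌊a⌋ ≤ 1
      linarith [Int.lt_floor_add_one a]
    · exact sub_nonneg.2 (Int.floor_le b)
    · show b - ⌊b⌋ ≤ 1
      linarith [Int.lt_floor_add_one b]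
    · exact ⟨hge, hg⟩
    · rw [map_mul, map_mul, act_mul, act_mul, hy, rho_act (rho_zpow hc.hμ (-⌊a⌋)),
        rho_act (rho_zpow hc.hlam (-⌊b⌋)), tr_act, tr_act]
      refine ca_pt _ _ ?_ ?_
      · rw [hz]
        push_cast
        ring
      · show 1 / max (1 / t) lo = t
        rw [max_eq_left hge, one_div_one_div]

end RPL
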