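import Pool.Agent.RPL.Defs
import Pool.Agent.SXP.GAct

/-! # RPL-CptB: a closed surface: the stabiliser of a lift is cocompact -/

set_option linter.style.longLine false

open scoped Matrix ContDiff
open Complex

namespace RPL

open SXP

variable {G : Type} [Group G] {ρ : G →* SLC} {P : Set (Set H3)}

private theorem cb_cont (g : SLC) : Continuous (act g) := by
  unfold act
  exact Continuous.subtype_mk ((continuous_const.mul continuous_subtype_val).mul continuous_const) _

private theorem cb_img (a b : SLC) (S : Set H3) : act (a * b) '' S = act a '' (act b '' S) := by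
  rw [Set.image_image]
  refine Set.image_congr fun x _ => ?_
  exact act_mul a b x

private theorem cb_one (S : Set H3) : act (1 : SLC) '' S = S := by
  have h : act (1 : SLC) = id := funext fun x => act_one x
  rw [h, Set.image_id]

theorem closed_of_cpt (hP : TGSurface ρ P)
    (h : ∃ C : Set H3, IsCompact C ∧ ∀ S ∈ P, ∀ x ∈ S, ∃ g : G, act (ρ g) x ∈ C) {S : Set H3} (hS : S ∈ P) :
    ClosedTG ρ S := by
  classical
  obtain ⟨C, hC, hcov⟩ := h
  refine ⟨hP.planes S hS, ?_⟩
  have hfin := hP.lf.finite_nonempty_inter_compact hC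
  let F : Set (Set H3) := {Q | Q ∈ P ∧ (Q ∩ C).Nonempty ∧ ∃ h : G, act (ρ h) '' S = Q}
  have hF : F.Finite := by
    refine (hfin.image Subtype.val).subset ?_
    rintro Q ⟨h1, h2, _⟩
    exact ⟨⟨Q, h1⟩, h2, rfl⟩
  let hh : Set H3 → G := fun Q => if hx : ∃ h : G, act (ρ h) '' S = Q then hx.choose else 1
  have hhs : ∀ Q : Set H3, (∃ h : G, act (ρ h) '' S = Q) → act (ρ (hh Q)) '' S = Q := by
    intro Q hx
    show act (ρ (if hx : ∃ h : G, act (ρ h) '' S = Q then hx.choose else 1)) '' S = Q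
    rw [dif_pos hx]
    exact hx.choose_spec
  refine ⟨⋃ Q ∈ F, act (ρ (hh Q)⁻¹) '' C, hF.isCompact_biUnion fun Q _ => hC.image (cb_cont _), ?_⟩
  intro x hx
  obtain ⟨g, hg⟩ := hcov S hS x hx
  have hQ : act (ρ g) '' S ∈ F := ⟨hP.inv g S hS, ⟨act (ρ g) x, ⟨x, hx, rfl⟩, hg⟩, g, rfl⟩
  refine ⟨(hh (act (ρ g) '' S))⁻¹ * g, ?_, ?_⟩
  · rw [map_mul, cb_img]
    have h1 := hhs (act (ρ g) '' S) ⟨g, rfl⟩
    have h2 : act (ρ (hh (act (ρ g) '' S))⁻¹) '' (act (ρ (hh (act (ρ g) '' S))) '' S) = S := by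
      rw [← cb_img, ← map_mul, inv_mul_cancel, map_one, cb_one]
    rw [h1] at h2
    exact h2
  · rw [map_mul, act_mul]
    exact Set.mem_biUnion hQ ⟨_, hg, rfl⟩

end RPL
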