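import Pool.Agent.RPL.Defs

/-! # RPL-Crit: a criterion for two matrices to generate the full matrix algebra (any field) -/

set_option linter.style.longLine false

open scoped Matrix ContDiff
open Complex

namespace RPL

open SXP

private def phi4 (𝕜 : Type) [Field 𝕜] : Matrix (Fin 2) (Fin 2) 𝕜 →ₗ[𝕜] (Fin 4 → 𝕜) where
  toFun M := ![M 0 0, M 0 1, M 1 0, M 1 1]
  map_add' := by
    intro M N
    ext i
    fin_cases i <;> rfl
  map_smul' := by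
    intro c M
    ext i
    fin_cases i <;> rfl

private theorem phi4_inj (𝕜 : Type) [Field 𝕜] : Function.Injective (phi4 𝕜) := by
  intro M N h
  have h0 : M 0 0 = N 0 0 := congrFun h 0
  have h1 : M 0 1 = N 0 1 := congrFun h 1
  have h2 : M 1 0 = N 1 0 := congrFun h 2
  have h3 : M 1 1 = N 1 1 := congrFun h 3
  ext i j
  fin_cases i <;> fin_cases j
  exacts [h0, h1, h2, h3]

private theorem det4 {𝕜 : Type} [Field 𝕜] (M : Matrix (Fin 4) (Fin 4) 𝕜)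
    (h0 : M 0 0 = 1) (h1 : M 0 1 = 0) (h2 : M 0 2 = 0) (h3 : M 0 3 = 1) : M.det =
    (M 1 1 * M 2 2 * M 3 3 - M 1 1 * M 2 3 * M 3 2 - M 1 2 * M 2 1 * M 3 3 +
      M 1 2 * M 2 3 * M 3 1 + M 1 3 * M 2 1 * M 3 2 - M 1 3 * M 2 2 * M 3 1) -
    (M 1 0 * M 2 1 * M 3 2 - M 1 0 * M 2 2 * M 3 1 - M 1 1 * M 2 0 * M 3 2 +
      M 1 1 * M 2 2 * M 3 0 + M 1 2 * M 2 0 * M 3 1 - M 1 2 * M 2 1 * M 3 0) := by
  have s0 : Fin.succ (0 : Fin 3) = (1 : Fin 4) := rfl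
  have s1 : Fin.succ (1 : Fin 3) = (2 : Fin 4) := rfl
  have s2 : Fin.succ (2 : Fin 3) = (3 : Fin 4) := rfl
  have a00 : (0 : Fin 4).succAbove 0 = 1 := rfl
  have a01 : (0 : Fin 4).succAbove 1 = 2 := rfl
  have a02 : (0 : Fin 4).succAbove 2 = 3 := rfl
  have a30 : (3 : Fin 4).succAbove 0 = 0 := rfl
  have a31 : (3 : Fin 4).succAbove 1 = 1 := rfl
  have a32 : (3 : Fin 4).succAbove 2 = 2 := rfl
  have p0 : ((0 : Fin 4) : ℕ) = 0 := rfl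
  have p3 : ((3 : Fin 4) : ℕ) = 3 := rfl
  rw [Matrix.det_succ_row_zero, Fin.sum_univ_four, h0, h1, h2, h3, mul_zero, mul_zero, zero_mul,
    zero_mul, Matrix.det_fin_three,
    Matrix.det_fin_three]
  simp only [Matrix.submatrix_apply, s0, s1, s2, a00, a01, a02, a30, a31, a32, p0, p3]
  ring

theorem indep_iff {𝕜 : Type} [Field 𝕜] (A B : Matrix (Fin 2) (Fin 2) 𝕜) :
    LinearIndependent 𝕜 ![(1 : Matrix (Fin 2) (Fin 2) 𝕜), A, B, A * B] ↔ (A * B - B * A).det ≠ 0 := by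
  rw [← LinearMap.linearIndependent_iff (phi4 𝕜) (LinearMap.ker_eq_bot.2 (phi4_inj 𝕜))]
  obtain ⟨M, hM⟩ : ∃ M : Matrix (Fin 4) (Fin 4) 𝕜, ∀ i,
      M i = phi4 𝕜 ((![(1 : Matrix (Fin 2) (Fin 2) 𝕜), A, B, A * B] : Fin 4 → _) i) :=
    ⟨fun i => phi4 𝕜 ((![(1 : Matrix (Fin 2) (Fin 2) 𝕜), A, B, A * B] : Fin 4 → _) i), fun _ => rfl⟩
  have h1 : (phi4 𝕜) ∘ ![(1 : Matrix (Fin 2) (Fin 2) 𝕜), A, B, A * B] = M.row := by
    funext i
    exact (hM i).symm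
  have e0 : ∀ j, M 0 j = phi4 𝕜 1 j := fun j => congrFun (hM 0) j
  have e1 : ∀ j, M 1 j = phi4 𝕜 A j := fun j => congrFun (hM 1) j
  have e2 : ∀ j, M 2 j = phi4 𝕜 B j := fun j => congrFun (hM 2) j
  have e3 : ∀ j, M 3 j = phi4 𝕜 (A * B) j := fun j => congrFun (hM 3) j
  have q0 : ∀ X : Matrix (Fin 2) (Fin 2) 𝕜, phi4 𝕜 X 0 = X 0 0 := fun _ => rfl
  have q1 : ∀ X : Matrix (Fin 2) (Fin 2) 𝕜, phi4 𝕜 X 1 = X 0 1 := fun _ => rfl
  have q2 : ∀ X : Matrix (Fin 2) (Fin 2) 𝕜, phi4 𝕜 X 2 = X 1 0 := fun _ => rfl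
  have q3 : ∀ X : Matrix (Fin 2) (Fin 2) 𝕜, phi4 𝕜 X 3 = X 1 1 := fun _ => rfl
  have h0 : M 0 0 = 1 := by rw [e0, q0, Matrix.one_apply_eq]
  have h01 : M 0 1 = 0 := by rw [e0, q1, Matrix.one_apply_ne (by decide)]
  have h02 : M 0 2 = 0 := by rw [e0, q2, Matrix.one_apply_ne (by decide)]
  have h03 : M 0 3 = 1 := by rw [e0, q3, Matrix.one_apply_eq]
  rw [h1, Matrix.linearIndependent_rows_iff_isUnit, Matrix.isUnit_iff_isUnit_det, isUnit_iff_ne_zero,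
    det4 M h0 h01 h02 h03, Matrix.det_fin_two]
  simp only [e1, e2, e3, q0, q1, q2, q3, Matrix.sub_apply, Matrix.mul_apply, Fin.sum_univ_two]
  refine not_congr (Eq.congr ?_ rfl)
  ring

end RPL
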