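import Pool.Agent.SXP.GAct

/-! Project RPL (MP_208b40_gt): trace fields of hyperbolic knots with a separating totally geodesic surface.
Definitions.  Hyperbolic space, planes, torus cusps and surfaces are those of `Pool/Agent/SXP/Geo.lean`. -/

set_option linter.style.longLine false

open scoped Matrix ContDiff
open Complex

namespace RPL

open SXP

/-- complex and real special linear groups -/
abbrev SLC := Matrix.SpecialLinearGroup (Fin 2) ℂ
abbrev SLR := Matrix.SpecialLinearGroup (Fin 2) ℝ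

variable {G : Type} [Group G]

/-- The trace field `ℚ(tr ρ(g) : g ∈ G)`. -/
noncomputable def trField (ρ : G →* SLC) : IntermediateField ℚ ℂ :=
  IntermediateField.adjoin ℚ (Set.range fun g : G => (ρ g).1.trace)

theorem tr_mem (ρ : G →* SLC) (g : G) : (ρ g).1.trace ∈ trField ρ :=
  IntermediateField.subset_adjoin ℚ _ ⟨g, rfl⟩

/-- `G` has a Wirtinger presentation: generators `x 0, ..., x n` and the relations
`x (i+1) = w i * x i * (w i)⁻¹`, `i < n`, for some words `w i` in the generators.  Every knot group has one. -/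
def Wirtinger (G : Type) [Group G] : Prop :=
  ∃ (n : ℕ) (x : Fin (n + 1) → G) (w : Fin n → FreeGroup (Fin (n + 1))),
    Function.Surjective (FreeGroup.lift x) ∧
    (FreeGroup.lift x).ker = Subgroup.normalClosure (Set.range fun i : Fin n =>
      w i * FreeGroup.of i.castSucc * (w i)⁻¹ * (FreeGroup.of i.succ)⁻¹)

/-- `G` acts properly discontinuously on `H3`, and every orbit meets a fixed compact set or a fixed horoball
at `∞` (finite volume, and no other cusps than the one at `∞`). -/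
structure OneCusped (ρ : G →* SLC) : Prop where
  pd : ∀ C : Set H3, IsCompact C → {g : G | (act (ρ g) '' C ∩ C).Nonempty}.Finite
  fin : ∃ C : Set H3, IsCompact C ∧ ∃ s : ℝ, ∀ x : H3, ∃ g : G,
    act (ρ g) x ∈ C ∨ ((act (ρ g) x).1 1 1).re ≤ s

/-- `S` is a plane on which its stabiliser acts with compact quotient: it covers a closed (possibly only
immersed) totally geodesic surface of `H3 / G`. -/
def ClosedTG (ρ : G →* SLC) (S : Set H3) : Prop :=
  IsPlane S ∧ ∃ C : Set H3, IsCompact C ∧ ∀ x ∈ S, ∃ g : G, act (ρ g) '' S = S ∧ act (ρ g) x ∈ C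

/-- the normal of the standard plane `{Im z = 0}` -/
noncomputable def N0 : Matrix (Fin 2) (Fin 2) ℂ := !![0, I; -I, 0]

/-- complexification -/
noncomputable def cx : SLR →* SLC := Matrix.SpecialLinearGroup.map Complex.ofRealHom

/-- the elements of `G` that preserve the plane with normal `N` and its sides -/
def DN (ρ : G →* SLC) (N : Matrix (Fin 2) (Fin 2) ℂ) : Subgroup G where
  carrier := {g | (ρ g).1ᴴ * N * (ρ g).1 = N}
  mul_mem' := by
    intro a b ha hb
    simp only [Set.mem_ofPred_eq] at ha hb ⊢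
    rw [map_mul, Matrix.SpecialLinearGroup.coe_mul, Matrix.conjTranspose_mul]
    calc (ρ b).1ᴴ * (ρ a).1ᴴ * N * ((ρ a).1 * (ρ b).1) =
        (ρ b).1ᴴ * ((ρ a).1ᴴ * N * (ρ a).1) * (ρ b).1 := by simp only [Matrix.mul_assoc]
      _ = N := by rw [ha, hb]
  one_mem' := by simp
  inv_mem' := by
    intro a ha
    simp only [Set.mem_ofPred_eq] at ha ⊢
    have h1 : (ρ a).1 * (ρ a⁻¹).1 = 1 := by
      rw [← Matrix.SpecialLinearGroup.coe_mul, ← map_mul, mul_inv_cancel, map_one,
        Matrix.SpecialLinearGroup.coe_one]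
    have h2 : (ρ a⁻¹).1ᴴ * (ρ a).1ᴴ = 1 := by
      rw [← Matrix.conjTranspose_mul, h1, Matrix.conjTranspose_one]
    calc (ρ a⁻¹).1ᴴ * N * (ρ a⁻¹).1 = (ρ a⁻¹).1ᴴ * ((ρ a).1ᴴ * N * (ρ a).1) * (ρ a⁻¹).1 := by rw [ha]
      _ = ((ρ a⁻¹).1ᴴ * (ρ a).1ᴴ) * N * ((ρ a).1 * (ρ a⁻¹).1) := by simp only [Matrix.mul_assoc]
      _ = N := by rw [h1, h2, one_mul, mul_one]

/-! ### The upper half-plane -/

/-- the upper half-plane -/
def UH : Set ℂ := {z | 0 < z.im}

/-- the denominator `c z + d` -/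
noncomputable def den (A : SLR) (z : ℂ) : ℂ := (A.1 1 0 : ℂ) * z + (A.1 1 1 : ℂ)

/-- the Moebius transformation -/
noncomputable def mob (A : SLR) (z : ℂ) : ℂ := ((A.1 0 0 : ℂ) * z + (A.1 0 1 : ℂ)) / den A z

/-- the differential of the argument of `c z + d`: `v ↦ Im (c v / (c z + d))` -/
noncomputable def dth (A : SLR) (z : ℂ) : ℂ →L[ℝ] ℝ :=
  Complex.imCLM.comp (ContinuousLinearMap.mul ℝ ℂ ((A.1 1 0 : ℂ) / den A z))

theorem dth_apply (A : SLR) (z v : ℂ) : dth A z v = ((A.1 1 0 : ℂ) / den A z * v).im := rfl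

/-! ### Points, translations, sides -/

/-- the point `(z, t)` of the upper half-space -/
noncomputable def pt (z : ℂ) (t : ℝ) (ht : 0 < t) : H3 :=
  ⟨!![(((z.re ^ 2 + z.im ^ 2 + t ^ 2) / t : ℝ) : ℂ), z / (t : ℂ); (starRingEnd ℂ) z / (t : ℂ), ((1 / t : ℝ) : ℂ)], by
    have ht0 : (t : ℂ) ≠ 0 := by exact_mod_cast ht.ne'
    refine ⟨?_, ?_, ?_⟩
    · ext i j
      fin_cases i <;> fin_cases j <;> simp [Matrix.conjTranspose_apply]
    · simp only [Matrix.of_apply, Matrix.cons_val_zero, Matrix.cons_val', Complex.ofReal_re]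
      positivity
    · rw [Matrix.det_fin_two]
      simp only [Matrix.of_apply, Matrix.cons_val_zero, Matrix.cons_val_one, Matrix.cons_val']
      push_cast
      have h : z * (starRingEnd ℂ) z = (z.re : ℂ) ^ 2 + (z.im : ℂ) ^ 2 := by
        rw [Complex.mul_conj, Complex.normSq_apply]
        push_cast
        ring
      field_simp
      linear_combination -h⟩

/-- the translation by `w` -/
noncomputable def tr (w : ℂ) : SLC := ⟨!![1, w; 0, 1], by simp [Matrix.det_fin_two]⟩

/-- the points `x, y` are off the planes and are separated by `S` only -/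
def OneSep (P : Set (Set H3)) (S : Set H3) (x y : H3) : Prop :=
  x ∉ ⋃₀ P ∧ y ∉ ⋃₀ P ∧ ∀ S' ∈ P, Sep S' x y ↔ S' = S

/-- `U` is one of the two sides of the surface -/
structure Col (ρ : G →* SLC) (P : Set (Set H3)) (U : Set H3) : Prop where
  same : ∀ x y : H3, x ∉ ⋃₀ P → y ∉ ⋃₀ P → (∀ S ∈ P, ¬ Sep S x y) → (x ∈ U ↔ y ∈ U)
  inv : ∀ (g : G) (x : H3), x ∉ ⋃₀ P → (act (ρ g) x ∈ U ↔ x ∈ U)
  diff : ∀ S ∈ P, ∀ x y : H3, OneSep P S x y → (x ∈ U ↔ y ∉ U)

end RPL
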