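import Pool.Agent.RPL.Frm

/-! # RPL-Eta: the invariant 1-form -/

set_option linter.style.longLine false

open scoped Matrix ContDiff Topology
open Complex MeasureTheory Filter

namespace RPL

/-- the 1-form `dx / y + du` -/
noncomputable def eta (u : ℂ → ℝ) (z v : ℂ) : ℝ := v.re / z.im + fderiv ℝ u z v

private theorem et_dif {u : ℂ → ℝ} (hu : ContDiffOn ℝ 1 u UH) {z : ℂ} (hz : z ∈ UH) :
    HasFDerivAt u (fderiv ℝ u z) z :=
  ((hu.differentiableOn one_ne_zero).differentiableAt (isOpen_UH.mem_nhds hz)).hasFDerivAt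

theorem eta_inv {u : ℂ → ℝ} (hu : ContDiffOn ℝ 1 u UH) {A : SLR} {t : ℂ → ℝ}
    (ht : ∀ z ∈ UH, HasFDerivAt t (dth A z) z)
    (h : ∀ z ∈ UH, u (mob A z) = u z - 2 * t z) {z : ℂ} (hz : z ∈ UH) (v : ℂ) :
    eta u (mob A z) ((den A z ^ 2)⁻¹ * v) = eta u z v := by
  have h1 := et_dif hu (mob_mem A hz)
  have h2 := ((mob_hasDeriv A hz).hasFDerivAt).restrictScalars ℝ
  have h3 := h1.comp z h2
  have h4 : HasFDerivAt (fun z => u z - 2 * t z) (fderiv ℝ u z - (2 : ℝ) • dth A z) z :=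
    (et_dif hu hz).sub ((ht z hz).const_mul 2)
  have h5 : (u ∘ mob A) =ᶠ[𝓝 z] fun z => u z - 2 * t z := by
    filter_upwards [isOpen_UH.mem_nhds hz] with w hw
    exact h w hw
  have h6 := (h4.congr_of_eventuallyEq h5).unique h3
  have h7 := congrArg (fun L : ℂ →L[ℝ] ℝ => L v) h6
  have h8 : fderiv ℝ u z v - 2 * dth A z v = fderiv ℝ u (mob A z) ((den A z ^ 2)⁻¹ * v) := by
    simp [mul_comm v] at h7
    simpa using h7
  unfold eta
  rw [form_mob A hz, ← h8]
  ring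

end RPL
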