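import Pool.Agent.RPL.Defs
import Pool.Agent.SXP.Geo

/-! # RPL-Parity: a field of odd degree has a real embedding over its real subfield
-/

set_option linter.style.longLine false

open scoped Matrix ContDiff
open Complex

namespace RPL

open SXP

/-- the real subfield -/
private noncomputable def realSub (K : IntermediateField ℚ ℂ) : IntermediateField ℚ K where
  carrier := {z | (z : ℂ).im = 0}
  mul_mem' := by
    intro a b ha hb
    simp only [Set.mem_ofPred_eq] at ha hb ⊢
    simp [Complex.mul_im, ha, hb]
  one_mem' := by simp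
  add_mem' := by
    intro a b ha hb
    simp only [Set.mem_ofPred_eq] at ha hb ⊢
    simp [Complex.add_im, ha, hb]
  zero_mem' := by simp
  algebraMap_mem' := by
    intro r
    simp
  inv_mem' := by
    intro a ha
    simp only [Set.mem_ofPred_eq] at ha ⊢
    simp [Complex.inv_im, ha]

private theorem mem_realSub {K : IntermediateField ℚ ℂ} {z : K} : z ∈ realSub K ↔ (z : ℂ).im = 0 := Iff.rfl

theorem exists_real_emb {K : IntermediateField ℚ ℂ} (h : ¬ Even (Module.finrank ℚ K)) :
    ∃ σ : K →+* ℝ, ∀ z : K, (z : ℂ).im = 0 → ((σ z : ℝ) : ℂ) = z := by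
  classical
  have hpos : Module.finrank ℚ K ≠ 0 := fun h0 => h (by rw [h0]; exact Even.zero)
  have : FiniteDimensional ℚ K := FiniteDimensional.of_finrank_pos (Nat.pos_of_ne_zero hpos)
  have hmul : Module.finrank ℚ (realSub K) * Module.finrank (realSub K) K = Module.finrank ℚ K :=
    Module.finrank_mul_finrank ℚ (realSub K) K
  have : FiniteDimensional (realSub K) K := FiniteDimensional.right ℚ (realSub K) K
  have hodd : ¬ Even (Module.finrank (realSub K) K) := by
    intro he
    apply h
    rw [← hmul]
    exact he.mul_left _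
  have : Algebra.IsSeparable (realSub K) K := inferInstance
  have hcard : Fintype.card (K →ₐ[realSub K] ℂ) = Module.finrank (realSub K) K := AlgHom.card _ _ _
  have hconj : ∀ (φ : K →ₐ[realSub K] ℂ) (r : realSub K),
      (starRingEnd ℂ) (φ (algebraMap (realSub K) K r)) = algebraMap (realSub K) ℂ r := by
    intro φ r
    rw [φ.commutes]
    have : ((r : K) : ℂ).im = 0 := r.2
    exact Complex.conj_eq_iff_im.2 this
  let f : (K →ₐ[realSub K] ℂ) → (K →ₐ[realSub K] ℂ) := fun φ =>
    { toRingHom := (starRingEnd ℂ).comp φ.toRingHom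
      commutes' := fun r => hconj φ r }
  have hf : Function.Involutive f := by
    intro φ
    ext z
    exact Complex.conj_conj _
  have hfix : ∃ φ, f φ = φ := by
    have hp : ((hf.toPerm f) ^ 2 ^ 1 : Equiv.Perm (K →ₐ[realSub K] ℂ)) = 1 := by
      ext1 φ
      simp only [pow_one]
      rw [pow_two, Equiv.Perm.mul_apply]
      exact hf φ
    have : Fact (Nat.Prime 2) := ⟨Nat.prime_two⟩
    obtain ⟨φ, hφ⟩ := Equiv.Perm.exists_fixed_point_of_prime (p := 2) (n := 1)
      (by rw [hcard]; exact fun hd => hodd (even_iff_two_dvd.2 hd)) hp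
    exact ⟨φ, hφ⟩
  obtain ⟨φ, hφ⟩ := hfix
  have him : ∀ z : K, (φ z).im = 0 := by
    intro z
    have h1 : (starRingEnd ℂ) (φ z) = φ z := by
      have := congrArg (fun ψ : K →ₐ[realSub K] ℂ => ψ z) hφ
      exact this
    exact Complex.conj_eq_iff_im.1 h1
  refine ⟨{ toFun := fun z => (φ z).re, map_one' := by simp, map_mul' := ?_, map_zero' := by simp,
            map_add' := by intro a b; simp }, ?_⟩
  · intro a b
    simp [Complex.mul_re, him]
  · intro z hz
    have h1 : ((φ z).re : ℂ) = φ z := Complex.ext (by simp) (by simp [him z])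
    show (((φ z).re : ℝ) : ℂ) = z
    rw [h1]
    exact φ.commutes ⟨z, hz⟩

end RPL
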