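import Pool.Agent.RPL.ClosM
import Pool.Agent.RPL.CuspM
import Pool.Agent.RPL.CptA
import Pool.Agent.RPL.CptB
import Pool.Agent.RPL.Parity
import Pool.Agent.RPL.Colr

/-! # RPL-Fin: the theorem

Assembled (architect).
-/

set_option linter.style.longLine false

open scoped Matrix ContDiff
open Complex

namespace RPL

open SXP

variable {G : Type} [Group G] {ρ : G →* SLC} {μ lam : G} {m l : ℂ}

/-- transport of the hypothesis on `σ` along the group -/
theorem tr_move {S S' : Set H3} {h : G} (hS : act (ρ h) '' S = S') {g : G}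
    (hg : act (ρ g) '' S' = S') : act (ρ (h⁻¹ * g * h)) '' S = S ∧
      (ρ (h⁻¹ * g * h)).1.trace = (ρ g).1.trace := by
  constructor
  · have e : ∀ (a b : G) (Q : Set H3), act (ρ (a * b)) '' Q = act (ρ a) '' (act (ρ b) '' Q) := by
      intro a b Q
      rw [Set.image_image]
      simp only [map_mul, act_mul]
    rw [e, e, hS, hg, ← hS, ← e, inv_mul_cancel, map_one]
    simp only [act_one, Set.image_id']
  · rw [map_mul, map_mul, map_inv, Matrix.SpecialLinearGroup.coe_mul,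
      Matrix.SpecialLinearGroup.coe_mul, Matrix.trace_mul_cycle, ← Matrix.SpecialLinearGroup.coe_mul,
      mul_inv_cancel, Matrix.SpecialLinearGroup.coe_one, one_mul]

theorem main_emb (hc : TorusCusp ρ μ lam m l) (h1 : OneCusped ρ) (hw : Wirtinger G) {S : Set H3}
    (hS : (∃ P, TGSurface ρ P ∧ Separating ρ P ∧ S ∈ P) ∨ ClosedTG ρ S) (σ : trField ρ →+* ℝ) :
    ∃ g : G, act (ρ g) '' S = S ∧ (ρ g).1.trace.im = 0 ∧
      ((σ ⟨(ρ g).1.trace, tr_mem ρ g⟩ : ℝ) : ℂ) ≠ (ρ g).1.trace := by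
  by_contra hcon
  push Not at hcon
  have hclosed : ¬ ClosedTG ρ S := by
    intro hcl
    obtain ⟨N, hN, hSN⟩ := hcl.1
    rw [hSN] at hcl hcon
    exact closed_false hw h1.pd hN hcl σ hcon
  rcases hS with ⟨P, hP, hsep, hSP⟩ | hS
  swap
  · exact hclosed hS
  by_cases hex : ∃ S' ∈ P, AtInf S'
  swap
  · push Not at hex
    exact hclosed (closed_of_cpt hP (planes_cpt hc h1 hP hex) hSP)
  obtain ⟨S', hS', N, hN, hSN, h0⟩ := hex
  obtain ⟨h, hh⟩ := hsep.trans S hSP S' hS'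
  rw [hSN] at hS'
  refine cusp_false hc hP hsep hN h0 hS' σ fun g hg htr => ?_
  rw [← hSN] at hg
  obtain ⟨e1, e2⟩ := tr_move (ρ := ρ) hh hg
  have h3 := hcon _ e1 (by rw [e2]; exact htr)
  simp only [e2] at h3
  exact h3

theorem main_even (hc : TorusCusp ρ μ lam m l) (h1 : OneCusped ρ) (hw : Wirtinger G)
    (hS : (∃ P, TGSurface ρ P ∧ Separating ρ P) ∨ ∃ S, ClosedTG ρ S) :
    Even (Module.finrank ℚ (trField ρ)) := by
  by_contra hodd
  obtain ⟨σ, hσ⟩ := exists_real_emb hodd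
  have key : ∀ S : Set H3, ((∃ P, TGSurface ρ P ∧ Separating ρ P ∧ S ∈ P) ∨ ClosedTG ρ S) → False := by
    intro S hS'
    obtain ⟨g, -, htr, hne⟩ := main_emb hc h1 hw hS' σ
    exact hne (hσ _ htr)
  rcases hS with ⟨P, hP, hsep⟩ | ⟨S, hS⟩
  · obtain ⟨S, hSP⟩ := ne_empty hP hsep
    exact key S (Or.inl ⟨P, hP, hsep, hSP⟩)
  · exact key S (Or.inr hS)

end RPL
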