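import Pool.Agent.RPL.Vert

/-! # RPL-Next: the next vertical plane -/

set_option linter.style.longLine false

open scoped Matrix ContDiff
open Complex

namespace RPL

open SXP

variable {G : Type} [Group G] {ρ : G →* SLC} {μ lam : G} {m l : ℂ} {P : Set (Set H3)}

private theorem nx_ne {N : Matrix (Fin 2) (Fin 2) ℂ} (hN : IsNormal N) (h0 : N 0 0 = 0) : N 1 0 ≠ 0 := by
  intro h
  have := hN.2
  rw [Matrix.det_fin_two, h0, h] at this
  simp at this

private theorem nx_im {g : SLC} {a : ℂ} (h : g.1 = !![1, a; 0, 1] ∨ g.1 = -!![1, a; 0, 1]) (S : Set H3) :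
    act g '' S = act (tr a) '' S := by
  apply Set.image_congr
  intro x _
  exact rho_act h x

private theorem nx_inv {g : SLC} {a : ℂ} (h : g.1 = !![1, a; 0, 1] ∨ g.1 = -!![1, a; 0, 1]) (S : Set H3) :
    act g⁻¹ '' S = act (tr (-a)) '' S := by
  apply nx_im
  rcases h with h | h
  · left
    rw [Matrix.SpecialLinearGroup.coe_inv, Matrix.adjugate_fin_two, h]
    simp
  · right
    rw [Matrix.SpecialLinearGroup.coe_inv, Matrix.adjugate_fin_two, h]
    ext i j
    fin_cases i <;> fin_cases j <;> simp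

private theorem nx_start (hc : TorusCusp ρ μ lam m l) (hP : TGSurface ρ P) {N : Matrix (Fin 2) (Fin 2) ℂ}
    (hN : IsNormal N) (h0 : N 0 0 = 0) (hS : plane N ∈ P) :
    ∃ w : ℂ, 0 < (w * N 1 0).re ∧ act (tr w) '' plane N ∈ P := by
  have hn := nx_ne hN h0
  have key : ∀ (g : G) (a : ℂ), ((ρ g).1 = !![1, a; 0, 1] ∨ (ρ g).1 = -!![1, a; 0, 1]) →
      (a * N 1 0).re ≠ 0 → ∃ w : ℂ, 0 < (w * N 1 0).re ∧ act (tr w) '' plane N ∈ P := by
    intro g a hg ha
    rcases lt_or_gt_of_ne ha with h | h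
    · refine ⟨-a, ?_, ?_⟩
      · rw [neg_mul, Complex.neg_re]
        linarith
      · rw [← nx_inv hg, ← map_inv]
        exact hP.inv g⁻¹ _ hS
    · refine ⟨a, h, ?_⟩
      rw [← nx_im hg]
      exact hP.inv g _ hS
  by_cases h1 : (m * N 1 0).re = 0
  · by_cases h2 : (l * N 1 0).re = 0
    · exfalso
      have hind := hc.ind
      rw [LinearIndependent.pair_iff] at hind
      have h3 := hind ((l * N 1 0).im) (-(m * N 1 0).im) (by
        have h4 : ((l * N 1 0).im • m + (-(m * N 1 0).im) • l) * N 1 0 = 0 := by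
          have e1 : m * N 1 0 = ((m * N 1 0).im : ℂ) * I := by
            apply Complex.ext <;> simp [h1]
          have e2 : l * N 1 0 = ((l * N 1 0).im : ℂ) * I := by
            apply Complex.ext <;> simp [h2]
          rw [Complex.real_smul, Complex.real_smul, add_mul, mul_assoc, mul_assoc]
          conv_lhs => rw [show ((l * N 1 0).im : ℂ) * (m * N 1 0) =
            ((l * N 1 0).im : ℂ) * (((m * N 1 0).im : ℂ) * I) by rw [← e1]]
          conv_lhs => rw [show ((-(m * N 1 0).im : ℝ) : ℂ) * (l * N 1 0) =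
            ((-(m * N 1 0).im : ℝ) : ℂ) * (((l * N 1 0).im : ℂ) * I) by rw [← e2]]
          push_cast
          ring
        rcases mul_eq_zero.1 h4 with h5 | h5
        · exact h5
        · exact absurd h5 hn)
      have h5 : m * N 1 0 = 0 := by
        apply Complex.ext
        · simpa using h1
        · have h8 := neg_eq_zero.1 h3.2
          rw [h8]
          rfl
      rcases mul_eq_zero.1 h5 with h6 | h6
      · have h7 := hind 1 0 (by rw [h6]; simp)
        exact one_ne_zero h7.1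
      · exact hn h6
    · exact key lam l hc.hlam h2
  · exact key μ m hc.hμ h1

private theorem nx_inj {N : Matrix (Fin 2) (Fin 2) ℂ} (hN : IsNormal N) (h0 : N 0 0 = 0) {w w' : ℂ}
    (h : act (tr w) '' plane N = act (tr w') '' plane N) : (w * N 1 0).re = (w' * N 1 0).re := by
  have hn := nx_ne hN h0
  set z : ℂ := (((w * N 1 0).re - (N 1 1).re / 2 : ℝ) : ℂ) / N 1 0 with hz
  have hzn : (z * N 1 0).re = (w * N 1 0).re - (N 1 1).re / 2 := by
    rw [hz, div_mul_cancel₀ _ hn, Complex.ofReal_re]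
  have h1 : pt z 1 one_pos ∈ act (tr w) '' plane N := by
    rw [mem_tr_plane hN.1 h0, hzn]
    ring
  rw [h, mem_tr_plane hN.1 h0, hzn] at h1
  linarith

theorem next_plane (hc : TorusCusp ρ μ lam m l) (hP : TGSurface ρ P) {N : Matrix (Fin 2) (Fin 2) ℂ}
    (hN : IsNormal N) (h0 : N 0 0 = 0) (hS : plane N ∈ P) :
    ∃ w : ℂ, 0 < (w * N 1 0).re ∧ act (tr w) '' plane N ∈ P ∧
      ∀ w' : ℂ, 0 < (w' * N 1 0).re → (w' * N 1 0).re < (w * N 1 0).re → act (tr w') '' plane N ∉ P := by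
  classical
  obtain ⟨w0, hw0, hw0P⟩ := nx_start hc hP hN h0 hS
  set g : ℂ → Set H3 := fun w => act (tr w) '' plane N with hg
  set W : Set ℂ := {w | 0 < (w * N 1 0).re ∧ (w * N 1 0).re ≤ (w0 * N 1 0).re ∧ g w ∈ P} with hW
  have hfin : (g '' W).Finite := by
    refine (vert_fin hP hN h0 (w0 * N 1 0).re).subset ?_
    rintro _ ⟨w, ⟨h1, h2, h3⟩, rfl⟩
    exact ⟨h3, w, by rw [abs_of_pos h1]; exact h2, rfl⟩
  have hne : (g '' W).Nonempty := ⟨g w0, w0, ⟨hw0, le_rfl, hw0P⟩, rfl⟩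
  set h' : Set H3 → ℝ := fun S' => if hS' : ∃ w, S' = g w then (hS'.choose * N 1 0).re else 0 with hh'
  have hh : ∀ w, h' (g w) = (w * N 1 0).re := by
    intro w
    have hex : ∃ v, g w = g v := ⟨w, rfl⟩
    simp only [hh']
    rw [dif_pos hex]
    exact (nx_inj hN h0 hex.choose_spec).symm
  obtain ⟨S', ⟨w, hwW, rfl⟩, hmin⟩ := Set.exists_min_image (g '' W) h' hfin hne
  refine ⟨w, hwW.1, hwW.2.2, fun w' hw'1 hw'2 hw'P => ?_⟩
  have h1 := hmin (g w') ⟨w', ⟨hw'1, hw'2.le.trans hwW.2.1, hw'P⟩, rfl⟩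
  rw [hh, hh] at h1
  linarith

end RPL
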