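import Pool.Agent.RPL.Strip
import Pool.Agent.RPL.Next
import Pool.Agent.RPL.Colr
import Pool.Agent.RPL.PlEq

/-! # RPL-Flip: an element of the group that moves the next vertical plane back and exchanges the sides -/

set_option linter.style.longLine false

open scoped Matrix ContDiff
open Complex

namespace RPL

open SXP

variable {G : Type} [Group G] {ρ : G →* SLC} {μ lam : G} {m l : ℂ} {P : Set (Set H3)}

theorem exists_flip (hc : TorusCusp ρ μ lam m l) (hP : TGSurface ρ P) (hS : Separating ρ P)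
    {N : Matrix (Fin 2) (Fin 2) ℂ} (hN : IsNormal N) (h0 : N 0 0 = 0) (hmem : plane N ∈ P) :
    ∃ (g : G) (w : ℂ), (ρ g * tr w).1ᴴ * N * (ρ g * tr w).1 = -N := by
  obtain ⟨w, hw, hS1, hmin⟩ := next_plane hc hP hN h0 hmem
  obtain ⟨x, x', y, y', hx, hy, hyx, hns⟩ := strip hc hP hN h0 hmem hw hS1 hmin
  obtain ⟨U, hU⟩ := exists_col hP hS
  obtain ⟨g, hg⟩ := hS.trans _ hS1 _ hmem
  have hX : act (ρ g * tr w) '' plane N = plane N := by
    rw [Set.image_image] at hg
    have h1 : act (ρ g * tr w) = fun z => act (ρ g) (act (tr w) z) := funext fun z => act_mul _ _ z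
    rw [h1]
    exact hg
  rcases stab_cases hN hX with h | h
  · exfalso
    have hq : OneSep P (plane N) (act (ρ g) y) (act (ρ g) y') := by
      have h1 := oneSep_act hP hy g
      rwa [hg] at h1
    have h2 : act (ρ g) y = act (ρ g * tr w) x := by
      rw [hyx, act_mul]
    have h3 : ¬ Sep (plane N) (act (ρ g) y) x := by
      rw [sep_iff hN, h2, lin_act, h]
      exact not_lt.2 (mul_self_nonneg _)
    have h4 := same_side hP hU hmem hq hx h3
    have h5 := hU.inv g y hy.1
    have h6 := hU.same x' y hx.2.1 hy.1 hns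
    have h7 := hU.diff (plane N) hmem x x' hx
    have h8 : x ∈ U ↔ x' ∈ U := h4.symm.trans (h5.trans h6.symm)
    by_cases h9 : x' ∈ U
    · exact h7.1 (h8.2 h9) h9
    · exact h9 (h8.1 (h7.2 h9))
  · exact ⟨g, w, h⟩

end RPL
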