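import Pool.Agent.RPL.Mob

/-! # RPL-Frm: the form dx / y under Moebius transformations -/

set_option linter.style.longLine false

open scoped Matrix ContDiff Topology
open Complex MeasureTheory Filter

namespace RPL

theorem form_mob (A : SLR) {z : ℂ} (hz : z ∈ UH) (v : ℂ) :
    ((den A z ^ 2)⁻¹ * v).re / (mob A z).im = v.re / z.im + 2 * dth A z v := by
  have hD := den_ne A hz
  have hy : 0 < z.im := hz
  have hy' : z.im ≠ 0 := hy.ne'
  have him : (den A z).im = A.1 1 0 * z.im := by
    unfold den
    simp
  have hconj : (starRingEnd ℂ) (den A z) = den A z - 2 * I * ((A.1 1 0 : ℂ) * (z.im : ℂ)) := by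
    apply Complex.ext
    · simp
    · rw [Complex.conj_im, Complex.sub_im, him]
      simp
      ring
  have hN : ((normSq (den A z) : ℝ) : ℂ) = den A z * (starRingEnd ℂ) (den A z) := (Complex.mul_conj _).symm
  have key : ((normSq (den A z) : ℝ) : ℂ) * ((den A z ^ 2)⁻¹ * v) =
      v + ((z.im : ℝ) : ℂ) * (-(2 * I) * ((A.1 1 0 : ℂ) / den A z * v)) := by
    rw [hN, hconj]
    field_simp
    ring
  have hre := congrArg Complex.re key
  rw [Complex.re_ofReal_mul, Complex.add_re, Complex.re_ofReal_mul] at hre
  have h2 : (-(2 * I) * ((A.1 1 0 : ℂ) / den A z * v)).re = 2 * dth A z v := by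
    rw [dth_apply]
    generalize (A.1 1 0 : ℂ) / den A z * v = w
    simp
  rw [h2] at hre
  have hn : 0 < normSq (den A z) := Complex.normSq_pos.2 hD
  rw [im_mob A hz, div_div_eq_mul_div, mul_comm, hre]
  field_simp

end RPL
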