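import Pool.Agent.RPL.Bra

/-! # RPL-Ibp: integration by parts: the bracket of the bump function has a negative integral
-/

set_option linter.style.longLine false

open scoped Matrix ContDiff Topology
open Complex MeasureTheory Filter

namespace RPL

private theorem cd1 {K : Set ℂ} (hK : IsCompact K) {f : ℂ → ℝ} {n : WithTop ℕ∞}
    (hf : ContDiffOn ℝ n f UH) (h0 : ∀ z, z ∉ K → f z = 0) (hKU : K ⊆ UH) :
    ContDiff ℝ n f ∧ HasCompactSupport f := by
  refine ⟨?_, HasCompactSupport.intro hK h0⟩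
  rw [contDiff_iff_contDiffAt]
  intro z
  by_cases hz : z ∈ UH
  · exact hf.contDiffAt (isOpen_UH.mem_nhds hz)
  · have hzK : z ∈ Kᶜ := fun h => hz (hKU h)
    have : f =ᶠ[𝓝 z] fun _ => 0 := by
      filter_upwards [hK.isClosed.isOpen_compl.mem_nhds hzK] with y hy
      exact h0 y hy
    exact contDiffAt_const.congr_of_eventuallyEq this

private theorem int_zero {f : ℂ → ℝ} (hf : ContDiff ℝ 1 f) (hc : HasCompactSupport f) (v : ℂ) :
    Integrable (fun z => fderiv ℝ f z v) ∧ ∫ z, fderiv ℝ f z v = 0 := by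
  have hcont : Continuous (fun z => fderiv ℝ f z v) :=
    (hf.continuous_fderiv one_ne_zero).clm_apply continuous_const
  have hint : Integrable (fun z => fderiv ℝ f z v) :=
    hcont.integrable_of_hasCompactSupport (hc.fderiv_apply ℝ v)
  refine ⟨hint, ?_⟩
  have h := integral_mul_fderiv_eq_neg_fderiv_mul_of_integrable (μ := volume)
    (f := fun _ : ℂ => (1 : ℝ)) (g := f) (v := v) (by simp) (by simpa using hint)
    (by simpa using hf.continuous.integrable_of_hasCompactSupport hc)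
    (fun x _ => differentiableAt_const _) (fun x _ => (hf.differentiable one_ne_zero) x)
  simpa using h

theorem bra_neg {u φ : ℂ → ℝ} (hu : ContDiffOn ℝ 1 u UH) (hφ : ContDiff ℝ ∞ φ)
    (hc : HasCompactSupport φ) (hs : tsupport φ ⊆ UH) (h0 : ∀ z, 0 ≤ φ z) (hpos : ∃ z, 0 < φ z) :
    ∫ z in UH, bra u φ z < 0 := by
  have hne : (∞ : WithTop ℕ∞) ≠ 0 := by simp
  have hK : IsCompact (tsupport φ) := hc
  -- derivatives of φ
  have hφ1 : ContDiff ℝ ∞ (fun z => fderiv ℝ φ z) := hφ.fderiv_right (by simp)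
  have hd : ∀ v : ℂ, ContDiff ℝ ∞ (fun z => fderiv ℝ φ z v) := fun v => hφ1.clm_apply contDiff_const
  have hd0 : ∀ v z, z ∉ tsupport φ → fderiv ℝ φ z v = 0 := by
    intro v z hz
    have : fderiv ℝ φ z = 0 := by
      by_contra h
      exact hz (support_fderiv_subset ℝ (Function.mem_support.2 h))
    rw [this]; rfl
  have hφ0 : ∀ z, z ∉ tsupport φ → φ z = 0 := fun z hz => image_eq_zero_of_notMem_tsupport hz
  have him : ContDiffOn ℝ ∞ (fun z : ℂ => z.im) UH := Complex.imCLM.contDiff.contDiffOn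
  have hy0 : ∀ z ∈ UH, z.im ≠ 0 := fun z hz => (ne_of_gt hz)
  -- the four functions
  set F1 : ℂ → ℝ := fun z => fderiv ℝ φ z 1 * u z with hF1
  set F2 : ℂ → ℝ := fun z => fderiv ℝ φ z I * u z with hF2
  set F3 : ℂ → ℝ := fun z => φ z / z.im with hF3
  set F4 : ℂ → ℝ := fun z => φ z / z.im ^ 2 with hF4
  have c1 := cd1 hK (f := F1) (n := 1) (((hd 1).of_le (by simp)).contDiffOn.mul hu)
    (fun z hz => by rw [hF1]; simp only [hd0 1 z hz, zero_mul]) hs
  have c2 := cd1 hK (f := F2) (n := 1) (((hd I).of_le (by simp)).contDiffOn.mul hu)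
    (fun z hz => by rw [hF2]; simp only [hd0 I z hz, zero_mul]) hs
  have c3 := cd1 hK (f := F3) (n := 1) ((hφ.contDiffOn.div him hy0).of_le (by simp))
    (fun z hz => by rw [hF3]; simp only [hφ0 z hz, zero_div]) hs
  have c4 := cd1 hK (f := F4) (n := 1) ((hφ.contDiffOn.div (him.pow 2)
    (fun z hz => pow_ne_zero 2 (hy0 z hz))).of_le (by simp))
    (fun z hz => by rw [hF4]; simp only [hφ0 z hz, zero_div]) hs
  obtain ⟨i1, e1⟩ := int_zero c1.1 c1.2 I
  obtain ⟨i2, e2⟩ := int_zero c2.1 c2.2 1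
  obtain ⟨i3, e3⟩ := int_zero c3.1 c3.2 I
  have i4 : Integrable F4 := c4.1.continuous.integrable_of_hasCompactSupport c4.2
  -- the pointwise identity
  have key : ∀ z ∈ UH, bra u φ z = fderiv ℝ F1 z I - fderiv ℝ F2 z 1 - fderiv ℝ F3 z I - F4 z := by
    intro z hz
    have du : DifferentiableAt ℝ u z :=
      (hu.contDiffAt (isOpen_UH.mem_nhds hz)).differentiableAt one_ne_zero
    have dv : ∀ v : ℂ, DifferentiableAt ℝ (fun z => fderiv ℝ φ z v) z := fun v =>
      ((hd v).differentiable hne) z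
    have dφ : DifferentiableAt ℝ φ z := (hφ.differentiable hne) z
    have dim : HasFDerivAt (fun z : ℂ => z.im) Complex.imCLM z := Complex.imCLM.hasFDerivAt
    have ev : ∀ v w : ℂ, fderiv ℝ (fun z => fderiv ℝ φ z v) z w = fderiv ℝ (fderiv ℝ φ) z w v := by
      intro v w
      have h1 : HasFDerivAt (fderiv ℝ φ) (fderiv ℝ (fderiv ℝ φ) z) z :=
        ((hφ1.differentiable hne) z).hasFDerivAt
      have h2 := h1.clm_apply (hasFDerivAt_const v z)
      rw [h2.fderiv]
      simp
    have hsym : fderiv ℝ (fderiv ℝ φ) z I 1 = fderiv ℝ (fderiv ℝ φ) z 1 I :=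
      (hφ.contDiffAt.isSymmSndFDerivAt (by simp only [minSmoothness_of_isRCLikeNormedField]; exact WithTop.coe_le_coe.2 le_top)) I 1
    have f1 : fderiv ℝ F1 z I = fderiv ℝ (fderiv ℝ φ) z I 1 * u z + fderiv ℝ φ z 1 * fderiv ℝ u z I := by
      rw [hF1, fderiv_fun_mul (dv 1) du]
      simp only [add_apply, smul_apply, smul_eq_mul, ev]
      ring
    have f2 : fderiv ℝ F2 z 1 = fderiv ℝ (fderiv ℝ φ) z 1 I * u z + fderiv ℝ φ z I * fderiv ℝ u z 1 := by
      rw [hF2, fderiv_fun_mul (dv I) du]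
      simp only [add_apply, smul_apply, smul_eq_mul, ev]
      ring
    have f3 : fderiv ℝ F3 z I = fderiv ℝ φ z I / z.im - φ z / z.im ^ 2 := by
      have h := dφ.hasFDerivAt.mul ((hasDerivAt_inv (hy0 z hz)).comp_hasFDerivAt z dim)
      have h' : HasFDerivAt F3 (φ z • (-(z.im ^ 2)⁻¹) • Complex.imCLM + (z.im)⁻¹ • fderiv ℝ φ z) z := by
        refine h.congr_of_eventuallyEq ?_ |>.congr_fderiv ?_
        · exact Filter.Eventually.of_forall fun w => by simp [hF3, div_eq_mul_inv]
        · rfl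
      rw [h'.fderiv]
      simp only [add_apply, smul_apply, smul_eq_mul, Complex.imCLM_apply, Complex.I_im]
      field_simp
      ring
    rw [f1, f2, f3]
    simp only [bra, eta, Complex.I_re, Complex.one_re, zero_div, zero_add, hF4]
    rw [hsym]
    ring
  have hz0 : ∀ z, z ∉ UH → fderiv ℝ F1 z I - fderiv ℝ F2 z 1 - fderiv ℝ F3 z I - F4 z = 0 := by
    intro z hz
    have hzK : z ∉ tsupport φ := fun h => hz (hs h)
    have hev : ∀ᶠ w in 𝓝 z, w ∉ tsupport φ := hK.isClosed.isOpen_compl.mem_nhds hzK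
    have g : ∀ F : ℂ → ℝ, (∀ w, w ∉ tsupport φ → F w = 0) → ∀ v, fderiv ℝ F z v = 0 := by
      intro F hF v
      have : F =ᶠ[𝓝 z] fun _ => 0 := hev.mono fun w hw => hF w hw
      rw [this.fderiv_eq]; simp
    rw [g F1 (fun w hw => by rw [hF1]; simp only [hd0 1 w hw, zero_mul]),
      g F2 (fun w hw => by rw [hF2]; simp only [hd0 I w hw, zero_mul]),
      g F3 (fun w hw => by rw [hF3]; simp only [hφ0 w hw, zero_div]), hF4]
    simp [hφ0 z hzK]
  have hmeas : MeasurableSet UH := isOpen_UH.measurableSet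
  have i12 : Integrable (fun z => fderiv ℝ F1 z I - fderiv ℝ F2 z 1) := i1.sub i2
  have i123 : Integrable (fun z => fderiv ℝ F1 z I - fderiv ℝ F2 z 1 - fderiv ℝ F3 z I) := i12.sub i3
  have hI : ∫ z in UH, bra u φ z = - ∫ z, F4 z := by
    rw [setIntegral_congr_fun hmeas key, setIntegral_eq_integral_of_forall_compl_eq_zero
      (fun z hz => hz0 z hz), integral_sub i123 i4, integral_sub i12 i3,
      integral_sub i1 i2, e1, e2, e3]
    ring
  rw [hI, neg_lt_zero]
  obtain ⟨z, hz⟩ := hpos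
  have hzU : z ∈ UH := hs (subset_tsupport φ (Function.mem_support.2 hz.ne'))
  refine c4.1.continuous.integral_pos_of_hasCompactSupport_nonneg_nonzero c4.2
    (fun w => div_nonneg (h0 w) (sq_nonneg _)) (x := z) ?_
  rw [hF4]
  exact div_ne_zero hz.ne' (pow_ne_zero 2 (hy0 z hzU))

end RPL
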