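import Pool.Agent.RPL.Crit

/-! # RPL-IrrC: a group of real matrices without an irreducible pair has a common fixed point -/

set_option linter.style.longLine false

open scoped Matrix ContDiff
open Complex

namespace RPL

open SXP

/-- `(t, 1)` is an eigenvector -/
private def Fx (M : SLR) (t : ℂ) : Prop :=
  (M.1 0 0 : ℂ) * t + (M.1 0 1 : ℂ) = t * ((M.1 1 0 : ℂ) * t + (M.1 1 1 : ℂ))

private theorem det_one (M : SLR) :
    (M.1 0 0 : ℂ) * (M.1 1 1 : ℂ) - (M.1 0 1 : ℂ) * (M.1 1 0 : ℂ) = 1 := by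
  have h := M.2
  rw [Matrix.det_fin_two] at h
  exact_mod_cast congrArg (fun r : ℝ => (r : ℂ)) h

private theorem mul_entries (M N : SLR) :
    ((M * N).1 0 0 : ℂ) = (M.1 0 0 : ℂ) * (N.1 0 0 : ℂ) + (M.1 0 1 : ℂ) * (N.1 1 0 : ℂ) ∧
    ((M * N).1 0 1 : ℂ) = (M.1 0 0 : ℂ) * (N.1 0 1 : ℂ) + (M.1 0 1 : ℂ) * (N.1 1 1 : ℂ) ∧
    ((M * N).1 1 0 : ℂ) = (M.1 1 0 : ℂ) * (N.1 0 0 : ℂ) + (M.1 1 1 : ℂ) * (N.1 1 0 : ℂ) ∧
    ((M * N).1 1 1 : ℂ) = (M.1 1 0 : ℂ) * (N.1 0 1 : ℂ) + (M.1 1 1 : ℂ) * (N.1 1 1 : ℂ) := by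
  refine ⟨?_, ?_, ?_, ?_⟩ <;>
  · rw [Matrix.SpecialLinearGroup.coe_mul, Matrix.mul_apply, Fin.sum_univ_two]
    push_cast
    rfl

private theorem den_ne (N : SLR) {t : ℂ} (h : Fx N t) : (N.1 1 0 : ℂ) * t + (N.1 1 1 : ℂ) ≠ 0 := by
  intro h0
  unfold Fx at h
  rw [h0, mul_zero] at h
  have hd := det_one N
  have h1 : (N.1 0 0 : ℂ) * (N.1 1 1 : ℂ) - (N.1 0 1 : ℂ) * (N.1 1 0 : ℂ) = 0 := by
    linear_combination (N.1 0 0 : ℂ) * h0 - (N.1 1 0 : ℂ) * h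
  rw [h1] at hd
  exact zero_ne_one hd

private theorem fx_left {M N : SLR} {t : ℂ} (h : Fx (M * N) t) (hN : Fx N t) : Fx M t := by
  have hμ := den_ne N hN
  unfold Fx at h hN ⊢
  obtain ⟨e1, e2, e3, e4⟩ := mul_entries M N
  rw [e1, e2, e3, e4] at h
  apply mul_left_cancel₀ hμ
  linear_combination h + (-(M.1 0 0 : ℂ) + t * (M.1 1 0 : ℂ)) * hN

private theorem fx_right {M N : SLR} {t : ℂ} (h : Fx (M * N) t) (hM : Fx M t) : Fx N t := by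
  unfold Fx at h hM ⊢
  obtain ⟨e1, e2, e3, e4⟩ := mul_entries M N
  rw [e1, e2, e3, e4] at h
  have hd := det_one M
  have h1 : ((M.1 0 0 : ℂ) - t * (M.1 1 0 : ℂ)) * ((M.1 1 0 : ℂ) * t + (M.1 1 1 : ℂ)) = 1 := by
    linear_combination hd + (M.1 1 0 : ℂ) * hM
  have h2 : ((M.1 0 0 : ℂ) - t * (M.1 1 0 : ℂ)) * ((N.1 0 0 : ℂ) * t + (N.1 0 1 : ℂ) -
      t * ((N.1 1 0 : ℂ) * t + (N.1 1 1 : ℂ))) = 0 := by
    linear_combination h - ((N.1 1 0 : ℂ) * t + (N.1 1 1 : ℂ)) * hM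
  have h3 : (M.1 0 0 : ℂ) - t * (M.1 1 0 : ℂ) ≠ 0 := by
    intro h0
    rw [h0, zero_mul] at h1
    exact zero_ne_one h1
  exact sub_eq_zero.1 ((mul_eq_zero.1 h2).resolve_left h3)

private theorem root_or (a b c d a' b' c' d' t1 t2 : ℂ) (hc : c ≠ 0) (h1 : a - d = c * (t1 + t2))
    (h2 : b = -(c * (t1 * t2)))
    (hdet : ((a * a' + b * c') - (a' * a + b' * c)) * ((c * b' + d * d') - (c' * b + d' * d)) -
      ((a * b' + b * d') - (a' * b + b' * d)) * ((c * a' + d * c') - (c' * a + d' * c)) = 0) :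
    a' * t1 + b' = t1 * (c' * t1 + d') ∨ a' * t2 + b' = t2 * (c' * t2 + d') := by
  have h3 : a = d + c * (t1 + t2) := by linear_combination h1
  subst h3
  subst h2
  have h4 : c ^ 2 * ((a' * t1 + b' - t1 * (c' * t1 + d')) * (a' * t2 + b' - t2 * (c' * t2 + d'))) = 0 := by
    linear_combination -hdet
  rcases mul_eq_zero.1 ((mul_eq_zero.1 h4).resolve_left (pow_ne_zero 2 hc)) with h5 | h5
  · exact Or.inl (sub_eq_zero.1 h5)
  · exact Or.inr (sub_eq_zero.1 h5)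

private theorem det_expr (A M : SLR) (h : (A.1 * M.1 - M.1 * A.1).det = 0) :
    (((A.1 0 0 : ℂ) * (M.1 0 0 : ℂ) + (A.1 0 1 : ℂ) * (M.1 1 0 : ℂ)) - ((M.1 0 0 : ℂ) * (A.1 0 0 : ℂ) + (M.1 0 1 : ℂ) * (A.1 1 0 : ℂ))) *
      (((A.1 1 0 : ℂ) * (M.1 0 1 : ℂ) + (A.1 1 1 : ℂ) * (M.1 1 1 : ℂ)) - ((M.1 1 0 : ℂ) * (A.1 0 1 : ℂ) + (M.1 1 1 : ℂ) * (A.1 1 1 : ℂ))) -
      (((A.1 0 0 : ℂ) * (M.1 0 1 : ℂ) + (A.1 0 1 : ℂ) * (M.1 1 1 : ℂ)) - ((M.1 0 0 : ℂ) * (A.1 0 1 : ℂ) + (M.1 0 1 : ℂ) * (A.1 1 1 : ℂ))) *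
      (((A.1 1 0 : ℂ) * (M.1 0 0 : ℂ) + (A.1 1 1 : ℂ) * (M.1 1 0 : ℂ)) - ((M.1 1 0 : ℂ) * (A.1 0 0 : ℂ) + (M.1 1 1 : ℂ) * (A.1 1 0 : ℂ))) = 0 := by
  rw [Matrix.det_fin_two] at h
  simp only [Matrix.sub_apply, Matrix.mul_apply, Fin.sum_univ_two] at h
  exact_mod_cast congrArg (fun r : ℝ => (r : ℂ)) h

private theorem fx_conj {M : SLR} {t : ℂ} (h : Fx M t) : Fx M ((starRingEnd ℂ) t) := by
  unfold Fx at h ⊢
  have h1 := congrArg (starRingEnd ℂ) h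
  simp only [map_add, map_mul, Complex.conj_ofReal] at h1
  exact h1

private theorem fx_mob {M : SLR} {t : ℂ} (h : Fx M t) : mob M t = t := by
  unfold mob den
  rw [div_eq_iff (den_ne M h)]
  exact h

theorem irr_cases {D : Type} [Group D] (B : D →* SLR)
    (h : ∀ d1 d2 : D, ¬ LinearIndependent ℝ
      ![(1 : Matrix (Fin 2) (Fin 2) ℝ), (B d1).1, (B d2).1, (B d1).1 * (B d2).1]) :
    (∃ z ∈ UH, ∀ d : D, mob (B d) z = z) ∨
      ∃ v : Fin 2 → ℝ, v ≠ 0 ∧ ∀ d : D, ∃ c : ℝ, (B d).1.mulVec v = c • v := by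
  have hdet : ∀ d1 d2 : D, ((B d1).1 * (B d2).1 - (B d2).1 * (B d1).1).det = 0 := by
    intro d1 d2
    by_contra h0
    exact h d1 d2 ((indep_iff _ _).2 h0)
  by_cases hall : ∀ d : D, (B d).1 1 0 = 0
  · right
    refine ⟨![1, 0], ?_, fun d => ⟨(B d).1 0 0, ?_⟩⟩
    · intro h0
      have := congrFun h0 0
      simp at this
    · ext i
      fin_cases i
      · simp [Matrix.mulVec, dotProduct, Fin.sum_univ_two]
      · simp [Matrix.mulVec, dotProduct, Fin.sum_univ_two, hall d]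
  push Not at hall
  obtain ⟨e, he⟩ := hall
  have hc : ((B e).1 1 0 : ℂ) ≠ 0 := by exact_mod_cast he
  obtain ⟨s, hs⟩ := IsAlgClosed.exists_eq_mul_self
    ((((B e).1 0 0 : ℂ) - ((B e).1 1 1 : ℂ)) ^ 2 + 4 * ((B e).1 0 1 : ℂ) * ((B e).1 1 0 : ℂ))
  obtain ⟨t1, ht1⟩ : ∃ t1, t1 = ((((B e).1 0 0 : ℂ) - ((B e).1 1 1 : ℂ)) + s) / (2 * ((B e).1 1 0 : ℂ)) := ⟨_, rfl⟩
  obtain ⟨t2, ht2⟩ : ∃ t2, t2 = ((((B e).1 0 0 : ℂ) - ((B e).1 1 1 : ℂ)) - s) / (2 * ((B e).1 1 0 : ℂ)) := ⟨_, rfl⟩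
  have hsum : ((B e).1 0 0 : ℂ) - ((B e).1 1 1 : ℂ) = ((B e).1 1 0 : ℂ) * (t1 + t2) := by
    rw [ht1, ht2]
    field_simp
    ring
  have hprod : ((B e).1 0 1 : ℂ) = -(((B e).1 1 0 : ℂ) * (t1 * t2)) := by
    rw [ht1, ht2]
    field_simp
    linear_combination hs
  have hor : ∀ d : D, Fx (B d) t1 ∨ Fx (B d) t2 := by
    intro d
    exact root_or _ _ _ _ _ _ _ _ t1 t2 hc hsum hprod (det_expr (B e) (B d) (hdet e d))
  have hcom : ∃ t : ℂ, ∀ d : D, Fx (B d) t := by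
    by_contra hcon
    push Not at hcon
    obtain ⟨d1, h1⟩ := hcon t1
    obtain ⟨d2, h2⟩ := hcon t2
    have h3 : Fx (B d1) t2 := (hor d1).resolve_left h1
    have h4 : Fx (B d2) t1 := (hor d2).resolve_right h2
    rcases hor (d1 * d2) with h5 | h5
    · rw [map_mul] at h5
      exact h1 (fx_left h5 h4)
    · rw [map_mul] at h5
      exact h2 (fx_right h5 h3)
  obtain ⟨t, ht⟩ := hcom
  rcases lt_trichotomy t.im 0 with hlt | heq | hgt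
  · left
    refine ⟨(starRingEnd ℂ) t, ?_, fun d => fx_mob (fx_conj (ht d))⟩
    show 0 < ((starRingEnd ℂ) t).im
    rw [Complex.conj_im]
    linarith
  · right
    have htr : t = (t.re : ℂ) := by
      apply Complex.ext
      · simp
      · simp [heq]
    refine ⟨![t.re, 1], ?_, fun d => ⟨(B d).1 1 0 * t.re + (B d).1 1 1, ?_⟩⟩
    · intro h0
      have := congrFun h0 1
      simp at this
    · have h1 := ht d
      unfold Fx at h1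
      rw [htr] at h1
      have h2 : (B d).1 0 0 * t.re + (B d).1 0 1 = t.re * ((B d).1 1 0 * t.re + (B d).1 1 1) := by
        exact_mod_cast h1
      ext i
      fin_cases i
      · simp only [Matrix.mulVec, dotProduct, Fin.sum_univ_two, Pi.smul_apply, smul_eq_mul, Fin.zero_eta,
          Matrix.cons_val_zero, Matrix.cons_val_one]
        linear_combination h2
      · simp only [Matrix.mulVec, dotProduct, Fin.sum_univ_two, Pi.smul_apply, smul_eq_mul, Fin.mk_one,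
          Matrix.cons_val_zero, Matrix.cons_val_one]
        ring
  · left
    exact ⟨t, hgt, fun d => fx_mob (ht d)⟩

end RPL
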