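import Pool.Agent.RPL.Mob

/-! # RPL-LocF: local finiteness of a proper action on the upper half-plane

Properness applied to compact neighbourhoods.
-/

set_option linter.style.longLine false

open scoped Matrix ContDiff Topology
open Complex MeasureTheory Filter

namespace RPL

variable {D : Type} [Group D]

theorem exists_loc {B : D →* SLR}
    (hp : ∀ K ⊆ UH, IsCompact K → {d : D | (mob (B d) '' K ∩ K).Nonempty}.Finite)
    {K : Set ℂ} (hK : K ⊆ UH) (hKc : IsCompact K) {z0 : ℂ} (hz0 : z0 ∈ UH) :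
    ∃ F : Finset D, ∀ᶠ z in 𝓝 z0, z ∈ UH ∧ ∀ d : D, mob (B d) z ∈ K → d ∈ F := by
  obtain ⟨δ, hδ, hb⟩ := Metric.nhds_basis_closedBall.mem_iff.1 (isOpen_UH.mem_nhds hz0)
  have hfin := hp (K ∪ Metric.closedBall z0 δ) (Set.union_subset hK hb)
    (hKc.union (isCompact_closedBall z0 δ))
  refine ⟨hfin.toFinset, ?_⟩
  filter_upwards [Metric.ball_mem_nhds z0 hδ] with z hz
  have hz' : z ∈ Metric.closedBall z0 δ := Metric.ball_subset_closedBall hz
  refine ⟨hb hz', fun d hd => ?_⟩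
  exact hfin.mem_toFinset.2 ⟨mob (B d) z, ⟨z, Or.inr hz', rfl⟩, Or.inl hd⟩

/-- one finite symmetric set for a whole compact set -/
theorem exists_loc2 {B : D →* SLR}
    (hp : ∀ K ⊆ UH, IsCompact K → {d : D | (mob (B d) '' K ∩ K).Nonempty}.Finite)
    {K : Set ℂ} (hK : K ⊆ UH) (hKc : IsCompact K) :
    ∃ (F : Finset D) (V : Set ℂ), IsOpen V ∧ K ⊆ V ∧ V ⊆ UH ∧ (∀ d ∈ F, d⁻¹ ∈ F) ∧
      ∀ z ∈ V, ∀ d : D, mob (B d) z ∈ K → d ∈ F := by
  obtain ⟨V, hV, hKV, hVU, hVc⟩ := exists_open_between_and_isCompact_closure hKc isOpen_UH hK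
  have hfin := hp (closure V) hVU hVc
  refine ⟨hfin.toFinset, V, hV, hKV, subset_closure.trans hVU, ?_, ?_⟩
  · intro d hd
    obtain ⟨w, ⟨z, hz, hzw⟩, hw⟩ := hfin.mem_toFinset.1 hd
    refine hfin.mem_toFinset.2 ⟨z, ⟨w, hw, ?_⟩, hz⟩
    rw [← hzw, map_inv]
    exact mob_inv (B d) (hVU hz)
  · intro z hz d hd
    exact hfin.mem_toFinset.2 ⟨mob (B d) z, ⟨z, subset_closure hz, rfl⟩, subset_closure (hKV hd)⟩

end RPL
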