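import Pool.Agent.RPL.Defs

/-! # RPL-Mob: Moebius transformations of the upper half-plane -/

set_option linter.style.longLine false

open scoped Matrix ContDiff Topology
open Complex MeasureTheory Filter

namespace RPL

theorem det_eq (A : SLR) : A.1 0 0 * A.1 1 1 - A.1 0 1 * A.1 1 0 = 1 := by
  have h := A.2
  rwa [Matrix.det_fin_two] at h

private theorem det_c (A : SLR) : (A.1 0 0 : ℂ) * (A.1 1 1 : ℂ) - (A.1 0 1 : ℂ) * (A.1 1 0 : ℂ) = 1 := by
  exact_mod_cast det_eq A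

theorem den_ne (A : SLR) {z : ℂ} (hz : z ∈ UH) : den A z ≠ 0 := by
  intro h
  have hz' : 0 < z.im := hz
  unfold den at h
  have h1 := congrArg Complex.im h
  have h2 := congrArg Complex.re h
  simp at h1 h2
  have hd := det_eq A
  rcases h1 with h1 | h1
  · rw [h1] at h2 hd
    simp at h2
    rw [h2] at hd
    simp at hd
  · exact hz'.ne' h1

private theorem mob_eq (A : SLR) (z : ℂ) : mob A z = ((A.1 0 0 : ℂ) * z + (A.1 0 1 : ℂ)) / den A z := rfl

private theorem den_eq (A : SLR) (z : ℂ) : den A z = (A.1 1 0 : ℂ) * z + (A.1 1 1 : ℂ) := rfl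

theorem im_mob (A : SLR) {z : ℂ} (hz : z ∈ UH) : (mob A z).im = z.im / normSq (den A z) := by
  have _ := hz
  rw [mob_eq, Complex.div_im, div_sub_div_same]
  congr 1
  have hd := det_eq A
  unfold den
  simp
  linear_combination z.im * hd

theorem mob_mem (A : SLR) {z : ℂ} (hz : z ∈ UH) : mob A z ∈ UH := by
  show 0 < (mob A z).im
  rw [im_mob A hz]
  exact div_pos hz (Complex.normSq_pos.2 (den_ne A hz))

private theorem mul_00 (A B : SLR) (i j : Fin 2) : ((A * B).1 i j : ℂ) = (A.1 i 0 : ℂ) * (B.1 0 j : ℂ) + (A.1 i 1 : ℂ) * (B.1 1 j : ℂ) := by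
  rw [Matrix.SpecialLinearGroup.coe_mul, Matrix.mul_apply, Fin.sum_univ_two]
  push_cast
  rfl

theorem den_mul (A B : SLR) {z : ℂ} (hz : z ∈ UH) : den (A * B) z = den A (mob B z) * den B z := by
  have h := den_ne B hz
  have h3 : mob B z * den B z = (B.1 0 0 : ℂ) * z + (B.1 0 1 : ℂ) := by
    rw [mob_eq, div_mul_cancel₀ _ h]
  rw [den_eq (A * B), den_eq A, mul_00, mul_00]
  rw [den_eq B] at h3 ⊢
  linear_combination (-(A.1 1 0 : ℂ)) * h3

theorem mob_mul (A B : SLR) {z : ℂ} (hz : z ∈ UH) : mob (A * B) z = mob A (mob B z) := by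
  have h := den_ne B hz
  have h2 := den_ne A (mob_mem B hz)
  rw [mob_eq (A * B), den_mul A B hz, mob_eq A, mul_00, mul_00, div_eq_div_iff (mul_ne_zero h2 h) h2]
  have h3 : mob B z * den B z = (B.1 0 0 : ℂ) * z + (B.1 0 1 : ℂ) := by
    rw [mob_eq, div_mul_cancel₀ _ h]
  rw [den_eq B] at h3 ⊢
  linear_combination (-(A.1 0 0 : ℂ) * den A (mob B z)) * h3

theorem mob_one (z : ℂ) : mob 1 z = z := by
  rw [mob_eq, den_eq]
  simp

theorem mob_inv (A : SLR) {z : ℂ} (hz : z ∈ UH) : mob A⁻¹ (mob A z) = z := by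
  rw [← mob_mul _ _ hz, inv_mul_cancel, mob_one]

theorem mob_inv' (A : SLR) {z : ℂ} (hz : z ∈ UH) : mob A (mob A⁻¹ z) = z := by
  rw [← mob_mul _ _ hz, mul_inv_cancel, mob_one]

theorem mob_hasDeriv (A : SLR) {z : ℂ} (hz : z ∈ UH) : HasDerivAt (mob A) ((den A z ^ 2)⁻¹) z := by
  have h := den_ne A hz
  have h1 : HasDerivAt (fun z : ℂ => (A.1 0 0 : ℂ) * z + (A.1 0 1 : ℂ)) (A.1 0 0 : ℂ) z := by
    have := ((hasDerivAt_id z).const_mul (A.1 0 0 : ℂ)).add_const (A.1 0 1 : ℂ)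
    rw [mul_one] at this
    exact this
  have h2 : HasDerivAt (fun z : ℂ => den A z) (A.1 1 0 : ℂ) z := by
    have := ((hasDerivAt_id z).const_mul (A.1 1 0 : ℂ)).add_const (A.1 1 1 : ℂ)
    rw [mul_one] at this
    exact this
  have h3 := h1.div h2 h
  have h4 : ((A.1 0 0 : ℂ) * den A z - ((A.1 0 0 : ℂ) * z + (A.1 0 1 : ℂ)) * (A.1 1 0 : ℂ)) / den A z ^ 2 =
      (den A z ^ 2)⁻¹ := by
    rw [← one_div]
    congr 1
    rw [den_eq]
    linear_combination det_c A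
  rw [h4] at h3
  exact h3

theorem mob_contDiff (A : SLR) : ContDiffOn ℝ ∞ (mob A) UH := by
  have h1 : ContDiffOn ℂ ∞ (fun z : ℂ => (A.1 0 0 : ℂ) * z + (A.1 0 1 : ℂ)) UH :=
    ((contDiff_const.mul contDiff_id).add contDiff_const).contDiffOn
  have h2 : ContDiffOn ℂ ∞ (fun z : ℂ => den A z) UH :=
    ((contDiff_const.mul contDiff_id).add contDiff_const).contDiffOn
  exact (h1.div h2 fun z hz => den_ne A hz).restrict_scalars ℝ

theorem dth_mul (A B : SLR) {z : ℂ} (hz : z ∈ UH) (v : ℂ) :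
    dth (A * B) z v = dth A (mob B z) ((den B z ^ 2)⁻¹ * v) + dth B z v := by
  have h := den_ne B hz
  have h2 := den_ne A (mob_mem B hz)
  rw [dth_apply, dth_apply, dth_apply, ← Complex.add_im]
  congr 1
  have h3 : mob B z * den B z = (B.1 0 0 : ℂ) * z + (B.1 0 1 : ℂ) := by
    rw [mob_eq, div_mul_cancel₀ _ h]
  have hd := det_c B
  have key : ((A * B).1 1 0 : ℂ) * den B z = (A.1 1 0 : ℂ) + (B.1 1 0 : ℂ) * den A (mob B z) * den B z := by
    rw [mul_00, den_eq A, den_eq B]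
    rw [den_eq B] at h3
    linear_combination (A.1 1 0 : ℂ) * hd - (B.1 1 0 : ℂ) * (A.1 1 0 : ℂ) * h3
  rw [den_mul A B hz]
  have h4 : ((A * B).1 1 0 : ℂ) = ((A.1 1 0 : ℂ) + (B.1 1 0 : ℂ) * den A (mob B z) * den B z) / den B z := by
    rw [eq_div_iff h]
    exact key
  rw [h4]
  field_simp

theorem dth_one (z : ℂ) : dth 1 z = 0 := by
  ext v
  rw [dth_apply]
  simp

theorem isOpen_UH : IsOpen UH := isOpen_lt continuous_const Complex.continuous_im

end RPL
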