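import Pool.Agent.RPL.LocF

/-! # RPL-Phi: an equivariant partition of unity -/

set_option linter.style.longLine false

open scoped Matrix ContDiff Topology Manifold
open Complex MeasureTheory Filter

namespace RPL

variable {D : Type} [Group D]

theorem exists_phi {B : D →* SLR}
    (hp : ∀ K ⊆ UH, IsCompact K → {d : D | (mob (B d) '' K ∩ K).Nonempty}.Finite)
    (hcc : ∃ K ⊆ UH, IsCompact K ∧ ∀ z ∈ UH, ∃ d : D, mob (B d) z ∈ K) :
    ∃ φ : ℂ → ℝ, ContDiff ℝ ∞ φ ∧ HasCompactSupport φ ∧ tsupport φ ⊆ UH ∧ (∀ z, 0 ≤ φ z) ∧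
      ∀ z ∈ UH, ∑ᶠ d : D, φ (mob (B d) z) = 1 := by
  obtain ⟨K0, hK0, hK0c, hcov⟩ := hcc
  obtain ⟨V, hV, hKV, hVU, hVc⟩ := exists_open_between_and_isCompact_closure hK0c isOpen_UH hK0
  obtain ⟨ψ, hψs, hψr, hψsupp, hψ1⟩ :=
    exists_contMDiff_support_eq_eq_one_iff (n := ⊤) 𝓘(ℝ, ℂ) hV hK0c.isClosed hKV
  have hψc : ContDiff ℝ ∞ ψ := hψs.contDiff
  have hψ0 : ∀ z, 0 ≤ ψ z := fun z => (hψr ⟨z, rfl⟩).1
  have hψz : ∀ z, z ∉ closure V → ψ z = 0 := by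
    intro z hz
    by_contra h
    exact hz (subset_closure (hψsupp ▸ (show z ∈ Function.support ψ from h)))
  obtain ⟨Ψ, hΨ⟩ : ∃ Ψ : ℂ → ℝ, ∀ z, Ψ z = ∑ᶠ d : D, ψ (mob (B d) z) := ⟨_, fun _ => rfl⟩
  have hΨloc : ∀ z0 ∈ UH, ∃ F : Finset D, ∀ᶠ z in 𝓝 z0,
      z ∈ UH ∧ (∀ d, mob (B d) z ∈ closure V → d ∈ F) ∧ Ψ z = ∑ d ∈ F, ψ (mob (B d) z) := by
    intro z0 hz0
    obtain ⟨F, hF⟩ := exists_loc hp hVU hVc hz0
    refine ⟨F, hF.mono fun z hz => ⟨hz.1, hz.2, ?_⟩⟩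
    rw [hΨ]
    refine finsum_eq_sum_of_support_subset _ fun d hd => ?_
    refine hz.2 d ?_
    by_contra h
    exact hd (hψz _ h)
  have hΨs : ∀ z0 ∈ UH, ContDiffAt ℝ ∞ Ψ z0 := by
    intro z0 hz0
    obtain ⟨F, hF⟩ := hΨloc z0 hz0
    have h1 : ContDiffAt ℝ ∞ (fun z => ∑ d ∈ F, ψ (mob (B d) z)) z0 :=
      ContDiffAt.sum fun d _ =>
        hψc.contDiffAt.comp z0 ((mob_contDiff (B d)).contDiffAt (isOpen_UH.mem_nhds hz0))
    exact h1.congr_of_eventuallyEq (hF.mono fun z hz => hz.2.2)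
  have hΨpos : ∀ z ∈ UH, 1 ≤ Ψ z := by
    intro z hz
    obtain ⟨F, hF⟩ := hΨloc z hz
    obtain ⟨_, h2, h3⟩ := hF.self_of_nhds
    obtain ⟨d, hd⟩ := hcov z hz
    rw [h3, ← (hψ1 _).1 hd]
    exact Finset.single_le_sum (f := fun d => ψ (mob (B d) z)) (fun e _ => hψ0 _)
      (h2 d (subset_closure (hKV hd)))
  have hΨinv : ∀ e : D, ∀ z ∈ UH, Ψ (mob (B e) z) = Ψ z := by
    intro e z hz
    rw [hΨ, hΨ, ← finsum_comp_equiv (f := fun d => ψ (mob (B d) z)) (Equiv.mulRight e)]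
    refine finsum_congr fun d => ?_
    show ψ (mob (B d) (mob (B e) z)) = ψ (mob (B (d * e)) z)
    rw [map_mul, mob_mul _ _ hz]
  have hφz : ∀ z, z ∉ closure V → ψ z / Ψ z = 0 := by
    intro z hz
    rw [hψz z hz, zero_div]
  have hts : tsupport (fun z => ψ z / Ψ z) ⊆ closure V := by
    refine closure_minimal (fun z hz => ?_) isClosed_closure
    by_contra h
    exact hz (hφz z h)
  refine ⟨fun z => ψ z / Ψ z, ?_, ?_, hts.trans hVU, ?_, ?_⟩
  · rw [contDiff_iff_contDiffAt]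
    intro z
    by_cases hz : z ∈ UH
    · exact hψc.contDiffAt.div (hΨs z hz) (by have := hΨpos z hz; positivity)
    · have hz' : z ∉ closure V := fun h => hz (hVU h)
      have h0 : (fun z => ψ z / Ψ z) =ᶠ[𝓝 z] fun _ => 0 := by
        filter_upwards [isClosed_closure.isOpen_compl.mem_nhds hz'] with y hy
        exact hφz y hy
      exact contDiffAt_const.congr_of_eventuallyEq h0
  · exact HasCompactSupport.intro hVc hφz
  · intro z
    by_cases hz : z ∈ UH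
    · exact div_nonneg (hψ0 z) (by linarith [hΨpos z hz])
    · exact (hφz z fun h => hz (hVU h)).ge
  · intro z hz
    have h1 : ∀ d : D, ψ (mob (B d) z) / Ψ (mob (B d) z) = ψ (mob (B d) z) / Ψ z := by
      intro d
      rw [hΨinv d z hz]
    obtain ⟨F, hF⟩ := hΨloc z hz
    obtain ⟨_, h2, h3⟩ := hF.self_of_nhds
    have hpos := hΨpos z hz
    rw [finsum_congr h1, finsum_eq_sum_of_support_subset (s := F), ← Finset.sum_div, ← h3,
      div_self (by linarith)]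
    intro d hd
    refine h2 d ?_
    by_contra h
    refine hd ?_
    show ψ (mob (B d) z) / Ψ z = 0
    rw [hψz _ h, zero_div]

end RPL
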