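import Pool.Agent.RPL.LocF

/-! # RPL-Ufn: the cocycle becomes a coboundary: the function u -/

set_option linter.style.longLine false

open scoped Matrix ContDiff Topology
open Complex MeasureTheory Filter

namespace RPL

variable {D : Type} [Group D]

private theorem ufn_dth (A : SLR) : ContinuousOn (dth A) UH := by
  unfold dth
  refine ContinuousOn.clm_comp continuousOn_const ?_
  refine (ContinuousLinearMap.mul ℝ ℂ).continuous.comp_continuousOn ?_
  refine ContinuousOn.div continuousOn_const ?_ fun z hz => den_ne A hz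
  unfold den
  exact ((continuous_const.mul continuous_id).add continuous_const).continuousOn

private theorem ufn_fin {ι : Type} {f : ι → ℝ} {F : Finset ι} (h : ∀ d, f d ≠ 0 → d ∈ F) :
    ∑ᶠ d, f d = ∑ d ∈ F, f d := by
  apply finsum_eq_sum_of_support_subset
  intro d hd
  exact h d hd

theorem exists_u {B : D →* SLR}
    (hp : ∀ K ⊆ UH, IsCompact K → {d : D | (mob (B d) '' K ∩ K).Nonempty}.Finite)
    {θ : D → ℂ → ℝ} (hθ : ∀ d e : D, ∀ z ∈ UH, θ (d * e) z = θ d (mob (B e) z) + θ e z)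
    (hd : ∀ d : D, ∀ z ∈ UH, HasFDerivAt (θ d) (dth (B d) z) z)
    {φ : ℂ → ℝ} (hφ : ContDiff ℝ ∞ φ) (hc : HasCompactSupport φ) (hs : tsupport φ ⊆ UH)
    (h1 : ∀ z ∈ UH, ∑ᶠ d : D, φ (mob (B d) z) = 1) :
    ∃ u : ℂ → ℝ, ContDiffOn ℝ 1 u UH ∧ ∀ e : D, ∀ z ∈ UH, u (mob (B e) z) = u z - 2 * θ e z := by
  have hK : IsCompact (tsupport φ) := hc
  have hmem : ∀ w, φ w ≠ 0 → w ∈ tsupport φ := fun w hw => subset_tsupport φ hw
  refine ⟨fun z => 2 * ∑ᶠ d, φ (mob (B d) z) * θ d z, ?_, ?_⟩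
  · intro z0 hz0
    refine ContDiffAt.contDiffWithinAt ?_
    obtain ⟨F, hF⟩ := exists_loc hp hs hK hz0
    have heq : (fun z => 2 * ∑ᶠ d, φ (mob (B d) z) * θ d z) =ᶠ[𝓝 z0]
        fun z => 2 * ∑ d ∈ F, φ (mob (B d) z) * θ d z := by
      filter_upwards [hF] with z hz
      rw [ufn_fin (F := F)]
      intro d hd
      exact hz.2 d (hmem _ (left_ne_zero_of_mul hd))
    refine ContDiffAt.congr_of_eventuallyEq ?_ heq
    refine contDiffAt_const.mul (ContDiffAt.sum fun d _ => ContDiffAt.mul ?_ ?_)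
    · have h2 : ContDiffAt ℝ ∞ (mob (B d)) z0 := (mob_contDiff (B d)).contDiffAt (isOpen_UH.mem_nhds hz0)
      have h3 : ContDiffAt ℝ ∞ (fun z => φ (mob (B d) z)) z0 := hφ.contDiffAt.comp z0 h2
      exact h3.of_le (by exact_mod_cast le_top)
    · rw [contDiffAt_one_iff]
      exact ⟨dth (B d), UH, isOpen_UH.mem_nhds hz0, ufn_dth (B d), fun z hz => hd d z hz⟩
  · intro e z hz
    obtain ⟨F, hF⟩ := exists_loc hp hs hK hz
    have hF' := hF.self_of_nhds.2
    have e1 : ∀ d : D, φ (mob (B d) (mob (B e) z)) * θ d (mob (B e) z) =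
        (fun d' => φ (mob (B d') z) * (θ d' z - θ e z)) (Equiv.mulRight e d) := by
      intro d
      change φ (mob (B d) (mob (B e) z)) * θ d (mob (B e) z) = φ (mob (B (d * e)) z) * (θ (d * e) z - θ e z)
      rw [map_mul, mob_mul _ _ hz, hθ d e z hz, add_sub_cancel_right]
    have e2 : ∑ᶠ d, φ (mob (B d) (mob (B e) z)) * θ d (mob (B e) z) =
        ∑ᶠ d', φ (mob (B d') z) * (θ d' z - θ e z) := by
      rw [finsum_congr e1, finsum_comp_equiv (Equiv.mulRight e) (f := fun d' => φ (mob (B d') z) * (θ d' z - θ e z))]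
    have e3 : ∑ᶠ d', φ (mob (B d') z) * (θ d' z - θ e z) = ∑ d ∈ F, φ (mob (B d) z) * (θ d z - θ e z) :=
      ufn_fin fun d hd => hF' d (hmem _ (left_ne_zero_of_mul hd))
    have e4 : ∑ᶠ d', φ (mob (B d') z) * θ d' z = ∑ d ∈ F, φ (mob (B d) z) * θ d z :=
      ufn_fin fun d hd => hF' d (hmem _ (left_ne_zero_of_mul hd))
    have e5 : ∑ d ∈ F, φ (mob (B d) z) = 1 := by
      rw [← h1 z hz]
      exact (ufn_fin fun d hd => hF' d (hmem _ hd)).symm
    change 2 * ∑ᶠ d, φ (mob (B d) (mob (B e) z)) * θ d (mob (B e) z) =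
      2 * (∑ᶠ d, φ (mob (B d) z) * θ d z) - 2 * θ e z
    rw [e2, e3, e4]
    have e6 : ∑ d ∈ F, φ (mob (B d) z) * (θ d z - θ e z) =
        ∑ d ∈ F, φ (mob (B d) z) * θ d z - (∑ d ∈ F, φ (mob (B d) z)) * θ e z := by
      rw [Finset.sum_mul, ← Finset.sum_sub_distrib]
      refine Finset.sum_congr rfl fun d _ => ?_
      ring
    rw [e6, e5]
    ring

end RPL
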