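import Pool.Agent.RPL.Unf
import Pool.Agent.RPL.Ibp
import Pool.Agent.RPL.Phi
import Pool.Agent.RPL.Ufn
import Pool.Agent.RPL.Eta

/-! # RPL-NoL: the cocycle of arguments of a cocompact group is not additive

Assembled (architect).
-/

set_option linter.style.longLine false

open scoped Matrix ContDiff Topology
open Complex MeasureTheory Filter

namespace RPL

variable {D : Type} [Group D]

theorem no_lift (B : D →* SLR)
    (hp : ∀ K ⊆ UH, IsCompact K → {d : D | (mob (B d) '' K ∩ K).Nonempty}.Finite)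
    (hcc : ∃ K ⊆ UH, IsCompact K ∧ ∀ z ∈ UH, ∃ d : D, mob (B d) z ∈ K)
    (θ : D → ℂ → ℝ) (hθ : ∀ d e : D, ∀ z ∈ UH, θ (d * e) z = θ d (mob (B e) z) + θ e z)
    (hd : ∀ d : D, ∀ z ∈ UH, HasFDerivAt (θ d) (dth (B d) z) z) : False := by
  obtain ⟨φ, hφ, hc, hs, h0, h1⟩ := exists_phi hp hcc
  obtain ⟨u, hu, hue⟩ := exists_u hp hθ hd hφ hc hs h1
  have hinv : ∀ d : D, ∀ z ∈ UH, ∀ v : ℂ,
      eta u (mob (B d) z) ((den (B d) z ^ 2)⁻¹ * v) = eta u z v :=
    fun d z hz v => eta_inv hu (hd d) (hue d) hz v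
  have e0 := unfold hp hu hφ hc hs h1 hinv
  have hpos : ∃ z, 0 < φ z := by
    by_contra hcon
    push Not at hcon
    have hI : (I : ℂ) ∈ UH := by simp [UH]
    have h2 := h1 I hI
    have h3 : ∀ d : D, φ (mob (B d) I) = 0 := fun d => le_antisymm (hcon _) (h0 _)
    simp [h3] at h2
  have e1 := bra_neg hu hφ hc hs h0 hpos
  rw [e0] at e1
  exact lt_irrefl _ e1

end RPL
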