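import Pool.Agent.RPL.Defs
import Pool.Agent.SXP.HOv
import Pool.Agent.SXP.HInf

/-! # RPL-Rad: planes which do not pass through the cusp are not high -/

set_option linter.style.longLine false

open scoped Matrix ContDiff
open Complex

namespace RPL

open SXP

variable {G : Type} [Group G] {ρ : G →* SLC} {μ lam : G} {m l : ℂ} {P : Set (Set H3)}

private theorem rad_herm {N : Matrix (Fin 2) (Fin 2) ℂ} (hN : N.IsHermitian) :
    (N 0 0).im = 0 ∧ (N 1 1).im = 0 ∧ (N 0 1).re = (N 1 0).re ∧ (N 0 1).im = -(N 1 0).im := by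
  have h00 := congrFun (congrFun hN 0) 0
  have h11 := congrFun (congrFun hN 1) 1
  have h01 := congrFun (congrFun hN 0) 1
  rw [Matrix.conjTranspose_apply] at h00 h11 h01
  have a := congrArg Complex.im h00
  have b := congrArg Complex.im h11
  have c := congrArg Complex.re h01
  have d := congrArg Complex.im h01
  simp only [Complex.star_def, Complex.conj_im, Complex.conj_re] at a b c d
  exact ⟨by linarith, by linarith, by linarith, by linarith⟩

private theorem rad_pt {N : Matrix (Fin 2) (Fin 2) ℂ} (hN : N.IsHermitian) (z : ℂ) (T : ℝ)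
    (hT : 0 < T) : lin N (pt z T hT).1 * T = (N 0 0).re * (z.re ^ 2 + z.im ^ 2 + T ^ 2) +
      2 * (z.re * (N 1 0).re - z.im * (N 1 0).im) + (N 1 1).re := by
  obtain ⟨h00, h11, h01, h01'⟩ := rad_herm hN
  have hT0 : T ≠ 0 := hT.ne'
  obtain ⟨A, hA⟩ : ∃ A : ℝ, A = (z.re ^ 2 + z.im ^ 2 + T ^ 2) / T := ⟨_, rfl⟩
  have hA' : A * T = z.re ^ 2 + z.im ^ 2 + T ^ 2 := by
    rw [hA]
    field_simp
  obtain ⟨B, hB⟩ : ∃ B : ℝ, B = 1 / T := ⟨_, rfl⟩
  have hB' : B * T = 1 := by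
    rw [hB]
    field_simp
  have e : (pt z T hT).1 = !![(A : ℂ), z / (T : ℂ); (starRingEnd ℂ) z / (T : ℂ), (B : ℂ)] := by
    rw [hA, hB]
    rfl
  rw [e]
  simp only [lin, Matrix.trace_fin_two, Matrix.mul_apply, Fin.sum_univ_two]
  simp [Complex.div_ofReal_re, Complex.div_ofReal_im]
  rw [h01, h01', ← hA']
  field_simp
  linear_combination (N 1 1).re * hB'

private theorem rad_act {g : SLC} {m : ℂ} (hg : g.1 = !![1, m; 0, 1] ∨ g.1 = -!![1, m; 0, 1])
    (z : ℂ) (T : ℝ) (hT : 0 < T) : act g (pt z T hT) = pt (z + m) T hT := by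
  apply Subtype.ext
  show g.1 * (pt z T hT).1 * g.1ᴴ = (pt (z + m) T hT).1
  have h1 : g.1 * (pt z T hT).1 * g.1ᴴ =
      !![1, m; 0, 1] * (pt z T hT).1 * (!![1, m; 0, 1] : Matrix (Fin 2) (Fin 2) ℂ)ᴴ := by
    rcases hg with h | h
    · rw [h]
    · rw [h, Matrix.conjTranspose_neg, Matrix.mul_neg, Matrix.neg_mul, Matrix.neg_mul, neg_neg]
  rw [h1]
  have hT0 : T ≠ 0 := hT.ne'
  obtain ⟨A, hA⟩ : ∃ A : ℝ, A = (z.re ^ 2 + z.im ^ 2 + T ^ 2) / T := ⟨_, rfl⟩
  obtain ⟨A', hA'⟩ : ∃ A' : ℝ, A' = ((z + m).re ^ 2 + (z + m).im ^ 2 + T ^ 2) / T := ⟨_, rfl⟩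
  obtain ⟨B, hB⟩ : ∃ B : ℝ, B = 1 / T := ⟨_, rfl⟩
  have e : (pt z T hT).1 = !![(A : ℂ), z / (T : ℂ); (starRingEnd ℂ) z / (T : ℂ), (B : ℂ)] := by
    rw [hA, hB]
    rfl
  have e' : (pt (z + m) T hT).1 =
      !![(A' : ℂ), (z + m) / (T : ℂ); (starRingEnd ℂ) (z + m) / (T : ℂ), (B : ℂ)] := by
    rw [hA', hB]
    rfl
  rw [e, e']
  have hAA : A' = A + 2 * (m.re * z.re + m.im * z.im) / T + (m.re ^ 2 + m.im ^ 2) * B := by
    rw [hA', hA, hB, Complex.add_re, Complex.add_im]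
    field_simp
    ring
  have hBC : (B : ℂ) = 1 / (T : ℂ) := by
    rw [hB]
    push_cast
    rfl
  have hT1 : (T : ℂ) ≠ 0 := by exact_mod_cast hT0
  ext i j
  fin_cases i <;> fin_cases j
  · simp only [Matrix.mul_apply, Fin.sum_univ_two, Matrix.conjTranspose_apply]
    apply Complex.ext
    · simp [Complex.div_ofReal_re, Complex.div_ofReal_im]
      rw [hAA]
      field_simp
      ring
    · simp [Complex.div_ofReal_re, Complex.div_ofReal_im]
      field_simp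
      ring
  · simp only [Matrix.mul_apply, Fin.sum_univ_two, Matrix.conjTranspose_apply]
    simp
    rw [hBC]
    field_simp
  · simp only [Matrix.mul_apply, Fin.sum_univ_two, Matrix.conjTranspose_apply]
    simp
    rw [hBC]
    field_simp
  · simp only [Matrix.mul_apply, Fin.sum_univ_two, Matrix.conjTranspose_apply]
    simp

theorem rad (hc : TorusCusp ρ μ lam m l) (hP : TGSurface ρ P) {S : Set H3} (hS : S ∈ P) (h : ¬ AtInf S)
    {x : H3} (hx : x ∈ S) : 2 ≤ ‖m‖ * (x.1 1 1).re := by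
  by_contra hlt
  rw [not_le] at hlt
  obtain ⟨N, hN, rfl⟩ := hP.planes S hS
  obtain ⟨h00, h11, h01, h01'⟩ := rad_herm hN.1
  obtain ⟨α, hα⟩ : ∃ α, α = (N 0 0).re := ⟨_, rfl⟩
  obtain ⟨β, hβ⟩ : ∃ β, β = (N 1 1).re := ⟨_, rfl⟩
  obtain ⟨u, hu⟩ : ∃ u, u = (N 1 0).re := ⟨_, rfl⟩
  obtain ⟨v, hv⟩ : ∃ v, v = (N 1 0).im := ⟨_, rfl⟩
  have hα0 : α ≠ 0 := by
    intro h0
    apply h
    rw [atInf_iff hN]
    exact Complex.ext (by rw [← hα, h0]; rfl) h00
  obtain ⟨R2, hR2⟩ : ∃ R2, R2 = (u ^ 2 + v ^ 2 - α * β) / α ^ 2 := ⟨_, rfl⟩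
  have hR2' : R2 * α ^ 2 = u ^ 2 + v ^ 2 - α * β := by
    rw [hR2]
    field_simp
  obtain ⟨c0, hc0⟩ : ∃ c0 : ℂ, c0 = ⟨-(u / α), v / α⟩ := ⟨_, rfl⟩
  -- points above
  have hmem : ∀ (z : ℂ) (T : ℝ) (hT : 0 < T),
      pt z T hT ∈ plane N ↔ (z.re - c0.re) ^ 2 + (z.im - c0.im) ^ 2 + T ^ 2 = R2 := by
    intro z T hT
    have h1 := rad_pt hN.1 z T hT
    rw [← hα, ← hβ, ← hu, ← hv] at h1
    have h2 : α * (z.re ^ 2 + z.im ^ 2 + T ^ 2) + 2 * (z.re * u - z.im * v) + β =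
        α * ((z.re - c0.re) ^ 2 + (z.im - c0.im) ^ 2 + T ^ 2 - R2) := by
      have e1 : c0.re = -(u / α) := by rw [hc0]
      have e2 : c0.im = v / α := by rw [hc0]
      rw [e1, e2, hR2]
      field_simp
      ring
    rw [h2] at h1
    constructor
    · intro h3
      have h4 : lin N (pt z T hT).1 = 0 := h3
      rw [h4, zero_mul] at h1
      rcases mul_eq_zero.1 h1.symm with h5 | h5
      · exact absurd h5 hα0
      · linarith
    · intro h3
      show lin N (pt z T hT).1 = 0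
      rw [h3, sub_self, mul_zero] at h1
      rcases mul_eq_zero.1 h1 with h5 | h5
      · exact h5
      · exact absurd h5 hT.ne'
  -- the height of `x`
  obtain ⟨b, hb⟩ : ∃ b, b = (x.1 1 1).re := ⟨_, rfl⟩
  rw [← hb] at hlt
  obtain ⟨x00, x11, x01, x01'⟩ := rad_herm x.2.1
  have hdet : (x.1 0 0).re * b - ((x.1 1 0).re ^ 2 + (x.1 1 0).im ^ 2) = 1 := by
    have h1 := x.2.2.2
    rw [Matrix.det_fin_two] at h1
    have h2 := congrArg Complex.re h1
    simp [x01, x01', x00, x11] at h2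
    rw [hb]
    linarith
  have hb0 : 0 < b := by
    have h1 := x.2.2.1
    by_contra h2
    rw [not_lt] at h2
    nlinarith [sq_nonneg (x.1 1 0).re, sq_nonneg (x.1 1 0).im]
  have hlin : α * (x.1 0 0).re + 2 * ((x.1 1 0).re * u + (x.1 1 0).im * v) + β * b = 0 := by
    have h1 : lin N x.1 = 0 := hx
    simp only [lin, Matrix.trace_fin_two, Matrix.mul_apply, Fin.sum_univ_two] at h1
    simp [x01, x01', x00, x11, h00, h11, h01, h01'] at h1
    rw [hα, hβ, hu, hv, hb]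
    linarith
  have hbR : 1 ≤ b ^ 2 * R2 := by
    have h1 : b ^ 2 * R2 = 1 + ((x.1 1 0).re + b * u / α) ^ 2 + ((x.1 1 0).im + b * v / α) ^ 2 := by
      rw [hR2]
      field_simp
      linear_combination α ^ 2 * hdet - b * α * hlin
    rw [h1]
    nlinarith [sq_nonneg ((x.1 1 0).re + b * u / α), sq_nonneg ((x.1 1 0).im + b * v / α)]
  have hmm : ‖m‖ ^ 2 = m.re ^ 2 + m.im ^ 2 := by
    rw [Complex.sq_norm, Complex.normSq_apply]
    ring
  have hmb : (m.re ^ 2 + m.im ^ 2) * b ^ 2 < 4 := by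
    rw [← hmm]
    have h1 : 0 ≤ ‖m‖ * b := mul_nonneg (norm_nonneg m) hb0.le
    nlinarith
  have hRm : (m.re ^ 2 + m.im ^ 2) / 4 < R2 := by
    by_contra h1
    rw [not_lt] at h1
    have h2 : 0 < b ^ 2 := by positivity
    nlinarith
  have hm : m ≠ 0 := by
    have := hc.ind.ne_zero 0
    simpa using this
  have hm2 : 0 < m.re ^ 2 + m.im ^ 2 := by
    rw [← hmm]
    have := norm_pos_iff.2 hm
    positivity
  have hR0 : 0 < R2 := by linarith
  -- the image is a different plane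
  have hne : plane N ≠ act (ρ μ) '' plane N := by
    intro heq
    have h1 : pt c0 (√R2) (Real.sqrt_pos.2 hR0) ∈ plane N := by
      rw [hmem, Real.sq_sqrt hR0.le]
      ring
    have h2 : pt (c0 + m) (√R2) (Real.sqrt_pos.2 hR0) ∈ plane N := by
      rw [heq]
      exact ⟨_, h1, rad_act hc.hμ _ _ _⟩
    rw [hmem, Real.sq_sqrt hR0.le, Complex.add_re, Complex.add_im] at h2
    have h3 : m.re ^ 2 + m.im ^ 2 = 0 := by
      linear_combination h2
    exact absurd h3 hm2.ne'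
  have hdis := hP.disj _ hS _ (hP.inv μ _ hS) hne
  have hT2 : 0 < R2 - (m.re ^ 2 + m.im ^ 2) / 4 := by linarith
  have h1 : pt (c0 - m / 2) (√(R2 - (m.re ^ 2 + m.im ^ 2) / 4)) (Real.sqrt_pos.2 hT2) ∈ plane N := by
    rw [hmem, Real.sq_sqrt hT2.le]
    simp
    ring
  have h2 : pt (c0 - m / 2 + m) (√(R2 - (m.re ^ 2 + m.im ^ 2) / 4)) (Real.sqrt_pos.2 hT2) ∈ plane N := by
    rw [hmem, Real.sq_sqrt hT2.le]
    simp
    ring
  exact Set.disjoint_left.1 hdis h2 ⟨_, h1, rad_act hc.hμ _ _ _⟩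

end RPL
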