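import Pool.Agent.RPL.Vert
import Pool.Agent.RPL.Rad

/-! # RPL-Strip: points in a high part of the strip between two neighbouring vertical planes

Proved.
-/

set_option linter.style.longLine false

open scoped Matrix ContDiff
open Complex

namespace RPL

open SXP

variable {G : Type} [Group G] {ρ : G →* SLC} {μ lam : G} {m l : ℂ} {P : Set (Set H3)}

private theorem tr_zero_image (S : Set H3) : act (tr 0) '' S = S := by
  have h : tr 0 = 1 := by
    apply Subtype.ext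
    ext i j
    fin_cases i <;> fin_cases j <;> simp [tr]
  have h2 : act (1 : SLC) = id := funext fun x => act_one x
  rw [h, h2, Set.image_id]

private theorem tr_eq {N : Matrix (Fin 2) (Fin 2) ℂ} (hN : IsNormal N) (h0 : N 0 0 = 0) {w w' : ℂ}
    (h : (w * N 1 0).re = (w' * N 1 0).re) : act (tr w) '' plane N = act (tr w') '' plane N := by
  rw [act_tr_plane hN.1 h0, act_tr_plane hN.1 h0, h]

private theorem hol (hc : TorusCusp ρ μ lam m l) (hP : TGSurface ρ P) {S : Set H3} (hS : S ∈ P)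
    (h : ¬ AtInf S) (z : ℂ) (T : ℝ) (hT : 0 < T) (hT2 : ‖m‖ / 2 < T) : pt z T hT ∉ S := by
  intro hx
  have h1 := rad hc hP hS h hx
  rw [pt_11, mul_one_div, le_div_iff₀ hT] at h1
  linarith

private theorem nosep (hc : TorusCusp ρ μ lam m l) (hP : TGSurface ρ P) {S : Set H3} (hS : S ∈ P)
    (h : ¬ AtInf S) (z w : ℂ) (T : ℝ) (hT : 0 < T) (hT2 : ‖m‖ / 2 < T) (s s' : ℝ) :
    ¬ Sep S (pt (z + s * w) T hT) (pt (z + s' * w) T hT) := by
  obtain ⟨N', hN', rfl⟩ := hP.planes S hS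
  rw [sep_iff hN']
  intro hneg
  have hf : Continuous fun s : ℝ => (N' 0 0).re * ((z + s * w).re ^ 2 + (z + s * w).im ^ 2 + T ^ 2) +
      2 * ((z + s * w) * N' 1 0).re + (N' 1 1).re := by
    have h1 : Continuous fun s : ℝ => z + (s : ℂ) * w := by fun_prop
    have h2 : Continuous fun s : ℝ => (z + (s : ℂ) * w).re := Complex.continuous_re.comp h1
    have h3 : Continuous fun s : ℝ => (z + (s : ℂ) * w).im := Complex.continuous_im.comp h1
    have h4 : Continuous fun s : ℝ => ((z + (s : ℂ) * w) * N' 1 0).re :=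
      Complex.continuous_re.comp (h1.mul continuous_const)
    fun_prop
  have hval : ∀ s : ℝ, lin N' (pt (z + s * w) T hT).1 * T =
      (N' 0 0).re * ((z + s * w).re ^ 2 + (z + s * w).im ^ 2 + T ^ 2) +
      2 * ((z + s * w) * N' 1 0).re + (N' 1 1).re := fun s => lin_pt hN'.1 _ T hT
  have h5 : (0 : ℝ) ∈ Set.range fun s : ℝ => (N' 0 0).re * ((z + s * w).re ^ 2 + (z + s * w).im ^ 2 + T ^ 2) +
      2 * ((z + s * w) * N' 1 0).re + (N' 1 1).re := by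
    rcases mul_neg_iff.1 hneg with ⟨h6, h7⟩ | ⟨h6, h7⟩
    · refine mem_range_of_exists_le_of_exists_ge hf ⟨s', ?_⟩ ⟨s, ?_⟩
      · rw [← hval]
        exact (mul_neg_of_neg_of_pos h7 hT).le
      · rw [← hval]
        exact (mul_pos h6 hT).le
    · refine mem_range_of_exists_le_of_exists_ge hf ⟨s, ?_⟩ ⟨s', ?_⟩
      · rw [← hval]
        exact (mul_neg_of_neg_of_pos h6 hT).le
      · rw [← hval]
        exact (mul_pos h7 hT).le
  obtain ⟨s'', hs''⟩ := h5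
  have h8 : lin N' (pt (z + s'' * w) T hT).1 * T = 0 := (hval s'').trans hs''
  exact hol hc hP hS h (z + s'' * w) T hT hT2 ((mul_eq_zero.1 h8).resolve_right hT.ne')

/-- a finite set of displacements is isolated -/
private theorem exists_eps (D : Set ℝ) (hD : D.Finite) {δ : ℝ} (hδ : 0 < δ) : ∃ ε : ℝ, 0 < ε ∧ ε < 1 / 2 ∧
    (∀ τ ∈ D, |τ| ≤ ε * δ → τ = 0) ∧ ∀ τ ∈ D, |τ - δ| ≤ ε * δ → τ = δ := by
  have key : ∀ a : ℝ, ∃ r : ℝ, 0 < r ∧ ∀ τ ∈ D, |τ - a| < r → τ = a := by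
    intro a
    have h1 : IsOpen (D \ {a})ᶜ := (hD.subset Set.sdiff_subset).isClosed.isOpen_compl
    obtain ⟨r, hr, h2⟩ := Metric.isOpen_iff.1 h1 a (fun h => h.2 rfl)
    refine ⟨r, hr, fun τ hτ h3 => ?_⟩
    by_contra hne
    exact h2 (show τ ∈ Metric.ball a r by rwa [Metric.mem_ball, Real.dist_eq]) ⟨hτ, hne⟩
  obtain ⟨r0, hr0, h0⟩ := key 0
  obtain ⟨r1, hr1, h1⟩ := key δ
  obtain ⟨ε, hε0, hε⟩ := exists_between (show (0 : ℝ) < min (1 / 2) (min (r0 / δ) (r1 / δ)) from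
    lt_min (by norm_num) (lt_min (div_pos hr0 hδ) (div_pos hr1 hδ)))
  have e1 : ε < 1 / 2 := hε.trans_le (min_le_left _ _)
  have e2 : ε * δ < r0 := by
    rw [← lt_div_iff₀ hδ]
    exact hε.trans_le ((min_le_right _ _).trans (min_le_left _ _))
  have e3 : ε * δ < r1 := by
    rw [← lt_div_iff₀ hδ]
    exact hε.trans_le ((min_le_right _ _).trans (min_le_right _ _))
  refine ⟨ε, hε0, e1, fun τ hτ h => ?_, fun τ hτ h => h1 τ hτ (h.trans_lt e3)⟩
  refine h0 τ hτ ?_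
  rw [sub_zero]
  exact h.trans_lt e2

theorem strip (hc : TorusCusp ρ μ lam m l) (hP : TGSurface ρ P) {N : Matrix (Fin 2) (Fin 2) ℂ}
    (hN : IsNormal N) (h0 : N 0 0 = 0) (hS : plane N ∈ P) {w : ℂ} (hw : 0 < (w * N 1 0).re)
    (hS1 : act (tr w) '' plane N ∈ P)
    (hmin : ∀ w' : ℂ, 0 < (w' * N 1 0).re → (w' * N 1 0).re < (w * N 1 0).re →
      act (tr w') '' plane N ∉ P) :
    ∃ x x' y y' : H3, OneSep P (plane N) x x' ∧ OneSep P (act (tr w) '' plane N) y y' ∧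
      y = act (tr w) x ∧ ∀ S' ∈ P, ¬ Sep S' x' y := by
  have hn : N 1 0 ≠ 0 := by
    intro h
    rw [h, mul_zero] at hw
    exact lt_irrefl _ hw
  obtain ⟨δ, hδd⟩ : ∃ δ : ℝ, δ = (w * N 1 0).re := ⟨_, rfl⟩
  have hδ : 0 < δ := hδd ▸ hw
  obtain ⟨z0, hz0⟩ : ∃ z0 : ℂ, 2 * (z0 * N 1 0).re + (N 1 1).re = 0 := by
    refine ⟨((-(N 1 1).re / 2 : ℝ) : ℂ) / N 1 0, ?_⟩
    rw [div_mul_cancel₀ _ hn, Complex.ofReal_re]
    ring
  obtain ⟨T, hT, hT2⟩ : ∃ T : ℝ, 0 < T ∧ ‖m‖ / 2 < T :=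
    ⟨‖m‖ / 2 + 1, by positivity, by linarith⟩
  have hlin : ∀ s : ℝ, 2 * ((z0 + s * w) * N 1 0).re + (N 1 1).re = 2 * (s * δ) := by
    intro s
    have h1 : (z0 + s * w) * N 1 0 = z0 * N 1 0 + (s : ℂ) * (w * N 1 0) := by ring
    rw [h1, Complex.add_re, Complex.re_ofReal_mul, ← hδd]
    linarith
  have hmem : ∀ (w' : ℂ) (s : ℝ), pt (z0 + s * w) T hT ∈ act (tr w') '' plane N ↔
      s * δ = (w' * N 1 0).re := by
    intro w' s
    rw [mem_tr_plane hN.1 h0, hlin]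
    constructor
    · intro h
      linarith
    · intro h
      rw [h]
  have hsep : ∀ (w' : ℂ) (s s' : ℝ), Sep (act (tr w') '' plane N) (pt (z0 + s * w) T hT)
      (pt (z0 + s' * w) T hT) ↔ (s * δ - (w' * N 1 0).re) * (s' * δ - (w' * N 1 0).re) < 0 := by
    intro w' s s'
    rw [sep_tr_plane hN h0, hlin, hlin]
    have h1 : (2 * (s * δ) - 2 * (w' * N 1 0).re) * (2 * (s' * δ) - 2 * (w' * N 1 0).re) =
        4 * ((s * δ - (w' * N 1 0).re) * (s' * δ - (w' * N 1 0).re)) := by ring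
    rw [h1]
    constructor
    · intro h
      linarith
    · intro h
      linarith
  -- the displacements
  have hfin : {τ : ℝ | |τ| ≤ 2 * δ ∧ ∃ w' : ℂ, (w' * N 1 0).re = τ ∧ act (tr w') '' plane N ∈ P}.Finite := by
    classical
    have h1 := vert_fin hP hN h0 (2 * δ)
    have h2 := h1.image fun S' : Set H3 =>
      if h : ∃ w' : ℂ, S' = act (tr w') '' plane N then (h.choose * N 1 0).re else 0
    refine h2.subset ?_
    rintro τ ⟨hτ, w', hw', hw'P⟩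
    refine ⟨act (tr w') '' plane N, ⟨hw'P, w', by rw [hw']; exact hτ, rfl⟩, ?_⟩
    have h3 : ∃ w'' : ℂ, act (tr w') '' plane N = act (tr w'') '' plane N := ⟨w', rfl⟩
    show (if h : ∃ w'' : ℂ, act (tr w') '' plane N = act (tr w'') '' plane N then
      (h.choose * N 1 0).re else 0) = τ
    rw [dif_pos h3, ← hw']
    have h4 := h3.choose_spec
    have h5 : pt (z0 + (((w' * N 1 0).re / δ : ℝ) : ℂ) * w) T hT ∈ act (tr w') '' plane N := by
      rw [hmem, div_mul_cancel₀ _ hδ.ne']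
    rw [h4, hmem, div_mul_cancel₀ _ hδ.ne'] at h5
    exact h5.symm
  obtain ⟨ε, hε0, hε1, hD1, hD2⟩ := exists_eps _ hfin hδ
  have hεδ : 0 < ε * δ := mul_pos hε0 hδ
  have hεδ2 : ε * δ < δ / 2 := by nlinarith
  have hD1' : ∀ w' : ℂ, act (tr w') '' plane N ∈ P → |(w' * N 1 0).re| ≤ ε * δ →
      (w' * N 1 0).re = 0 := fun w' h1 h2 => hD1 _ ⟨by linarith, w', rfl, h1⟩ h2
  have hD2' : ∀ w' : ℂ, act (tr w') '' plane N ∈ P → |(w' * N 1 0).re - δ| ≤ ε * δ →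
      (w' * N 1 0).re = δ := by
    intro w' h1 h2
    refine hD2 _ ⟨?_, w', rfl, h1⟩ h2
    rw [abs_le] at h2 ⊢
    constructor <;> linarith [h2.1, h2.2]
  have hplane0 : ∀ w' : ℂ, (w' * N 1 0).re = 0 → act (tr w') '' plane N = plane N := by
    intro w' h
    have h1 : act (tr w') '' plane N = act (tr 0) '' plane N := tr_eq hN h0 (by rw [h]; simp)
    rw [h1, tr_zero_image]
  have hplane1 : ∀ w' : ℂ, (w' * N 1 0).re = δ → act (tr w') '' plane N = act (tr w) '' plane N :=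
    fun w' h => tr_eq hN h0 (by rw [h, hδd])
  have hoff : ∀ s : ℝ, (∀ w' : ℂ, act (tr w') '' plane N ∈ P → s * δ ≠ (w' * N 1 0).re) →
      pt (z0 + s * w) T hT ∉ ⋃₀ P := by
    rintro s hs ⟨S', hS', hx⟩
    by_cases hi : AtInf S'
    · obtain ⟨w', hw'⟩ := vert_tr hP hN h0 hS hS' hi
      rw [hw'] at hS' hx
      exact hs w' hS' ((hmem w' s).1 hx)
    · exact hol hc hP hS' hi _ T hT hT2 hx
  have hsp : ∀ s s' : ℝ, ∀ S' ∈ P, Sep S' (pt (z0 + s * w) T hT) (pt (z0 + s' * w) T hT) →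
      ∃ w' : ℂ, S' = act (tr w') '' plane N ∧
        (s * δ - (w' * N 1 0).re) * (s' * δ - (w' * N 1 0).re) < 0 := by
    intro s s' S' hS' hx
    by_cases hi : AtInf S'
    · obtain ⟨w', hw'⟩ := vert_tr hP hN h0 hS hS' hi
      refine ⟨w', hw', ?_⟩
      rw [hw'] at hx
      exact (hsep w' s s').1 hx
    · exact absurd hx (nosep hc hP hS' hi z0 w T hT hT2 s s')
  have o1 : pt (z0 + ((-ε : ℝ) : ℂ) * w) T hT ∉ ⋃₀ P := by
    refine hoff (-ε) fun w' h1 h2 => ?_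
    have h3 := hD1' w' h1 (by rw [← h2, neg_mul, abs_neg, abs_of_pos hεδ])
    rw [h3] at h2
    linarith
  have o2 : pt (z0 + ((ε : ℝ) : ℂ) * w) T hT ∉ ⋃₀ P := by
    refine hoff ε fun w' h1 h2 => ?_
    have h3 := hD1' w' h1 (by rw [← h2, abs_of_pos hεδ])
    rw [h3] at h2
    linarith
  have o3 : pt (z0 + ((1 - ε : ℝ) : ℂ) * w) T hT ∉ ⋃₀ P := by
    refine hoff (1 - ε) fun w' h1 h2 => ?_
    have h3 := hD2' w' h1 (by
      rw [← h2, abs_le]
      constructor <;> linarith)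
    rw [h3] at h2
    linarith
  have o4 : pt (z0 + ((1 + ε : ℝ) : ℂ) * w) T hT ∉ ⋃₀ P := by
    refine hoff (1 + ε) fun w' h1 h2 => ?_
    have h3 := hD2' w' h1 (by
      rw [← h2, abs_le]
      constructor <;> linarith)
    rw [h3] at h2
    linarith
  have hy : act (tr w) (pt (z0 + ((-ε : ℝ) : ℂ) * w) T hT) = pt (z0 + ((1 - ε : ℝ) : ℂ) * w) T hT := by
    rw [tr_act]
    have h1 : z0 + ((-ε : ℝ) : ℂ) * w + w = z0 + ((1 - ε : ℝ) : ℂ) * w := by
      push_cast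
      ring
    rw [h1]
  refine ⟨pt (z0 + ((-ε : ℝ) : ℂ) * w) T hT, pt (z0 + ((ε : ℝ) : ℂ) * w) T hT,
    pt (z0 + ((1 - ε : ℝ) : ℂ) * w) T hT, pt (z0 + ((1 + ε : ℝ) : ℂ) * w) T hT,
    ⟨o1, o2, fun S' hS' => ⟨fun h => ?_, fun h => ?_⟩⟩, ⟨o3, o4, fun S' hS' => ⟨fun h => ?_, fun h => ?_⟩⟩,
    hy.symm, fun S' hS' h => ?_⟩
  · obtain ⟨w', h1, h2⟩ := hsp _ _ S' hS' h
    rw [h1] at hS' ⊢
    refine hplane0 w' (hD1' w' hS' ?_)
    rw [abs_le]
    rcases mul_neg_iff.1 h2 with ⟨h3, h4⟩ | ⟨h3, h4⟩ <;> constructor <;> linarith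
  · have h1 : S' = act (tr 0) '' plane N := by rw [tr_zero_image]; exact h
    rw [h1, hsep]
    have h2 : ((0 : ℂ) * N 1 0).re = 0 := by simp
    rw [h2, sub_zero, sub_zero]
    nlinarith [mul_pos hεδ hεδ]
  · obtain ⟨w', h1, h2⟩ := hsp _ _ S' hS' h
    rw [h1] at hS' ⊢
    refine hplane1 w' (hD2' w' hS' ?_)
    rw [abs_le]
    rcases mul_neg_iff.1 h2 with ⟨h3, h4⟩ | ⟨h3, h4⟩ <;> constructor <;> linarith
  · rw [h, hsep, ← hδd]
    nlinarith [mul_pos hεδ hεδ]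
  · obtain ⟨w', h1, h2⟩ := hsp _ _ S' hS' h
    rw [h1] at hS'
    rcases mul_neg_iff.1 h2 with ⟨h3, h4⟩ | ⟨h3, h4⟩
    · linarith
    · exact hmin w' (by linarith) (by rw [← hδd]; linarith) hS'

end RPL
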