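import Pool.Agent.RPL.RealX
import Pool.Agent.RPL.Pts

/-! # RPL-ToUA: the standard plane is the upper half-plane -/

set_option linter.style.longLine false

open scoped Matrix ContDiff
open Complex

namespace RPL

open SXP

noncomputable def toU (x : H3) : ℂ := (((x.1 0 1).re : ℂ) + I) / ((x.1 1 1).re : ℂ)

open Classical in
noncomputable def ofU (z : ℂ) : H3 := if h : 0 < z.im then pt (z.re : ℂ) z.im h else pt 0 1 one_pos

private theorem tu_form (x : H3) : ∃ p r a b : ℝ, x.1 0 0 = (p : ℂ) ∧ x.1 0 1 = (a : ℂ) + b * I ∧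
    x.1 1 0 = (a : ℂ) - b * I ∧ x.1 1 1 = (r : ℂ) ∧ 0 < r ∧ p * r - a ^ 2 - b ^ 2 = 1 := by
  obtain ⟨P, hP, h0, hd⟩ := x
  have e10 : P 1 0 = star (P 0 1) := by
    have := congrFun (congrFun hP 1) 0
    rw [← this]
    rfl
  have e00 : (P 0 0).im = 0 := by
    have := congrArg Complex.im (congrFun (congrFun hP 0) 0)
    simp [Matrix.conjTranspose_apply] at this
    linarith
  have e11 : (P 1 1).im = 0 := by
    have := congrArg Complex.im (congrFun (congrFun hP 1) 1)
    simp [Matrix.conjTranspose_apply] at this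
    linarith
  rw [Matrix.det_fin_two] at hd
  have hdr := congrArg Complex.re hd
  rw [e10] at hdr
  simp [e00, e11] at hdr
  have hpr : (P 0 0).re * (P 1 1).re - (P 0 1).re ^ 2 - (P 0 1).im ^ 2 = 1 := by linarith
  refine ⟨(P 0 0).re, (P 1 1).re, (P 0 1).re, (P 0 1).im, ?_, ?_, ?_, ?_, ?_, hpr⟩
  · show P 0 0 = _
    apply Complex.ext
    · simp
    · simp [e00]
  · show P 0 1 = _
    apply Complex.ext
    · simp
    · simp
  · show P 1 0 = _
    rw [e10]
    apply Complex.ext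
    · simp
    · simp
  · show P 1 1 = _
    apply Complex.ext
    · simp
    · simp [e11]
  · have h1 : 0 < (P 0 0).re * (P 1 1).re := by nlinarith [sq_nonneg (P 0 1).re, sq_nonneg (P 0 1).im]
    exact (pos_iff_pos_of_mul_pos h1).mp h0

private theorem tu_lin (x : H3) : lin N0 x.1 = 2 * (x.1 0 1).im := by
  obtain ⟨p, r, a, b, h1, h2, h3, h4, _, _⟩ := tu_form x
  unfold lin N0
  rw [Matrix.trace_fin_two, Matrix.mul_apply, Matrix.mul_apply, Fin.sum_univ_two, Fin.sum_univ_two, h2]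
  simp only [Matrix.of_apply, Matrix.cons_val_zero, Matrix.cons_val_one, Matrix.cons_val']
  rw [h1, h3, h4]
  simp
  ring

private theorem tu_mem (x : H3) : x ∈ plane N0 ↔ (x.1 0 1).im = 0 := by
  show lin N0 x.1 = 0 ↔ _
  rw [tu_lin]
  constructor
  · intro h
    linarith
  · intro h
    rw [h, mul_zero]

private theorem tu_11 (x : H3) : 0 < (x.1 1 1).re := by
  obtain ⟨p, r, a, b, h1, h2, h3, h4, h5, _⟩ := tu_form x
  rw [h4]
  simpa using h5

theorem toU_mem (x : H3) : toU x ∈ UH := by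
  have h := tu_11 x
  show 0 < (toU x).im
  unfold toU
  rw [Complex.div_ofReal_im]
  simp only [Complex.add_im, Complex.ofReal_im, Complex.I_im, zero_add]
  positivity

private theorem ofU_eq {z : ℂ} (hz : z ∈ UH) : ofU z = pt (z.re : ℂ) z.im hz := by
  unfold ofU
  exact dif_pos hz

theorem ofU_mem {z : ℂ} (hz : z ∈ UH) : ofU z ∈ plane N0 := by
  rw [tu_mem, ofU_eq hz]
  show ((z.re : ℂ) / (z.im : ℂ)).im = 0
  rw [Complex.div_ofReal_im]
  simp

theorem toU_ofU {z : ℂ} (hz : z ∈ UH) : toU (ofU z) = z := by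
  have hz' : 0 < z.im := hz
  have h0 : (z.im : ℂ) ≠ 0 := by exact_mod_cast hz'.ne'
  rw [ofU_eq hz]
  show (((((z.re : ℂ) / (z.im : ℂ)).re : ℝ) : ℂ) + I) / (((((1 / z.im : ℝ) : ℂ)).re : ℝ) : ℂ) = z
  rw [Complex.div_ofReal_re, Complex.ofReal_re, Complex.ofReal_re]
  push_cast
  have h1 : (z.re : ℂ) + z.im * I = z := Complex.re_add_im z
  field_simp
  rw [← h1]
  simp

private theorem ofU_toU {x : H3} (hx : x ∈ plane N0) : ofU (toU x) = x := by
  rw [tu_mem] at hx
  have hU := toU_mem x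
  obtain ⟨p, r, a, b, h1, h2, h3, h4, h5, h6⟩ := tu_form x
  have hb : b = 0 := by
    rw [h2] at hx
    simpa using hx
  rw [hb] at h2 h3 h6
  have hr0 : (r : ℂ) ≠ 0 := by exact_mod_cast h5.ne'
  have hre : (toU x).re = a / r := by
    unfold toU
    rw [h2, h4, Complex.ofReal_re, Complex.div_ofReal_re]
    simp
  have him : (toU x).im = 1 / r := by
    unfold toU
    rw [h2, h4, Complex.ofReal_re, Complex.div_ofReal_im]
    simp
  rw [ofU_eq hU]
  apply Subtype.ext
  ext i j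
  have hpr : p * r = a ^ 2 + 1 := by linarith
  have hp : p = (a ^ 2 + 1) / r := by
    rw [eq_div_iff h5.ne']
    exact hpr
  fin_cases i <;> fin_cases j
  · show (((((((toU x).re : ℝ) : ℂ)).re ^ 2 + ((((toU x).re : ℝ) : ℂ)).im ^ 2 + (toU x).im ^ 2) / (toU x).im : ℝ) : ℂ) = x.1 0 0
    rw [h1, Complex.ofReal_re, Complex.ofReal_im, hre, him, hp]
    push_cast
    field_simp
    ring
  · show (((toU x).re : ℝ) : ℂ) / (((toU x).im : ℝ) : ℂ) = x.1 0 1
    rw [h2, hre, him]
    push_cast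
    field_simp
    ring
  · show (starRingEnd ℂ) (((toU x).re : ℝ) : ℂ) / (((toU x).im : ℝ) : ℂ) = x.1 1 0
    rw [h3, hre, him, Complex.conj_ofReal]
    push_cast
    field_simp
    ring
  · show ((1 / (toU x).im : ℝ) : ℂ) = x.1 1 1
    rw [h4, him]
    push_cast
    field_simp

theorem toU_act (A : SLR) {x : H3} (hx : x ∈ plane N0) : toU (act (cx A) x) = mob A (toU x) := by
  rw [tu_mem] at hx
  obtain ⟨p, r, a, b, h1, h2, h3, h4, h5, h6⟩ := tu_form x
  have hb : b = 0 := by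
    rw [h2] at hx
    simpa using hx
  rw [hb] at h2 h3 h6
  simp only [Complex.ofReal_zero, zero_mul, add_zero, sub_zero] at h2 h3
  have hr0 : (r : ℂ) ≠ 0 := by exact_mod_cast h5.ne'
  have hE : p * r - a ^ 2 = 1 := by linarith
  have hdet : A.1 0 0 * A.1 1 1 - A.1 0 1 * A.1 1 0 = 1 := by
    have := A.2
    rwa [Matrix.det_fin_two] at this
  obtain ⟨α, hα⟩ : ∃ α, α = A.1 0 0 := ⟨_, rfl⟩
  obtain ⟨β, hβ⟩ : ∃ β, β = A.1 0 1 := ⟨_, rfl⟩
  obtain ⟨γ, hγ⟩ : ∃ γ, γ = A.1 1 0 := ⟨_, rfl⟩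
  obtain ⟨δ, hδ⟩ : ∃ δ, δ = A.1 1 1 := ⟨_, rfl⟩
  rw [← hα, ← hβ, ← hγ, ← hδ] at hdet
  have y01 : (act (cx A) x).1 0 1 = (((α * p + β * a) * γ + (α * a + β * r) * δ : ℝ) : ℂ) := by
    show ((cx A).1 * x.1 * (cx A).1ᴴ) 0 1 = _
    rw [Matrix.mul_apply, Fin.sum_univ_two, Matrix.mul_apply, Matrix.mul_apply, Fin.sum_univ_two, Fin.sum_univ_two,
      Matrix.conjTranspose_apply, Matrix.conjTranspose_apply, cx_apply, cx_apply, cx_apply, cx_apply, h1, h2, h3, h4,
      ← hα, ← hβ, ← hγ, ← hδ]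
    rw [Complex.star_def, Complex.conj_ofReal, Complex.conj_ofReal]
    push_cast
    ring
  have y11 : (act (cx A) x).1 1 1 = ((γ ^ 2 * p + 2 * γ * δ * a + δ ^ 2 * r : ℝ) : ℂ) := by
    show ((cx A).1 * x.1 * (cx A).1ᴴ) 1 1 = _
    rw [Matrix.mul_apply, Fin.sum_univ_two, Matrix.mul_apply, Matrix.mul_apply, Fin.sum_univ_two, Fin.sum_univ_two,
      Matrix.conjTranspose_apply, Matrix.conjTranspose_apply, cx_apply, cx_apply, h1, h2, h3, h4, ← hγ, ← hδ]
    rw [Complex.star_def, Complex.conj_ofReal, Complex.conj_ofReal]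
    push_cast
    ring
  have hy := tu_11 (act (cx A) x)
  rw [y11, Complex.ofReal_re] at hy
  have hy0 : ((γ ^ 2 * p + 2 * γ * δ * a + δ ^ 2 * r : ℝ) : ℂ) ≠ 0 := by exact_mod_cast hy.ne'
  have hden : (γ : ℂ) * (a + I) + δ * r ≠ 0 := by
    intro h
    have hi := congrArg Complex.im h
    have hr := congrArg Complex.re h
    simp at hi hr
    rw [hi] at hr hdet
    simp at hr hdet
    rcases hr with hr | hr
    · rw [hr] at hdet
      simp at hdet
    · exact h5.ne' hr
  unfold toU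
  rw [y01, y11, h2, h4, Complex.ofReal_re, Complex.ofReal_re, Complex.ofReal_re, Complex.ofReal_re]
  unfold mob den
  rw [← hα, ← hβ, ← hγ, ← hδ]
  have hm : ((α : ℂ) * (((a : ℂ) + I) / r) + β) / ((γ : ℂ) * (((a : ℂ) + I) / r) + δ) =
      (α * (a + I) + β * r) / (γ * (a + I) + δ * r) := by
    have hden2 : (γ : ℂ) * (((a : ℂ) + I) / r) + δ ≠ 0 := by
      intro h
      apply hden
      have h7 : (γ : ℂ) * (a + I) + δ * r = ((γ : ℂ) * (((a : ℂ) + I) / r) + δ) * r := by
        field_simp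
      rw [h7, h, zero_mul]
    rw [div_eq_div_iff hden2 hden]
    field_simp
  rw [hm, div_eq_div_iff hy0 hden]
  have hD : (α : ℂ) * δ - β * γ = 1 := by exact_mod_cast hdet
  have hE' : (p : ℂ) * r - a ^ 2 = 1 := by exact_mod_cast hE
  push_cast
  linear_combination (γ : ℂ) * Complex.I_sq +
    ((γ : ℂ) * (p * r - a ^ 2) - I * (γ * a + δ * r)) * hD + (γ : ℂ) * hE'

theorem ofU_mob (A : SLR) {z : ℂ} (hz : z ∈ UH) : ofU (mob A z) = act (cx A) (ofU z) := by
  have h1 := ofU_mem hz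
  have h2 : act (cx A) (ofU z) ∈ plane N0 := by
    show lin N0 (act (cx A) (ofU z)).1 = 0
    rw [lin_act, pres_of_real]
    exact h1
  have h3 := toU_act A h1
  rw [toU_ofU hz] at h3
  rw [← h3, ofU_toU h2]

theorem toU_cont : Continuous toU := by
  unfold toU
  have hc : ∀ i j : Fin 2, Continuous fun x : H3 => x.1 i j := fun i j =>
    continuous_subtype_val.matrix_elem i j
  refine Continuous.div ?_ ?_ ?_
  · exact (Complex.continuous_ofReal.comp (Complex.continuous_re.comp (hc 0 1))).add continuous_const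
  · exact Complex.continuous_ofReal.comp (Complex.continuous_re.comp (hc 1 1))
  · intro x
    exact_mod_cast (tu_11 x).ne'

theorem ofU_cont : ContinuousOn ofU UH := by
  rw [Topology.IsInducing.subtypeVal.continuousOn_iff]
  have h1 : ∀ z ∈ UH, (Subtype.val ∘ ofU) z =
      (!![(((z.re ^ 2 + 0 ^ 2 + z.im ^ 2) / z.im : ℝ) : ℂ), ((z.re / z.im : ℝ) : ℂ); ((z.re / z.im : ℝ) : ℂ), ((1 / z.im : ℝ) : ℂ)] :
        Matrix (Fin 2) (Fin 2) ℂ) := by
    intro z hz
    show (ofU z).1 = _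
    rw [ofU_eq hz]
    ext i j
    fin_cases i <;> fin_cases j
    · rfl
    · show (z.re : ℂ) / (z.im : ℂ) = ((z.re / z.im : ℝ) : ℂ)
      push_cast
      rfl
    · show (starRingEnd ℂ) (z.re : ℂ) / (z.im : ℂ) = ((z.re / z.im : ℝ) : ℂ)
      rw [Complex.conj_ofReal]
      push_cast
      rfl
    · rfl
  refine ContinuousOn.congr ?_ h1
  have hne : ∀ z ∈ UH, z.im ≠ 0 := fun z hz => ne_of_gt hz
  have c1 : ContinuousOn (fun z : ℂ => z.re) UH := Complex.continuous_re.continuousOn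
  have c2 : ContinuousOn (fun z : ℂ => z.im) UH := Complex.continuous_im.continuousOn
  refine continuousOn_pi.2 fun i => continuousOn_pi.2 fun j => ?_
  fin_cases i <;> fin_cases j
  · exact Complex.continuous_ofReal.comp_continuousOn ((((c1.pow 2).add continuousOn_const).add (c2.pow 2)).div c2 hne)
  · exact Complex.continuous_ofReal.comp_continuousOn (c1.div c2 hne)
  · exact Complex.continuous_ofReal.comp_continuousOn (c1.div c2 hne)
  · exact Complex.continuous_ofReal.comp_continuousOn (continuousOn_const.div c2 hne)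

end RPL
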