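import Pool.Agent.RPL.ToUA
import Pool.Agent.RPL.PlEq
import Pool.Agent.RPL.RealHom

/-! # RPL-ToUB: proper and cocompact action on the upper half-plane -/

set_option linter.style.longLine false

open scoped Matrix ContDiff
open Complex

namespace RPL

open SXP

variable {G : Type} [Group G] {ρ : G →* SLC}

private theorem tb_inv (g : SLC) (x : H3) : act g⁻¹ (act g x) = x := by
  rw [← act_mul, inv_mul_cancel, act_one]

private theorem tb_inv' (g : SLC) (x : H3) : act g (act g⁻¹ x) = x := by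
  rw [← act_mul, mul_inv_cancel, act_one]

private theorem tb_cont (g : SLC) : Continuous (act g) := by
  unfold act
  exact Continuous.subtype_mk ((continuous_const.matrix_mul continuous_subtype_val).matrix_mul
    continuous_const) _

private theorem tb_smul (c : ℝ) (hc : c ≠ 0) (N : Matrix (Fin 2) (Fin 2) ℂ) :
    plane ((c : ℂ) • N) = plane N := by
  ext x
  change lin ((c : ℂ) • N) x.1 = 0 ↔ lin N x.1 = 0
  have : lin ((c : ℂ) • N) x.1 = c * lin N x.1 := by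
    unfold lin
    rw [Matrix.mul_smul, Matrix.trace_smul, smul_eq_mul, Complex.re_ofReal_mul]
  rw [this, mul_eq_zero]
  simp [hc]

private theorem tb_mob (A : SLR) {z : ℂ} (hz : z ∈ UH) : mob A z ∈ UH := by
  have h1 := toU_act A (ofU_mem hz)
  rw [toU_ofU hz] at h1
  rw [← h1]
  exact toU_mem _

theorem toUH {N : Matrix (Fin 2) (Fin 2) ℂ} (hN : IsNormal N) {k : SLC} {c : ℝ} (hc : 0 < c)
    (hk : (k⁻¹).1ᴴ * N * (k⁻¹).1 = (c : ℂ) • N0) (B : DN ρ N →* SLR)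
    (hB : ∀ d : DN ρ N, cx (B d) = k * ρ d * k⁻¹)
    (hpd : ∀ C : Set H3, IsCompact C → {g : G | (act (ρ g) '' C ∩ C).Nonempty}.Finite)
    (hcl : ClosedTG ρ (plane N)) :
    (∀ K ⊆ UH, IsCompact K → {d : DN ρ N | (mob (B d) '' K ∩ K).Nonempty}.Finite) ∧
      ∃ K ⊆ UH, IsCompact K ∧ ∀ z ∈ UH, ∃ d : DN ρ N, mob (B d) z ∈ K := by
  have himg : act k '' plane N = plane N0 := by
    rw [act_image_plane, hk, tb_smul c hc.ne']
  have hback : ∀ z ∈ UH, act k⁻¹ (ofU z) ∈ plane N := by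
    intro z hz
    have h1 := ofU_mem hz
    rw [← himg] at h1
    obtain ⟨x, hx, h2⟩ := h1
    rw [← h2, tb_inv]
    exact hx
  have key : ∀ (d : DN ρ N) (z : ℂ), z ∈ UH →
      act (ρ d) (act k⁻¹ (ofU z)) = act k⁻¹ (ofU (mob (B d) z)) := by
    intro d z hz
    rw [ofU_mob (B d) hz, hB d, ← act_mul, ← act_mul]
    congr 1
    group
  refine ⟨?_, ?_⟩
  · intro K hKU hK
    have hK' : IsCompact ((fun z => act k⁻¹ (ofU z)) '' K) :=
      hK.image_of_continuousOn ((tb_cont k⁻¹).comp_continuousOn (ofU_cont.mono hKU))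
    have hf := (hpd _ hK').preimage (f := fun d : DN ρ N => (d : G))
      (Subtype.val_injective.injOn)
    refine hf.subset ?_
    rintro d ⟨w, ⟨z, hz, hzw⟩, hw⟩
    refine ⟨act k⁻¹ (ofU w), ⟨act k⁻¹ (ofU z), ⟨z, hz, rfl⟩, ?_⟩, ⟨w, hw, rfl⟩⟩
    rw [← hzw]
    exact key d z (hKU hz)
  · obtain ⟨-, C, hC, hcov⟩ := hcl
    have hC' : ∃ C' : Set H3, IsCompact C' ∧ ∀ x ∈ plane N, ∃ d : DN ρ N, act (ρ d) x ∈ C' := by
      by_cases h0 : ∃ g0 : G, (ρ g0).1ᴴ * N * (ρ g0).1 = -N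
      · obtain ⟨g0, hg0⟩ := h0
        refine ⟨C ∪ act (ρ g0) '' C, hC.union (hC.image (tb_cont _)), fun x hx => ?_⟩
        obtain ⟨g, hg1, hg2⟩ := hcov x hx
        rcases stab_cases hN hg1 with h1 | h1
        · exact ⟨⟨g, h1⟩, Or.inl hg2⟩
        · refine ⟨⟨g0 * g, ?_⟩, Or.inr ⟨act (ρ g) x, hg2, ?_⟩⟩
          · show (ρ (g0 * g)).1ᴴ * N * (ρ (g0 * g)).1 = N
            rw [map_mul, Matrix.SpecialLinearGroup.coe_mul, Matrix.conjTranspose_mul]
            calc (ρ g).1ᴴ * (ρ g0).1ᴴ * N * ((ρ g0).1 * (ρ g).1) =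
                (ρ g).1ᴴ * ((ρ g0).1ᴴ * N * (ρ g0).1) * (ρ g).1 := by simp only [Matrix.mul_assoc]
              _ = -((ρ g).1ᴴ * N * (ρ g).1) := by rw [hg0, Matrix.mul_neg, Matrix.neg_mul]
              _ = N := by rw [h1, neg_neg]
          · show act (ρ g0) (act (ρ g) x) = act (ρ (g0 * g)) x
            rw [map_mul, act_mul]
      · refine ⟨C, hC, fun x hx => ?_⟩
        obtain ⟨g, hg1, hg2⟩ := hcov x hx
        rcases stab_cases hN hg1 with h1 | h1
        · exact ⟨⟨g, h1⟩, hg2⟩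
        · exact absurd ⟨g, h1⟩ h0
    obtain ⟨C', hCc, hC'⟩ := hC'
    refine ⟨toU '' (act k '' C'), ?_, (hCc.image (tb_cont k)).image toU_cont, ?_⟩
    · rintro _ ⟨y, -, rfl⟩
      exact toU_mem y
    · intro z hz
      obtain ⟨d, hd⟩ := hC' _ (hback z hz)
      refine ⟨d, act k (act (ρ d) (act k⁻¹ (ofU z))), ⟨_, hd, rfl⟩, ?_⟩
      rw [key d z hz, tb_inv', toU_ofU (tb_mob (B d) hz)]

end RPL
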