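import Pool.Agent.RPL.Bra
import Pool.Agent.RPL.CoV
import Pool.Agent.RPL.LocF

/-! # RPL-Unf: unfolding: the integral of the bracket vanishes -/

set_option linter.style.longLine false

open scoped Matrix ContDiff Topology
open Complex MeasureTheory Filter

namespace RPL

variable {D : Type} [Group D]

private theorem phi_zero {φ : ℂ → ℝ} {z : ℂ} (h : z ∉ tsupport φ) : φ z = 0 := image_eq_zero_of_notMem_tsupport h

private theorem bra_zero {u φ : ℂ → ℝ} {z : ℂ} (h : z ∉ tsupport φ) : bra u φ z = 0 := by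
  refine bra_const (c := 0) ?_
  filter_upwards [(isClosed_tsupport φ).isOpen_compl.mem_nhds h] with w hw
  exact phi_zero hw

private theorem comp_cd {φ : ℂ → ℝ} (hφ : ContDiff ℝ ∞ φ) (A : SLR) : ContDiffOn ℝ 1 (φ ∘ mob A) UH := by
  have h1 : ContDiff ℝ 1 φ := hφ.of_le (by exact_mod_cast le_top)
  have h2 : ContDiffOn ℝ 1 (mob A) UH := (mob_contDiff A).of_le (by exact_mod_cast le_top)
  exact h1.comp_contDiffOn h2

private theorem comp_diff {φ : ℂ → ℝ} (hφ : ContDiff ℝ ∞ φ) (A : SLR) {w : ℂ} (hw : w ∈ UH) :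
    DifferentiableAt ℝ (φ ∘ mob A) w :=
  ((comp_cd hφ A).differentiableOn one_ne_zero).differentiableAt (isOpen_UH.mem_nhds hw)

private theorem int_on {K : Set ℂ} (hK : K ⊆ UH) (hKc : IsCompact K) {g : ℂ → ℝ} (hg : ContinuousOn g UH)
    (h0 : ∀ z ∈ UH, z ∉ K → g z = 0) : IntegrableOn g UH := by
  have h1 : IntegrableOn g K := (hg.mono hK).integrableOn_compact hKc
  exact h1.of_forall_diff_eq_zero isOpen_UH.measurableSet fun z hz => h0 z hz.1 hz.2

theorem unfold {B : D →* SLR}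
    (hp : ∀ K ⊆ UH, IsCompact K → {d : D | (mob (B d) '' K ∩ K).Nonempty}.Finite)
    {u φ : ℂ → ℝ} (hu : ContDiffOn ℝ 1 u UH) (hφ : ContDiff ℝ ∞ φ) (hc : HasCompactSupport φ)
    (hs : tsupport φ ⊆ UH) (h1 : ∀ z ∈ UH, ∑ᶠ d : D, φ (mob (B d) z) = 1)
    (hinv : ∀ d : D, ∀ z ∈ UH, ∀ v : ℂ, eta u (mob (B d) z) ((den (B d) z ^ 2)⁻¹ * v) = eta u z v) :
    ∫ z in UH, bra u φ z = 0 := by
  obtain ⟨F, V, hVo, hKV, hVU, hsymm, hF⟩ := exists_loc2 hp hs hc
  have hsum : ∀ z ∈ V, ∑ d ∈ F, φ (mob (B d) z) = 1 := by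
    intro z hz
    rw [← h1 z (hVU hz)]
    symm
    refine finsum_eq_sum_of_support_subset _ fun d hd => ?_
    exact hF z hz d (subset_tsupport φ hd)
  have hsum' : ∀ z ∈ V, ∑ d ∈ F, (φ ∘ mob (B d⁻¹)) z = 1 := by
    intro z hz
    rw [← hsum z hz]
    refine Finset.sum_bij' (fun d _ => d⁻¹) (fun d _ => d⁻¹) (fun d hd => hsymm d hd) (fun d hd => hsymm d hd)
      (fun d _ => inv_inv d) (fun d _ => inv_inv d) (fun d _ => rfl)
  have hcu : ContinuousOn (bra u φ) UH := bra_cont hu (hφ.of_le (by exact_mod_cast le_top)).contDiffOn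
  have hcφ : Continuous φ := hφ.continuous
  have hcm : ∀ A : SLR, ContinuousOn (mob A) UH := fun A => (mob_contDiff A).continuousOn
  have hcB : ∀ d : D, ContinuousOn (bra u (φ ∘ mob (B d⁻¹))) UH := fun d => bra_cont hu (comp_cd hφ _)
  -- the decomposition
  have e1 : ∫ z in UH, bra u φ z = ∫ z in UH, ∑ d ∈ F, φ (mob (B d) z) * bra u φ z := by
    refine setIntegral_congr_fun isOpen_UH.measurableSet fun z _ => ?_
    show bra u φ z = ∑ d ∈ F, φ (mob (B d) z) * bra u φ z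
    by_cases hz : z ∈ tsupport φ
    · rw [← Finset.sum_mul, hsum z (hKV hz), one_mul]
    · rw [← Finset.sum_mul, bra_zero hz, mul_zero]
  have e2 : ∫ z in UH, ∑ d ∈ F, φ (mob (B d) z) * bra u φ z =
      ∑ d ∈ F, ∫ z in UH, φ (mob (B d) z) * bra u φ z := by
    refine integral_finset_sum _ fun d _ => ?_
    refine int_on hs hc ((hcφ.comp_continuousOn (hcm (B d))).mul hcu) fun z _ hz => ?_
    rw [bra_zero hz, mul_zero]
  have e3 : ∀ d ∈ F, ∫ z in UH, φ (mob (B d) z) * bra u φ z =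
      ∫ z in UH, φ z * bra u (φ ∘ mob (B d⁻¹)) z := by
    intro d _
    rw [← cov_mob (B d) (fun z => φ z * bra u (φ ∘ mob (B d⁻¹)) z)]
    refine setIntegral_congr_fun isOpen_UH.measurableSet fun z hz => ?_
    show φ (mob (B d) z) * bra u φ z = ((normSq (den (B d) z)) ^ 2)⁻¹ *
      (φ (mob (B d) z) * bra u (φ ∘ mob (B d⁻¹)) (mob (B d) z))
    have h2 : φ =ᶠ[𝓝 z] (φ ∘ mob (B d⁻¹)) ∘ mob (B d) := by
      filter_upwards [isOpen_UH.mem_nhds hz] with w hw
      show φ w = φ (mob (B d⁻¹) (mob (B d) w))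
      rw [map_inv, mob_inv (B d) hw]
    rw [bra_congr h2, bra_mob hz (comp_diff hφ _ (mob_mem (B d) hz)) (hinv d z hz)]
    ring
  have e4 : ∑ d ∈ F, ∫ z in UH, φ z * bra u (φ ∘ mob (B d⁻¹)) z =
      ∫ z in UH, ∑ d ∈ F, φ z * bra u (φ ∘ mob (B d⁻¹)) z := by
    symm
    refine integral_finset_sum _ fun d _ => ?_
    refine int_on hs hc (hcφ.continuousOn.mul (hcB d)) fun z _ hz => ?_
    rw [phi_zero hz, zero_mul]
  have e5 : ∫ z in UH, ∑ d ∈ F, φ z * bra u (φ ∘ mob (B d⁻¹)) z = 0 := by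
    rw [setIntegral_congr_fun (g := fun _ => (0 : ℝ)) isOpen_UH.measurableSet fun z hz => ?_]
    · simp
    · show ∑ d ∈ F, φ z * bra u (φ ∘ mob (B d⁻¹)) z = 0
      by_cases hzK : z ∈ tsupport φ
      · rw [← Finset.mul_sum, ← bra_sum F (fun d => φ ∘ mob (B d⁻¹)) fun d _ => comp_diff hφ _ hz,
          bra_const (c := 1), mul_zero]
        filter_upwards [hVo.mem_nhds (hKV hzK)] with w hw
        exact hsum' w hw
      · rw [← Finset.mul_sum, phi_zero hzK, zero_mul]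
  rw [e1, e2, Finset.sum_congr rfl e3, e4, e5]

end RPL
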