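import Pool.Agent.RPL.Pts
import Pool.Agent.RPL.PlEq

/-! # RPL-Vert: the vertical planes of the family are translates of each other -/

set_option linter.style.longLine false

open scoped Matrix ContDiff
open Complex

namespace RPL

open SXP

variable {G : Type} [Group G] {ρ : G →* SLC} {P : Set (Set H3)}

private theorem vt_herm {N : Matrix (Fin 2) (Fin 2) ℂ} (hN : N.IsHermitian) :
    (N 1 1).im = 0 ∧ (N 0 1).re = (N 1 0).re ∧ (N 0 1).im = -(N 1 0).im := by
  have h11 := congrFun (congrFun hN 1) 1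
  have h01 := congrFun (congrFun hN 0) 1
  rw [Matrix.conjTranspose_apply] at h11 h01
  have b := congrArg Complex.im h11
  have c := congrArg Complex.re h01
  have d := congrArg Complex.im h01
  simp only [Complex.star_def, Complex.conj_im, Complex.conj_re] at b c d
  exact ⟨by linarith, by linarith, by linarith⟩

private theorem vt_ne {N : Matrix (Fin 2) (Fin 2) ℂ} (hN : IsNormal N) (h0 : N 0 0 = 0) : N 1 0 ≠ 0 := by
  intro h
  have h1 := hN.2
  rw [Matrix.det_fin_two, h0, h] at h1
  simp at h1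

private theorem vt_mem {N : Matrix (Fin 2) (Fin 2) ℂ} (hN : N.IsHermitian) (h0 : N 0 0 = 0) (z : ℂ)
    (t : ℝ) (ht : 0 < t) : pt z t ht ∈ plane N ↔ 2 * (z * N 1 0).re + (N 1 1).re = 0 := by
  have h1 := lin_pt hN z t ht
  rw [h0, Complex.zero_re, zero_mul, zero_add] at h1
  rw [← h1]
  constructor
  · intro h
    have h2 : lin N (pt z t ht).1 = 0 := h
    rw [h2, zero_mul]
  · intro h
    rcases mul_eq_zero.1 h with h | h
    · exact h
    · exact absurd h ht.ne'

theorem vert_tr (hP : TGSurface ρ P) {N : Matrix (Fin 2) (Fin 2) ℂ} (hN : IsNormal N) (h0 : N 0 0 = 0)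
    (hS : plane N ∈ P) {S' : Set H3} (hS' : S' ∈ P) (hi : AtInf S') : ∃ w : ℂ, S' = act (tr w) '' plane N := by
  obtain ⟨N', hN', rfl, h0'⟩ := hi
  have hn := vt_ne hN h0
  have hn' := vt_ne hN' h0'
  have hq : 0 < (N 1 0).re ^ 2 + (N 1 0).im ^ 2 := by
    have := Complex.normSq_pos.mpr hn
    rw [Complex.normSq_apply] at this
    nlinarith
  have hext : ∀ w : ℂ, (∀ z : ℂ, 2 * (z * N' 1 0).re + (N' 1 1).re = 0 ↔
      2 * (z * N 1 0).re + (N 1 1).re = 2 * (w * N 1 0).re) → plane N' = act (tr w) '' plane N := by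
    intro w hw
    ext x
    obtain ⟨z, t, ht, rfl⟩ := pt_surj x
    rw [vt_mem hN'.1 h0', mem_tr_plane hN.1 h0]
    exact hw z
  by_cases hSS : plane N' = plane N
  · refine ⟨0, hext 0 fun z => ?_⟩
    rw [← vt_mem hN'.1 h0' z 1 one_pos, hSS, vt_mem hN.1 h0 z 1 one_pos]
    simp
  · have hd := hP.disj _ hS' _ hS hSS
    have hD : (N 1 0).re * (N' 1 0).im = (N 1 0).im * (N' 1 0).re := by
      by_contra hD
      have hD' : (N 1 0).im * (N' 1 0).re - (N 1 0).re * (N' 1 0).im ≠ 0 := fun h => hD (by linarith)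
      set D : ℝ := (N 1 0).im * (N' 1 0).re - (N 1 0).re * (N' 1 0).im with hDdef
      let z : ℂ := ⟨((N 1 1).re * (N' 1 0).im - (N' 1 1).re * (N 1 0).im) / (2 * D),
        ((N 1 1).re * (N' 1 0).re - (N' 1 1).re * (N 1 0).re) / (2 * D)⟩
      have h1 : pt z 1 one_pos ∈ plane N := by
        rw [vt_mem hN.1 h0, Complex.mul_re]
        simp only [z]
        field_simp
        rw [hDdef]
        ring
      have h2 : pt z 1 one_pos ∈ plane N' := by
        rw [vt_mem hN'.1 h0', Complex.mul_re]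
        simp only [z]
        field_simp
        rw [hDdef]
        ring
      exact Set.disjoint_left.1 hd h2 h1
    obtain ⟨c, hc1, hc2⟩ : ∃ c : ℝ, (N' 1 0).re = c * (N 1 0).re ∧ (N' 1 0).im = c * (N 1 0).im := by
      refine ⟨((N 1 0).re * (N' 1 0).re + (N 1 0).im * (N' 1 0).im) / ((N 1 0).re ^ 2 + (N 1 0).im ^ 2), ?_, ?_⟩
      · rw [div_mul_eq_mul_div, eq_div_iff hq.ne']
        linear_combination -(N 1 0).im * hD
      · rw [div_mul_eq_mul_div, eq_div_iff hq.ne']
        linear_combination (N 1 0).re * hD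
    have hc : c ≠ 0 := by
      rintro rfl
      apply hn'
      apply Complex.ext
      · rw [hc1, zero_mul]; rfl
      · rw [hc2, zero_mul]; rfl
    refine ⟨((((N 1 1).re - (N' 1 1).re / c) / 2 : ℝ) : ℂ) / N 1 0, hext _ fun z => ?_⟩
    rw [div_mul_cancel₀ _ hn, Complex.ofReal_re, Complex.mul_re, Complex.mul_re, hc1, hc2]
    constructor
    · intro h
      have h1 : 2 * (z.re * (N 1 0).re - z.im * (N 1 0).im) = -((N' 1 1).re / c) := by
        field_simp
        linear_combination h
      rw [h1]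
      ring
    · intro h
      have h1 : 2 * (z.re * (N 1 0).re - z.im * (N 1 0).im) = -((N' 1 1).re / c) := by
        linear_combination h
      have h2 : 2 * (z.re * (c * (N 1 0).re) - z.im * (c * (N 1 0).im)) + (N' 1 1).re =
          c * (2 * (z.re * (N 1 0).re - z.im * (N 1 0).im)) + (N' 1 1).re := by ring
      rw [h2, h1]
      field_simp
      ring

theorem tr_atInf {N : Matrix (Fin 2) (Fin 2) ℂ} (hN : IsNormal N) (h0 : N 0 0 = 0) (w : ℂ) :
    AtInf (act (tr w) '' plane N) := by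
  rw [act_tr_plane hN.1 h0]
  obtain ⟨b11, b01, b01'⟩ := vt_herm hN.1
  refine ⟨_, ⟨?_, ?_⟩, rfl, ?_⟩
  · ext i j
    fin_cases i <;> fin_cases j
    · simp [Matrix.conjTranspose_apply]
    · apply Complex.ext
      · simp [Matrix.conjTranspose_apply, b01]
      · simp [Matrix.conjTranspose_apply, b01']
    · apply Complex.ext
      · simp [Matrix.conjTranspose_apply, b01]
      · simp [Matrix.conjTranspose_apply, b01']
    · apply Complex.ext
      · simp [Matrix.conjTranspose_apply]
      · simp [Matrix.conjTranspose_apply]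
  · have h1 := hN.2
    rw [Matrix.det_fin_two, h0, zero_mul] at h1
    rw [Matrix.det_fin_two]
    simpa using h1
  · simp

/-- only finitely many translates with bounded transversal displacement belong to `P` -/
theorem vert_fin (hP : TGSurface ρ P) {N : Matrix (Fin 2) (Fin 2) ℂ} (hN : IsNormal N) (h0 : N 0 0 = 0)
    (R : ℝ) : {S' | S' ∈ P ∧ ∃ w : ℂ, |(w * N 1 0).re| ≤ R ∧ S' = act (tr w) '' plane N}.Finite := by
  have hn := vt_ne hN h0
  let γ : ℝ → H3 := fun s => pt ((s : ℂ) / N 1 0) 1 one_pos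
  have hγ : Continuous γ := by
    refine Continuous.subtype_mk ?_ _
    refine continuous_matrix fun i j => ?_
    fin_cases i <;> fin_cases j
    · show Continuous fun s : ℝ => ((((((s : ℂ) / N 1 0).re ^ 2 + ((s : ℂ) / N 1 0).im ^ 2 + 1 ^ 2) / 1 : ℝ)) : ℂ)
      fun_prop
    · show Continuous fun s : ℝ => (s : ℂ) / N 1 0 / ((1 : ℝ) : ℂ)
      fun_prop
    · show Continuous fun s : ℝ => (starRingEnd ℂ) ((s : ℂ) / N 1 0) / ((1 : ℝ) : ℂ)
      have h1 : Continuous fun s : ℝ => (starRingEnd ℂ) ((s : ℂ) / N 1 0) :=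
        Complex.continuous_conj.comp (by fun_prop)
      exact h1.div_const _
    · show Continuous fun _ : ℝ => ((1 / 1 : ℝ) : ℂ)
      exact continuous_const
  have hK : IsCompact (γ '' Set.Icc (-(R + |(N 1 1).re| / 2)) (R + |(N 1 1).re| / 2)) :=
    isCompact_Icc.image hγ
  have hfin := hP.lf.finite_nonempty_inter_compact hK
  refine (hfin.image Subtype.val).subset ?_
  rintro S' ⟨hS', w, hw, rfl⟩
  refine ⟨⟨_, hS'⟩, ?_, rfl⟩
  refine ⟨γ ((w * N 1 0).re - (N 1 1).re / 2), ?_, Set.mem_image_of_mem _ ?_⟩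
  · show pt _ 1 one_pos ∈ act (tr w) '' plane N
    rw [mem_tr_plane hN.1 h0, div_mul_cancel₀ _ hn, Complex.ofReal_re]
    ring
  · have h1 := abs_le.1 hw
    have h2 := neg_abs_le (N 1 1).re
    have h3 := le_abs_self (N 1 1).re
    constructor
    · linarith [h1.1]
    · linarith [h1.2]

end RPL
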